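import Pool.Agent.Helper93.Mono

set_option autoImplicit false

namespace Pool.Agent.Helper93

open scoped BigOperators
open MvPolynomial

theorem mem_RE_iff (N : ℕ) (f : OF N → ℂ) : f ∈ RE N ↔
    ∃ p : MvPolynomial (Fin N × (Fin N →₀ ℕ)) ℂ,
      f = fun A => eval (fun q : Fin N × (Fin N →₀ ℕ) => (A q.1).coeff q.2) p := by
  constructor
  · intro hf
    unfold RE at hf
    induction hf using Algebra.adjoin_induction with
    | mem f hf =>
      obtain ⟨i, μ, rfl⟩ := hf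
      exact ⟨X (i, μ), by funext A; simp⟩
    | algebraMap c => exact ⟨C c, by funext A; simp⟩
    | add f g _ _ hf hg =>
      obtain ⟨p, rfl⟩ := hf
      obtain ⟨q, rfl⟩ := hg
      exact ⟨p + q, by funext A; simp⟩
    | mul f g _ _ hf hg =>
      obtain ⟨p, rfl⟩ := hf
      obtain ⟨q, rfl⟩ := hg
      exact ⟨p * q, by funext A; simp⟩
  · rintro ⟨p, rfl⟩
    induction p using MvPolynomial.induction_on with
    | C c =>
      simp only [eval_C]
      exact (RE N).algebraMap_mem c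
    | add p q hp hq =>
      simp only [map_add]
      exact (RE N).add_mem hp hq
    | mul_X p i hp =>
      simp only [map_mul, eval_X]
      exact (RE N).mul_mem hp (Algebra.subset_adjoin ⟨i.1, i.2, rfl⟩)

theorem zar_eq (N : ℕ) : zar (RE N) = TopologicalSpace.generateFrom
    {U : Set (Fin N → MvPolynomial (Fin N) ℂ) |
      ∃ f : MvPolynomial (Fin N × (Fin N →₀ ℕ)) ℂ,
        U = {A : Fin N → MvPolynomial (Fin N) ℂ |
          MvPolynomial.eval (fun q : Fin N × (Fin N →₀ ℕ) => (A q.1).coeff q.2) f ≠ 0}} := by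
  unfold zar
  congr 1
  ext U
  simp only [Set.mem_ofPred_eq]
  constructor
  · rintro ⟨f, hf, rfl⟩
    obtain ⟨p, rfl⟩ := (mem_RE_iff N f).mp hf
    exact ⟨p, rfl⟩
  · rintro ⟨p, rfl⟩
    exact ⟨_, (mem_RE_iff N _).mpr ⟨p, rfl⟩, rfl⟩

/-- restriction of a family of foliations to smaller linear spaces -/
def rst (N M d : ℕ) (S : Set (OF M)) : Set (OF N) :=
  {B | B ∈ FolS N d ∧ ∃ φ : Fin M → Fin N → ℂ, ∃ A ∈ S, B = pb φ A}

section
variable {N M d : ℕ}

/-- there is an injection of components with restriction as left inverse -/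
theorem exists_inj (hN : 0 < N) (h : N ≤ M) : ∃ Φ : Set (OF N) → Set (OF M),
    (∀ D ∈ Comp (RE N) (FolS N d), Φ D ∈ Comp (RE M) (FolS M d)) ∧
    (∀ D ∈ Comp (RE N) (FolS N d), rst N M d (Φ D) = D) := by
  classical
  have hM : 0 < M := lt_of_lt_of_le hN h
  obtain ⟨J, hJ⟩ := fol_bound d
  obtain ⟨Z, hZ1, hZ2⟩ := hJ M hM
  have hex : ∀ D ∈ Comp (RE N) (FolS N d), ∃ S ∈ Comp (RE M) (FolS M d), pb (prj h) '' D ⊆ S := by
    intro D hD
    apply exists_Comp (RE M) hZ2 hZ1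
    · refine ⟨hD.1.2.1.image _, ?_⟩
      intro f hf g hg hfg
      rcases PreIrr_RH (d := d) hD.1.2.2 (fun A hA => (hD.1.1 hA).1.1) (pb_reg (prj h) hf)
        (pb_reg (prj h) hg) (fun A hA => hfg _ (Set.mem_image_of_mem _ hA)) with h1 | h1
      · left; rintro _ ⟨A, hA, rfl⟩; exact h1 A hA
      · right; rintro _ ⟨A, hA, rfl⟩; exact h1 A hA
    · rintro _ ⟨A, hA, rfl⟩
      exact ⟨pb_IntS _ (hD.1.1 hA).1, cop_prj hN h (hD.1.1 hA).2⟩
  choose! Φ hΦ1 hΦ2 using hex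
  refine ⟨Φ, hΦ1, ?_⟩
  intro D hD
  have h1 : D ⊆ rst N M d (Φ D) := by
    intro B hB
    exact ⟨hD.1.1 hB, inc h, pb (prj h) B, hΦ2 D hD (Set.mem_image_of_mem _ hB),
      (pb_inc_prj h B).symm⟩
  have hW : PreIrr (RE N : Set (OF N → ℂ)) (rst N M d (Φ D)) :=
    PreIrr_pull hN (hΦ1 D hD).1.2.2 (fun A hA => ((hΦ1 D hD).1.1 hA).1)
  have h2 : (fun t => t ⊆ FolS N d ∧ Irr (RE N) t) (rst N M d (Φ D)) :=
    ⟨fun B hB => hB.1, hD.1.2.1.mono h1, hW⟩
  exact (hD.2 h2 h1).antisymm h1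

theorem rst_bijOn (hN : 0 < N) (h : N ≤ M)
    (hcard : (Comp (RE M) (FolS M d)).ncard ≤ (Comp (RE N) (FolS N d)).ncard) :
    Set.BijOn (rst N M d) (Comp (RE M) (FolS M d)) (Comp (RE N) (FolS N d)) := by
  classical
  obtain ⟨Φ, h1, h2⟩ := exists_inj (d := d) hN h
  have hM : 0 < M := lt_of_lt_of_le hN h
  have hinj : Set.InjOn Φ (Comp (RE N) (FolS N d)) := by
    intro D1 hD1 D2 hD2 h12
    rw [← h2 D1 hD1, ← h2 D2 hD2, h12]
  have himg : Φ '' (Comp (RE N) (FolS N d)) = Comp (RE M) (FolS M d) := by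
    apply Set.eq_of_subset_of_ncard_le
    · rintro _ ⟨D, hD, rfl⟩; exact h1 D hD
    · rw [hinj.ncard_image]; exact hcard
    · exact comp_finite hM
  refine ⟨?_, ?_, ?_⟩
  · intro S hS
    rw [← himg] at hS
    obtain ⟨D, hD, rfl⟩ := hS
    rw [h2 D hD]; exact hD
  · intro S hS S' hS' hSS
    rw [← himg] at hS hS'
    obtain ⟨D, hD, rfl⟩ := hS
    obtain ⟨D', hD', rfl⟩ := hS'
    rw [h2 D hD, h2 D' hD'] at hSS
    rw [hSS]
  · intro D hD
    exact ⟨Φ D, h1 D hD, h2 D hD⟩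

end

end Pool.Agent.Helper93
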