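import Mathlib
import Pool.Agent.Helper56.DivTwo.Defs

/-!
Counting the basic set `A0 n` (Erdos' problem on sets in which no element divides two others).
-/

namespace Pool.Agent.Helper56.DivTwo

open Finset

namespace RowCount

/-- Number of elements in a row. -/
def row (s y : ℕ) : ℕ :=
  if y = 0 then 0 else
    (if (Nat.log 2 y + s) % 2 = 0 then 1 else 0) + (if 1 ≤ Nat.log 2 y then 1 else 0) +
      (if 2 ≤ Nat.log 2 y ∧ (Nat.log 2 y + s) % 2 = 1 ∧ 2 * y < 3 * 2 ^ Nat.log 2 y then 1 else 0)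

/-- Total of the rows. -/
def G (s x : ℕ) : ℕ :=
  if x = 0 then 0 else
    if s = 0 then 1 + Nat.log 2 x / 2 + Nat.log 3 x
    else if x = 1 then 0 else (Nat.log 2 x + 1) / 2 + (1 + Nat.log 3 (x / 2))

theorem log_third (x : ℕ) (hx : 3 ≤ x) :
    (2 * x < 3 * 2 ^ Nat.log 2 x ∧ 2 ≤ Nat.log 2 x ∧ Nat.log 2 (x / 3) + 2 = Nat.log 2 x) ∨
    (¬ 2 * x < 3 * 2 ^ Nat.log 2 x ∧ Nat.log 2 (x / 3) + 1 = Nat.log 2 x) := by
  have h1 : 2 ^ Nat.log 2 x ≤ x := Nat.pow_log_le_self 2 (by omega)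
  have h2 : x < 2 ^ (Nat.log 2 x + 1) := Nat.lt_pow_succ_log_self (by norm_num) x
  have ha : 1 ≤ Nat.log 2 x := Nat.log_pos (by norm_num) (by omega)
  obtain ⟨k, hk⟩ := Nat.exists_eq_add_of_le ha
  rw [hk] at h1 h2 ⊢
  have e1 : 2 ^ (1 + k) = 2 * 2 ^ k := by ring
  have e2 : 2 ^ (1 + k + 1) = 4 * 2 ^ k := by ring
  rw [e1] at h1
  rw [e2] at h2
  by_cases h : 2 * x < 3 * 2 ^ (1 + k)
  · left
    rw [e1] at h
    have hk1 : 1 ≤ k := by
      rcases Nat.eq_zero_or_pos k with h0 | h0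
      · subst h0; simp at h; omega
      · exact h0
    obtain ⟨l, hl⟩ := Nat.exists_eq_add_of_le hk1
    subst hl
    have e3 : 2 ^ (1 + l) = 2 * 2 ^ l := by ring
    rw [e3] at h1 h2 h
    refine ⟨by rw [e1, e3]; omega, by omega, ?_⟩
    have : Nat.log 2 (x / 3) = l := by
      rw [Nat.log_eq_iff (by right; constructor <;> omega)]
      have e4 : 2 ^ (l + 1) = 2 * 2 ^ l := by ring
      rw [e4]
      constructor
      · omega
      · omega
    omega
  · right
    rw [e1] at h
    refine ⟨by rw [e1]; exact h, ?_⟩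
    have : Nat.log 2 (x / 3) = k := by
      rw [Nat.log_eq_iff (by right; constructor <;> omega)]
      have e4 : 2 ^ (k + 1) = 2 * 2 ^ k := by ring
      rw [e4]
      constructor
      · omega
      · omega
    omega

theorem log_three_step (x : ℕ) (hx : 3 ≤ x) : Nat.log 3 x = 1 + Nat.log 3 (x / 3) := by
  rw [Nat.log_of_one_lt_of_le (by norm_num) hx]
  ring

theorem row_add_G (s x : ℕ) (hs : s < 2) (hx : x ≠ 0) : row s x + G s (x / 3) = G s x := by
  by_cases hx3 : 3 ≤ x
  · have h3 := log_three_step x hx3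
    have hx30 : x / 3 ≠ 0 := by omega
    have hx0 : x ≠ 0 := by omega
    have hx1 : x ≠ 1 := by omega
    have hlog0 : x / 3 = 1 → Nat.log 3 (x / 2) = 0 := by
      intro hc
      exact Nat.log_of_lt (by omega)
    have hlog1 : x / 3 ≠ 1 → Nat.log 3 (x / 2) = 1 + Nat.log 3 (x / 3 / 2) := by
      intro hc
      rw [log_three_step (x / 2) (by omega)]
      congr 2
      omega
    have hb0 : x / 3 = 1 → Nat.log 2 (x / 3) = 0 := by
      intro h
      rw [h]
      simp
    have h1 : 1 ≤ Nat.log 2 x := Nat.log_pos (by norm_num) (by omega)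
    unfold row G
    rw [if_neg hx0, if_neg hx30, if_neg hx0, if_pos h1]
    rcases log_third x hx3 with ⟨ha, hb, hc⟩ | ⟨ha, hc⟩
    · interval_cases s
      · simp only [if_true]
        split_ifs <;> omega
      · simp only [one_ne_zero, if_false, if_neg hx1]
        split_ifs <;> omega
    · interval_cases s
      · simp only [if_true]
        split_ifs <;> omega
      · simp only [one_ne_zero, if_false, if_neg hx1]
        split_ifs <;> omega
  · have : x = 1 ∨ x = 2 := by omega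
    have l21 : Nat.log 2 1 = 0 := by simp
    have l22 : Nat.log 2 2 = 1 := by
      rw [Nat.log_eq_iff (by right; constructor <;> norm_num)]
      norm_num
    have l31 : Nat.log 3 1 = 0 := by simp
    have l32 : Nat.log 3 2 = 0 := Nat.log_of_lt (by norm_num)
    rcases this with rfl | rfl <;> interval_cases s <;>
      simp [row, G, l22, l32]

theorem sum_row (s : ℕ) (hs : s < 2) (N : ℕ) : ∀ x, x ≤ N →
    ∑ j ∈ range (N + 1), row s (x / 3 ^ j) = G s x := by
  induction N with
  | zero =>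
    intro x hx
    have : x = 0 := by omega
    subst this
    simp [row, G]
  | succ N ih =>
    intro x hx
    rw [Finset.sum_range_succ']
    have : ∀ j ∈ range (N + 1), row s (x / 3 ^ (j + 1)) = row s (x / 3 / 3 ^ j) := by
      intro j _
      rw [Nat.div_div_eq_div_mul, pow_succ, mul_comm]
    rw [Finset.sum_congr rfl this]
    by_cases hx0 : x = 0
    · subst hx0
      simp [row, G]
    · rw [ih (x / 3) (by omega)]
      rw [pow_zero, Nat.div_one, add_comm]
      exact row_add_G s x hs hx0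

theorem G_eq_F (x : ℕ) (hx : x ≠ 0) : G (Nat.log 2 x % 2) x = F x := by
  unfold G F
  rw [if_neg hx]
  rcases Nat.mod_two_eq_zero_or_one (Nat.log 2 x) with h | h
  · rw [h]
    simp only [if_true, add_zero, Nat.div_one]
    omega
  · have hx1 : x ≠ 1 := by
      rintro rfl
      simp at h
    rw [h]
    simp only [one_ne_zero, if_false, if_neg hx1]
    ring

theorem log_div_pow (x i : ℕ) : Nat.log 2 (x / 2 ^ i) = Nat.log 2 x - i := by
  induction i with
  | zero => simp
  | succ i ih =>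
    rw [pow_succ, ← Nat.div_div_eq_div_mul, Nat.log_div_base, ih]
    omega

/-- Sum of the indicator over `i`. -/
theorem sum_i (x y N : ℕ) (hy : y ≠ 0) (hyx : y ≤ x) (hN : y ≤ N) :
    ∑ i ∈ range (N + 1), (if (2 ^ i ≤ y ∧
        ((y < 2 * 2 ^ i ∧ Even (Nat.log 2 x - i)) ∨ (2 * 2 ^ i ≤ y ∧ y < 4 * 2 ^ i) ∨
          (4 * 2 ^ i ≤ y ∧ y < 6 * 2 ^ i ∧ Odd (Nat.log 2 x - i)))) then 1 else 0)
      = row (Nat.log 2 x % 2) y := by
  have hle : Nat.log 2 y ≤ Nat.log 2 x := Nat.log_mono_right hyx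
  have h1 : 2 ^ Nat.log 2 y ≤ y := Nat.pow_log_le_self 2 hy
  have h2 : y < 2 ^ (Nat.log 2 y + 1) := Nat.lt_pow_succ_log_self (by norm_num) y
  have hlt : Nat.log 2 y < y := Nat.log_lt_self 2 hy
  have key : ∀ i ∈ range (N + 1), (if (2 ^ i ≤ y ∧
        ((y < 2 * 2 ^ i ∧ Even (Nat.log 2 x - i)) ∨ (2 * 2 ^ i ≤ y ∧ y < 4 * 2 ^ i) ∨
          (4 * 2 ^ i ≤ y ∧ y < 6 * 2 ^ i ∧ Odd (Nat.log 2 x - i)))) then 1 else 0)
      = (if i = Nat.log 2 y then
            (if (Nat.log 2 y + Nat.log 2 x % 2) % 2 = 0 then 1 else 0) else 0)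
        + (if i = Nat.log 2 y - 1 then (if 1 ≤ Nat.log 2 y then 1 else 0) else 0)
        + (if i = Nat.log 2 y - 2 then
            (if 2 ≤ Nat.log 2 y ∧ (Nat.log 2 y + Nat.log 2 x % 2) % 2 = 1 ∧
              2 * y < 3 * 2 ^ Nat.log 2 y then 1 else 0) else 0) := by
    intro i _
    have e1 : (2 ^ i ≤ y ∧ y < 2 * 2 ^ i) ↔ i = Nat.log 2 y := by
      constructor
      · rintro ⟨ha, hb⟩
        symm
        rw [Nat.log_eq_iff (by right; constructor <;> omega)]
        refine ⟨ha, ?_⟩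
        rw [pow_succ]; omega
      · rintro rfl
        refine ⟨h1, ?_⟩
        rw [pow_succ] at h2; omega
    have e2 : (2 * 2 ^ i ≤ y ∧ y < 4 * 2 ^ i) ↔ i + 1 = Nat.log 2 y := by
      constructor
      · rintro ⟨ha, hb⟩
        symm
        rw [Nat.log_eq_iff (by right; constructor <;> omega)]
        refine ⟨?_, ?_⟩
        · rw [pow_succ]; omega
        · rw [pow_succ, pow_succ]; omega
      · intro h
        rw [← h, pow_succ] at h1
        rw [← h, pow_succ, pow_succ] at h2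
        omega
    have e3 : (4 * 2 ^ i ≤ y ∧ y < 6 * 2 ^ i) ↔ (i + 2 = Nat.log 2 y ∧
        2 * y < 3 * 2 ^ Nat.log 2 y) := by
      constructor
      · rintro ⟨ha, hb⟩
        have : Nat.log 2 y = i + 2 := by
          rw [Nat.log_eq_iff (by right; constructor <;> omega)]
          refine ⟨?_, ?_⟩
          · rw [pow_succ, pow_succ]; omega
          · rw [pow_succ, pow_succ, pow_succ]; omega
        refine ⟨this.symm, ?_⟩
        rw [this, pow_succ, pow_succ]; omega
      · rintro ⟨h, h'⟩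
        rw [← h, pow_succ, pow_succ] at h1 h'
        omega
    have p : 0 < 2 ^ i := by positivity
    by_cases ha : i = Nat.log 2 y
    · have hh := e1.2 ha
      have c : (2 ^ i ≤ y ∧
        ((y < 2 * 2 ^ i ∧ Even (Nat.log 2 x - i)) ∨ (2 * 2 ^ i ≤ y ∧ y < 4 * 2 ^ i) ∨
          (4 * 2 ^ i ≤ y ∧ y < 6 * 2 ^ i ∧ Odd (Nat.log 2 x - i)))) ↔
          (Nat.log 2 y + Nat.log 2 x % 2) % 2 = 0 := by
        constructor
        · rintro ⟨_, h | h | h⟩
          · have := h.2
            rw [Nat.even_iff] at this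
            omega
          · omega
          · omega
        · intro h
          refine ⟨hh.1, Or.inl ⟨hh.2, ?_⟩⟩
          rw [Nat.even_iff]
          omega
      rw [if_pos ha]
      have z2 : (if i = Nat.log 2 y - 1 then (if 1 ≤ Nat.log 2 y then 1 else 0) else 0) = 0 := by
        split_ifs <;> omega
      have z3 : (if i = Nat.log 2 y - 2 then
            (if 2 ≤ Nat.log 2 y ∧ (Nat.log 2 y + Nat.log 2 x % 2) % 2 = 1 ∧
              2 * y < 3 * 2 ^ Nat.log 2 y then 1 else 0) else 0) = 0 := by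
        split_ifs <;> omega
      rw [z2, z3, add_zero, add_zero]
      simp only [c]
    · by_cases hb : i + 1 = Nat.log 2 y
      · have hh := e2.2 hb
        have c : (2 ^ i ≤ y ∧
          ((y < 2 * 2 ^ i ∧ Even (Nat.log 2 x - i)) ∨ (2 * 2 ^ i ≤ y ∧ y < 4 * 2 ^ i) ∨
            (4 * 2 ^ i ≤ y ∧ y < 6 * 2 ^ i ∧ Odd (Nat.log 2 x - i)))) :=
          ⟨by omega, Or.inr (Or.inl hh)⟩
        rw [if_pos c, if_neg ha, if_pos (by omega), if_pos (by omega)]
        have z3 : (if i = Nat.log 2 y - 2 then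
            (if 2 ≤ Nat.log 2 y ∧ (Nat.log 2 y + Nat.log 2 x % 2) % 2 = 1 ∧
              2 * y < 3 * 2 ^ Nat.log 2 y then 1 else 0) else 0) = 0 := by
          split_ifs <;> omega
        rw [z3]
      · by_cases hc : i + 2 = Nat.log 2 y
        · have z2 : (if i = Nat.log 2 y - 1 then (if 1 ≤ Nat.log 2 y then 1 else 0) else 0) = 0 := by
            split_ifs <;> omega
          rw [if_neg ha, z2, if_pos (by omega : i = Nat.log 2 y - 2)]
          have c : (2 ^ i ≤ y ∧
            ((y < 2 * 2 ^ i ∧ Even (Nat.log 2 x - i)) ∨ (2 * 2 ^ i ≤ y ∧ y < 4 * 2 ^ i) ∨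
              (4 * 2 ^ i ≤ y ∧ y < 6 * 2 ^ i ∧ Odd (Nat.log 2 x - i)))) ↔
              (2 ≤ Nat.log 2 y ∧ (Nat.log 2 y + Nat.log 2 x % 2) % 2 = 1 ∧
              2 * y < 3 * 2 ^ Nat.log 2 y) := by
            constructor
            · rintro ⟨hi, h | h | h⟩
              · exact absurd (e1.1 ⟨hi, h.1⟩) ha
              · exact absurd (e2.1 h) hb
              · have h3 := e3.1 ⟨h.1, h.2.1⟩
                have h4 := h.2.2
                rw [Nat.odd_iff] at h4
                exact ⟨by omega, by omega, h3.2⟩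
            · rintro ⟨h5, h6, h7⟩
              have h3 := e3.2 ⟨hc, h7⟩
              refine ⟨by omega, Or.inr (Or.inr ⟨h3.1, h3.2, ?_⟩)⟩
              rw [Nat.odd_iff]
              omega
          simp only [c, zero_add]
        · have z1 : ¬ (2 ^ i ≤ y ∧
            ((y < 2 * 2 ^ i ∧ Even (Nat.log 2 x - i)) ∨ (2 * 2 ^ i ≤ y ∧ y < 4 * 2 ^ i) ∨
              (4 * 2 ^ i ≤ y ∧ y < 6 * 2 ^ i ∧ Odd (Nat.log 2 x - i)))) := by
            rintro ⟨hi, h | h | h⟩
            · exact ha (e1.1 ⟨hi, h.1⟩)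
            · exact hb (e2.1 h)
            · exact hc (e3.1 ⟨h.1, h.2.1⟩).1
          have z2 : (if i = Nat.log 2 y - 1 then (if 1 ≤ Nat.log 2 y then 1 else 0) else 0) = 0 := by
            split_ifs <;> omega
          have z3 : (if i = Nat.log 2 y - 2 then
            (if 2 ≤ Nat.log 2 y ∧ (Nat.log 2 y + Nat.log 2 x % 2) % 2 = 1 ∧
              2 * y < 3 * 2 ^ Nat.log 2 y then 1 else 0) else 0) = 0 := by
            split_ifs <;> omega
          rw [if_neg z1, if_neg ha, z2, z3]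
  rw [Finset.sum_congr rfl key, Finset.sum_add_distrib, Finset.sum_add_distrib,
    Finset.sum_ite_eq', Finset.sum_ite_eq', Finset.sum_ite_eq',
    if_pos (show Nat.log 2 y ∈ range (N + 1) by rw [mem_range]; omega),
    if_pos (show Nat.log 2 y - 1 ∈ range (N + 1) by rw [mem_range]; omega),
    if_pos (show Nat.log 2 y - 2 ∈ range (N + 1) by rw [mem_range]; omega)]
  unfold row
  rw [if_neg hy]

theorem padic2 (r i j : ℕ) (hr : Nat.Coprime r 6) (hr0 : r ≠ 0) :
    padicValNat 2 (2 ^ i * 3 ^ j * r) = i := by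
  have h2 : ¬ 2 ∣ r := by
    intro h
    have := Nat.Coprime.coprime_dvd_left h hr
    norm_num at this
  have : Fact (Nat.Prime 2) := ⟨Nat.prime_two⟩
  rw [padicValNat.mul (by positivity) hr0, padicValNat.mul (by positivity) (by positivity),
    padicValNat.prime_pow, padicValNat.eq_zero_of_not_dvd h2,
    padicValNat.eq_zero_of_not_dvd (by
      intro h
      have := Nat.prime_two.dvd_of_dvd_pow h
      omega)]
  ring

theorem padic3 (r i j : ℕ) (hr : Nat.Coprime r 6) (hr0 : r ≠ 0) :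
    padicValNat 3 (2 ^ i * 3 ^ j * r) = j := by
  have h3 : ¬ 3 ∣ r := by
    intro h
    have := Nat.Coprime.coprime_dvd_left h hr
    norm_num at this
  have : Fact (Nat.Prime 3) := ⟨Nat.prime_three⟩
  rw [padicValNat.mul (by positivity) hr0, padicValNat.mul (by positivity) (by positivity),
    padicValNat.prime_pow, padicValNat.eq_zero_of_not_dvd h3,
    padicValNat.eq_zero_of_not_dvd (by
      intro h
      have := Nat.prime_three.dvd_of_dvd_pow h
      omega)]
  ring

theorem decomp (m : ℕ) (hm : m ≠ 0) :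
    ∃ r, Nat.Coprime r 6 ∧ r ≠ 0 ∧ 2 ^ padicValNat 2 m * 3 ^ padicValNat 3 m * r = m := by
  have : Fact (Nat.Prime 3) := ⟨Nat.prime_three⟩
  have : Fact (Nat.Prime 2) := ⟨Nat.prime_two⟩
  have hc : Nat.Coprime (2 ^ padicValNat 2 m) (3 ^ padicValNat 3 m) :=
    Nat.Coprime.pow _ _ (by norm_num)
  have hd : 2 ^ padicValNat 2 m * 3 ^ padicValNat 3 m ∣ m :=
    hc.mul_dvd_of_dvd_of_dvd pow_padicValNat_dvd pow_padicValNat_dvd
  obtain ⟨r, hr⟩ := hd
  have hr0 : r ≠ 0 := by
    rintro rfl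
    simp at hr
    exact hm hr
  refine ⟨r, ?_, hr0, hr.symm⟩
  have h2 : ¬ 2 ∣ r := by
    rintro ⟨c, rfl⟩
    have : 2 ^ (padicValNat 2 m + 1) ∣ m := by
      refine ⟨3 ^ padicValNat 3 m * c, ?_⟩
      conv_lhs => rw [hr]
      ring
    exact pow_succ_padicValNat_not_dvd hm this
  have h3 : ¬ 3 ∣ r := by
    rintro ⟨c, rfl⟩
    have : 3 ^ (padicValNat 3 m + 1) ∣ m := by
      refine ⟨2 ^ padicValNat 2 m * c, ?_⟩
      conv_lhs => rw [hr]
      ring
    exact pow_succ_padicValNat_not_dvd hm this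
  have h6 : (6 : ℕ) = 2 * 3 := by norm_num
  rw [h6]
  exact Nat.Coprime.mul_right ((Nat.Prime.coprime_iff_not_dvd Nat.prime_two).2 h2).symm
    ((Nat.Prime.coprime_iff_not_dvd Nat.prime_three).2 h3).symm

end RowCount

open RowCount

theorem sum_F_eq (n : ℕ) : ∑ r ∈ rough n, F (n / r) = #(A0 n) := by
  classical
  have hcard : #(A0 n) = #((rough n ×ˢ (range (n + 1) ×ˢ range (n + 1))).filter
      fun p : ℕ × ℕ × ℕ => 2 ^ p.2.2 * 3 ^ p.2.1 * p.1 ∈ A0 n) := by
    symm
    refine Finset.card_bij (fun p _ => 2 ^ p.2.2 * 3 ^ p.2.1 * p.1) ?_ ?_ ?_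
    · intro p hp
      exact (Finset.mem_filter.1 hp).2
    · rintro ⟨r, j, i⟩ hp ⟨r', j', i'⟩ hp' h
      simp only [Finset.mem_filter, Finset.mem_product, rough, Finset.mem_Icc] at hp hp'
      simp only at h
      have hr : r.Coprime 6 := hp.1.1.2
      have hr' : r'.Coprime 6 := hp'.1.1.2
      have hr0 : r ≠ 0 := by omega
      have hr0' : r' ≠ 0 := by omega
      have e2 : i = i' := by
        rw [← padic2 r i j hr hr0, h, padic2 r' i' j' hr' hr0']
      have e3 : j = j' := by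
        rw [← padic3 r i j hr hr0, h, padic3 r' i' j' hr' hr0']
      subst e2
      subst e3
      have e : r = r' := Nat.eq_of_mul_eq_mul_left (by positivity) h
      rw [e]
    · intro m hm
      have hm1 : 1 ≤ m ∧ m ≤ n := by
        have := (Finset.mem_filter.1 hm).1
        rwa [Finset.mem_Icc] at this
      obtain ⟨r, hr, hr0, hmr⟩ := decomp m (by omega)
      refine ⟨(r, padicValNat 3 m, padicValNat 2 m), ?_, hmr⟩
      have hrm : r ≤ m := Nat.le_of_dvd (by omega) ⟨_, by rw [mul_comm]; exact hmr.symm⟩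
      have b2 : padicValNat 2 m ≤ m := by
        have h1 : 2 ^ padicValNat 2 m ≤ m := Nat.le_of_dvd (by omega) pow_padicValNat_dvd
        have h2 : padicValNat 2 m < 2 ^ padicValNat 2 m := Nat.lt_two_pow_self
        omega
      have b3 : padicValNat 3 m ≤ m := by
        have h1 : 3 ^ padicValNat 3 m ≤ m := Nat.le_of_dvd (by omega) pow_padicValNat_dvd
        have h2 : padicValNat 3 m < 3 ^ padicValNat 3 m := Nat.lt_pow_self (by norm_num)
        omega
      simp only [Finset.mem_filter, Finset.mem_product, rough, Finset.mem_Icc, Finset.mem_range]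
      refine ⟨⟨⟨⟨by omega, by omega⟩, hr⟩, by omega, by omega⟩, ?_⟩
      rw [hmr]
      exact hm
  rw [hcard, Finset.card_filter, Finset.sum_product]
  refine Finset.sum_congr rfl ?_
  intro r hr
  simp only [rough, Finset.mem_filter, Finset.mem_Icc] at hr
  obtain ⟨⟨hr1, hrn⟩, hr6⟩ := hr
  have hr0 : r ≠ 0 := by omega
  rw [Finset.sum_product]
  have hx0 : n / r ≠ 0 := by
    have := Nat.div_pos hrn (by omega)
    omega
  have hxn : n / r ≤ n := Nat.div_le_self _ _
  have inner : ∀ j ∈ range (n + 1), ∑ i ∈ range (n + 1),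
      (if 2 ^ i * 3 ^ j * r ∈ A0 n then 1 else 0) =
        row (Nat.log 2 (n / r) % 2) (n / r / 3 ^ j) := by
    intro j _
    have p3 : 0 < 3 ^ j := by positivity
    have hmem : ∀ i, 2 ^ i * 3 ^ j * r ∈ A0 n ↔ (2 ^ i ≤ n / r / 3 ^ j ∧
        ((n / r / 3 ^ j < 2 * 2 ^ i ∧ Even (Nat.log 2 (n / r) - i)) ∨
          (2 * 2 ^ i ≤ n / r / 3 ^ j ∧ n / r / 3 ^ j < 4 * 2 ^ i) ∨
          (4 * 2 ^ i ≤ n / r / 3 ^ j ∧ n / r / 3 ^ j < 6 * 2 ^ i ∧
            Odd (Nat.log 2 (n / r) - i)))) := by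
      intro i
      have hpos : 0 < 2 ^ i * 3 ^ j * r := by positivity
      have hlam : lam n (2 ^ i * 3 ^ j * r) = Nat.log 2 (n / r) - i := by
        unfold lam
        rw [padic3 r i j hr6 hr0]
        have : 3 ^ j * n / (2 ^ i * 3 ^ j * r) = n / r / 2 ^ i := by
          rw [show 2 ^ i * 3 ^ j * r = 3 ^ j * (r * 2 ^ i) by ring,
            Nat.mul_div_mul_left _ _ p3, Nat.div_div_eq_div_mul]
        rw [this, log_div_pow]
      have hle : ∀ c : ℕ, c * (2 ^ i * 3 ^ j * r) ≤ n ↔ c * 2 ^ i ≤ n / r / 3 ^ j := by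
        intro c
        rw [Nat.le_div_iff_mul_le p3, Nat.le_div_iff_mul_le (by omega)]
        constructor <;> intro h <;> linarith [h]
      have hlt : ∀ c : ℕ, n < c * (2 ^ i * 3 ^ j * r) ↔ n / r / 3 ^ j < c * 2 ^ i := by
        intro c
        have := hle c
        constructor
        · intro h
          by_contra h'
          exact absurd (this.2 (not_lt.1 h')) (not_le.2 h)
        · intro h
          by_contra h'
          exact absurd (this.1 (not_lt.1 h')) (not_le.2 h)
      have hle1 := hle 1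
      rw [one_mul, one_mul] at hle1
      unfold A0
      rw [Finset.mem_filter, Finset.mem_Icc, hlam, hle1, hlt 2, hle 2, hlt 4, hle 4, hlt 6]
      constructor
      · rintro ⟨⟨_, h1⟩, h2⟩
        exact ⟨h1, h2⟩
      · rintro ⟨h1, h2⟩
        exact ⟨⟨hpos, h1⟩, h2⟩
    simp only [hmem]
    by_cases hy : n / r / 3 ^ j = 0
    · have z : ∀ i ∈ range (n + 1), (if (2 ^ i ≤ n / r / 3 ^ j ∧
        ((n / r / 3 ^ j < 2 * 2 ^ i ∧ Even (Nat.log 2 (n / r) - i)) ∨
          (2 * 2 ^ i ≤ n / r / 3 ^ j ∧ n / r / 3 ^ j < 4 * 2 ^ i) ∨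
          (4 * 2 ^ i ≤ n / r / 3 ^ j ∧ n / r / 3 ^ j < 6 * 2 ^ i ∧
            Odd (Nat.log 2 (n / r) - i)))) then 1 else 0) = 0 := by
        intro i _
        apply if_neg
        rintro ⟨h, _⟩
        rw [hy] at h
        have : 0 < 2 ^ i := by positivity
        omega
      rw [Finset.sum_congr rfl z, Finset.sum_const_zero]
      unfold row
      rw [if_pos hy]
    · exact sum_i (n / r) (n / r / 3 ^ j) n hy (Nat.div_le_self _ _)
        (le_trans (Nat.div_le_self _ _) hxn)
  rw [Finset.sum_congr rfl inner, sum_row _ (Nat.mod_lt _ (by norm_num)) n (n / r) hxn,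
    G_eq_F (n / r) hx0]

end Pool.Agent.Helper56.DivTwo
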