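import Pool.Agent.Helper93.CopL

set_option autoImplicit false

namespace Pool.Agent.Helper93

open scoped BigOperators
open MvPolynomial

/-! ### pullback of tuples of multilinear forms -/

section tup
variable {D : ℕ} {Q : Dat D} {κ : Type} {V W : Type} [AddCommGroup V] [Module ℂ V]
  [AddCommGroup W] [Module ℂ W]

/-- pullback of a tuple of forms along a linear map -/
noncomputable def pbT (φ : W →ₗ[ℂ] V) (S : Tup Q V) : Tup Q W :=
  fun k s => (S k s).compLinearMap (fun _ => φ)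

theorem act_comp (φ : W →ₗ[ℂ] V) {e : ℕ} (x : GA e) (S : Form V e) :
    act W e x (S.compLinearMap (fun _ => φ)) = (act V e x S).compLinearMap (fun _ => φ) := by
  ext w
  rw [act_apply, MultilinearMap.compLinearMap_apply, act_apply]
  rfl

theorem Cst_pbT (φ : W →ₗ[ℂ] V) {S : Tup Q V} (hS : Cst Q S) : Cst Q (pbT φ S) := by
  intro k s
  unfold pbT
  rw [act_comp, hS k s]

theorem ev_pbT (φ : W →ₗ[ℂ] V) {A : Type} (a : κ → ℂ) (S : Tup Q V) (v : A → W) (f : Fm Q κ A) :
    ev a (pbT φ S) v f = ev a S (φ ∘ v) f := by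
  have h : ev a (pbT φ S) v = ev a S (φ ∘ v) := by
    apply MvPolynomial.ringHom_ext
    · intro c
      rw [ev_C, ev_C]
    · intro x
      rw [ev_X, ev_X]
      rfl
  rw [h]

theorem XS_pbT (φ : W →ₗ[ℂ] V) {I : Set (MvPolynomial κ ℂ)} {F : Set (Idn Q κ)} {a : κ → ℂ}
    {S : Tup Q V} (h : (a, S) ∈ XS Q κ I F V) : (a, pbT φ S) ∈ XS Q κ I F W := by
  obtain ⟨h1, h2, h3⟩ := h
  refine ⟨h1, Cst_pbT φ h2, ?_⟩
  intro i hi v
  rw [ev_pbT]
  exact h3 i hi _

theorem beta_pbT {d : ℕ} (φ : W →ₗ[ℂ] V) (S : Tup (Q0 d) V) :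
    beta (pbT φ S) = (beta S).compLinearMap (fun _ => φ) := by
  ext w
  rw [MultilinearMap.compLinearMap_apply]
  unfold beta
  rw [sum_apply, sum_apply]
  apply Finset.sum_congr rfl
  intro τ _
  have := act_comp φ (XT (d + 2) τ) (S (Fin.last (d + 1)) ⟨τ, rfl⟩)
  exact congrArg (fun M => M w) this

end tup

/-! ### pullback of polynomial forms -/

section pb
variable {N M d : ℕ}

/-- linear substitution -/
noncomputable def lsub (φ : Fin M → Fin N → ℂ) :
    MvPolynomial (Fin M) ℂ →ₐ[ℂ] MvPolynomial (Fin N) ℂ :=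
  aeval (fun k => ∑ l, C (φ k l) * X l)

/-- pullback of a polynomial one-form -/
noncomputable def pb (φ : Fin M → Fin N → ℂ) (A : OF M) : OF N :=
  fun i => ∑ j, C (φ j i) * lsub φ (A j)

/-- the linear map with matrix `φ` -/
noncomputable def lmap (φ : Fin M → Fin N → ℂ) : (Fin N → ℂ) →ₗ[ℂ] (Fin M → ℂ) where
  toFun x := fun k => ∑ l, φ k l * x l
  map_add' := by
    intro x y; funext k
    simp only [Pi.add_apply, mul_add, Finset.sum_add_distrib]
  map_smul' := by
    intro c x; funext k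
    simp only [Pi.smul_apply, smul_eq_mul, RingHom.id_apply, Finset.mul_sum]
    apply Finset.sum_congr rfl
    intro l _; ring

theorem eval_lsub (φ : Fin M → Fin N → ℂ) (p : MvPolynomial (Fin M) ℂ) (x : Fin N → ℂ) :
    eval x (lsub φ p) = eval (lmap φ x) p := by
  unfold lsub
  induction p using MvPolynomial.induction_on with
  | C c => simp
  | add p q hp hq => simp only [map_add, hp, hq]
  | mul_X p i hp =>
    rw [map_mul, map_mul, hp, map_mul, aeval_X, eval_X]
    congr 1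
    simp [lmap]

theorem lmap_bv (φ : Fin M → Fin N → ℂ) (i : Fin N) :
    lmap φ (bv i) = ∑ j, φ j i • bv j := by
  funext k
  rw [Finset.sum_apply]
  show ∑ l, φ k l * bv i l = _
  rw [Finset.sum_eq_single i, Finset.sum_eq_single k]
  · simp [bv]
  · intro j _ hj; simp [bv, Ne.symm hj]
  · intro h; exact absurd (Finset.mem_univ _) h
  · intro l _ hl; simp [bv, hl]
  · intro h; exact absurd (Finset.mem_univ _) h

theorem pb_psi (φ : Fin M → Fin N → ℂ) (β : Form (Fin M → ℂ) (d + 2)) :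
    pb φ (psi β) = psi (β.compLinearMap (fun _ => lmap φ)) := by
  funext i
  apply MvPolynomial.funext
  intro x
  rw [eval_psi]
  unfold pb
  rw [map_sum, MultilinearMap.compLinearMap_apply]
  have h1 : (fun q => lmap φ ((Fin.cons (bv i) (fun _ => x) : Fin (d + 2) → Fin N → ℂ) q)) =
      (Fin.cons (lmap φ (bv i)) (fun _ => lmap φ x) : Fin (d + 2) → Fin M → ℂ) := by
    funext q
    refine Fin.cases ?_ ?_ q
    · simp
    · intro q'; simp
  rw [h1]
  have h2 : β (Fin.cons (lmap φ (bv i)) (fun _ => lmap φ x)) =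
    β.curryLeft (lmap φ (bv i)) (fun _ => lmap φ x) := rfl
  rw [h2, lmap_bv, map_sum, sum_apply]
  apply Finset.sum_congr rfl
  intro j _
  rw [map_mul, eval_C, eval_lsub, eval_psi, map_smul, smul_apply, smul_eq_mul]
  rfl

theorem pb_IntS (φ : Fin M → Fin N → ℂ) {A : OF M} (hA : A ∈ IntS M d) : pb φ A ∈ IntS N d := by
  obtain ⟨h1, h2, h3⟩ := hA
  obtain ⟨β, hβ⟩ := psi_surj A h1
  obtain ⟨S, hS1, hS2⟩ := beta_surj β
  have hmem : ((fun e => e.elim : Empty → ℂ), S) ∈ XS (Q0 d) Empty ∅ (FF d) (Fin M → ℂ) := by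
    rw [mem_XSd, hS2, hβ]
    exact ⟨hS1, h2, h3⟩
  have h4 := XS_pbT (lmap φ) hmem
  rw [mem_XSd, beta_pbT, hS2, ← pb_psi, hβ] at h4
  refine ⟨?_, h4.2.1, h4.2.2⟩
  intro i
  rw [← hβ, pb_psi]
  exact psi_hom _ i

/-! ### dependence on a parameter -/

/-- evaluation at a one-form -/
noncomputable def evA (A : OF M) : RH M d →+* ℂ :=
  (Pi.evalRingHom (fun _ : OF M => ℂ) A).comp (RH M d).val.toRingHom

theorem evA_apply (A : OF M) (f : RH M d) : evA A f = f.1 A := rfl

theorem pb_line (φ1 φ2 : Fin M → Fin N → ℂ) {f : OF N → ℂ} (hf : f ∈ RE N) :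
    ∃ P : Polynomial (RH M d), ∀ A ∈ HomS M d, ∀ t : ℂ,
      f (pb (fun k l => φ1 k l + t * (φ2 k l - φ1 k l)) A) = (P.map (evA A)).eval t := by
  classical
  unfold RE at hf
  induction hf using Algebra.adjoin_induction with
  | mem f hf =>
    obtain ⟨i, μ, rfl⟩ := hf
    -- polynomial entries
    let Φ : Fin M → Fin N → Polynomial ℂ := fun k l =>
      Polynomial.C (φ1 k l) + Polynomial.X * Polynomial.C (φ2 k l - φ1 k l)
    let q : Fin M → (Fin M →₀ ℕ) → MvPolynomial (Fin N) (Polynomial ℂ) := fun j ν =>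
      C (Φ j i) * ν.prod (fun k e => (∑ l, C (Φ k l) * X l) ^ e)
    have hq : ∀ j ν t, MvPolynomial.map (Polynomial.evalRingHom t) (q j ν) =
        C (φ1 j i + t * (φ2 j i - φ1 j i)) *
          lsub (fun k l => φ1 k l + t * (φ2 k l - φ1 k l)) (monomial ν 1) := by
      intro j ν t
      unfold lsub
      rw [aeval_monomial, map_one, one_mul]
      simp only [q, map_mul, map_C, Finsupp.prod, map_prod, map_pow, map_sum, map_X]
      have hΦ : ∀ k l, (Polynomial.evalRingHom t) (Φ k l) = φ1 k l + t * (φ2 k l - φ1 k l) := by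
        intro k l
        simp [Φ]
      simp only [hΦ]
    have hcoef : ∀ (j : Fin M) (ν : Fin M →₀ ℕ), (fun A : OF M => coeff ν (A j)) ∈ RH M d :=
      fun j ν => RE_le_RH (Algebra.subset_adjoin ⟨j, ν, rfl⟩)
    refine ⟨∑ j, ∑ ν ∈ Finset.finsuppAntidiag (Finset.univ : Finset (Fin M)) (d + 1),
      Polynomial.C ⟨_, hcoef j ν⟩ * (coeff μ (q j ν)).map (algebraMap ℂ (RH M d)), ?_⟩
    intro A hA t
    simp only [Polynomial.map_sum, Polynomial.map_mul, Polynomial.map_C, Polynomial.eval_finsetSum,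
      Polynomial.eval_mul, Polynomial.eval_C, Polynomial.map_map]
    have hcomp : (evA A).comp (algebraMap ℂ (RH M d)) = RingHom.id ℂ := by
      ext c
      rfl
    simp only [hcomp, Polynomial.map_id]
    unfold pb
    rw [coeff_sum]
    apply Finset.sum_congr rfl
    intro j _
    conv_lhs => rw [hom_sum (hA j)]
    rw [map_sum, Finset.mul_sum, coeff_sum]
    apply Finset.sum_congr rfl
    intro ν _
    rw [map_smul, mul_smul_comm, coeff_smul, ← hq j ν t, coeff_map, smul_eq_mul]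
    rfl
  | algebraMap c =>
    refine ⟨Polynomial.C (algebraMap ℂ (RH M d) c), ?_⟩
    intro A _ t
    simp only [Polynomial.map_C, Polynomial.eval_C]
    rfl
  | add f g _ _ hf hg =>
    obtain ⟨F, hF⟩ := hf
    obtain ⟨G, hG⟩ := hg
    refine ⟨F + G, ?_⟩
    intro A hA t
    simp only [Pi.add_apply, hF A hA, hG A hA, Polynomial.map_add, Polynomial.eval_add]
  | mul f g _ _ hf hg =>
    obtain ⟨F, hF⟩ := hf
    obtain ⟨G, hG⟩ := hg
    refine ⟨F * G, ?_⟩
    intro A hA t
    simp only [Pi.mul_apply, hF A hA, hG A hA, Polynomial.map_mul, Polynomial.eval_mul]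

theorem pb_reg (φ : Fin M → Fin N → ℂ) {f : OF N → ℂ} (hf : f ∈ RE N) :
    (fun A => f (pb φ A)) ∈ RH M d := by
  obtain ⟨P, hP⟩ := pb_line (d := d) φ φ hf
  obtain ⟨g, hg, hgP⟩ := (P.eval 0).2
  refine ⟨g, hg, ?_⟩
  intro A hA
  have h1 := hP A hA 0
  simp only [sub_self, mul_zero, add_zero] at h1
  show f (pb φ A) = g A
  have h1' : f (pb φ A) = Polynomial.eval 0 (Polynomial.map (evA A) P) := h1
  rw [h1', ← hgP A hA]
  have h2 := Polynomial.eval_map_apply (f := evA (d := d) A) (p := P) 0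
  rw [map_zero] at h2
  rw [h2]
  rfl

theorem PreIrr_RH {Z : Set (OF M)} (hZ : PreIrr (RE M : Set (OF M → ℂ)) Z) (hZH : Z ⊆ HomS M d)
    {f g : OF M → ℂ} (hf : f ∈ RH M d) (hg : g ∈ RH M d) (h : ∀ A ∈ Z, f A * g A = 0) :
    (∀ A ∈ Z, f A = 0) ∨ (∀ A ∈ Z, g A = 0) := by
  obtain ⟨f', hf', hff⟩ := hf
  obtain ⟨g', hg', hgg⟩ := hg
  rcases hZ f' hf' g' hg' (fun A hA => by
    rw [← hff A (hZH hA), ← hgg A (hZH hA)]; exact h A hA) with h1 | h1
  · left; intro A hA; rw [hff A (hZH hA)]; exact h1 A hA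
  · right; intro A hA; rw [hgg A (hZH hA)]; exact h1 A hA

/-- all pullbacks of an irreducible family which are foliations form an irreducible family -/
theorem PreIrr_pull (hN : 0 < N) {Z : Set (OF M)} (hZ : PreIrr (RE M : Set (OF M → ℂ)) Z)
    (hZI : Z ⊆ IntS M d) :
    PreIrr (RE N : Set (OF N → ℂ)) {B | B ∈ FolS N d ∧ ∃ φ : Fin M → Fin N → ℂ, ∃ A ∈ Z, B = pb φ A} := by
  have hZH : Z ⊆ HomS M d := fun A hA => (hZI hA).1
  intro f hf g hg hfg
  by_contra hcon
  push Not at hcon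
  obtain ⟨⟨B1, ⟨hB1, φ1, A1, hA1, rfl⟩, hf1⟩, ⟨B2, ⟨hB2, φ2, A2, hA2, rfl⟩, hg2⟩⟩ := hcon
  obtain ⟨u1, hu1, hu1a, hu1b⟩ := cop_open hN (d := d) hB1.1.1 hB1.2
  obtain ⟨u2, hu2, hu2a, hu2b⟩ := cop_open hN (d := d) hB2.1.1 hB2.2
  obtain ⟨PF, hPF⟩ := pb_line (d := d) φ1 φ2 ((RE N).mul_mem hf hu1)
  obtain ⟨PG, hPG⟩ := pb_line (d := d) φ1 φ2 ((RE N).mul_mem hg hu2)
  have key : ∀ i j, ∀ A ∈ Z, (PF.coeff i).1 A * (PG.coeff j).1 A = 0 := by
    intro i j A hA
    have h0 : PF.map (evA A) * PG.map (evA A) = 0 := by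
      apply Polynomial.funext
      intro t
      rw [Polynomial.eval_mul, ← hPF A (hZH hA) t, ← hPG A (hZH hA) t, Polynomial.eval_zero]
      set B := pb (fun k l => φ1 k l + t * (φ2 k l - φ1 k l)) A with hB
      have hBI : B ∈ IntS N d := pb_IntS _ (hZI hA)
      simp only [Pi.mul_apply]
      by_cases hu : u1 B = 0
      · rw [hu]; ring
      · have hcop := hu1b B hBI.1 hu
        have := hfg B ⟨⟨hBI, hcop⟩, _, A, hA, hB⟩
        calc f B * u1 B * (g B * u2 B) = (f B * g B) * (u1 B * u2 B) := by ring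
          _ = 0 := by rw [this, zero_mul]
    rcases mul_eq_zero.mp h0 with h | h
    · have := congrArg (fun P => Polynomial.coeff P i) h
      simp only [Polynomial.coeff_map, Polynomial.coeff_zero] at this
      rw [← evA_apply, this, zero_mul]
    · have := congrArg (fun P => Polynomial.coeff P j) h
      simp only [Polynomial.coeff_map, Polynomial.coeff_zero] at this
      rw [← evA_apply (f := PG.coeff j), this, mul_zero]
  have hFi : ∃ i, (PF.coeff i).1 A1 ≠ 0 := by
    by_contra hcon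
    push Not at hcon
    have h0 := hPF A1 (hZH hA1) 0
    have h1 : PF.map (evA A1) = 0 := by
      ext i
      rw [Polynomial.coeff_map, Polynomial.coeff_zero]
      exact hcon i
    rw [h1, Polynomial.eval_zero] at h0
    simp only [zero_mul, add_zero, Pi.mul_apply] at h0
    exact (mul_ne_zero hf1 hu1a) h0
  have hGj : ∃ j, (PG.coeff j).1 A2 ≠ 0 := by
    by_contra hcon
    push Not at hcon
    have h0 := hPG A2 (hZH hA2) 1
    have h1 : PG.map (evA A2) = 0 := by
      ext i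
      rw [Polynomial.coeff_map, Polynomial.coeff_zero]
      exact hcon i
    rw [h1, Polynomial.eval_zero] at h0
    simp only [one_mul, add_sub_cancel, Pi.mul_apply] at h0
    exact (mul_ne_zero hg2 hu2a) h0
  obtain ⟨i, hi⟩ := hFi
  obtain ⟨j, hj⟩ := hGj
  rcases PreIrr_RH hZ hZH (PF.coeff i).2 (PG.coeff j).2 (key i j) with h | h
  · exact hi (h A1 hA1)
  · exact hj (h A2 hA2)

end pb

end Pool.Agent.Helper93
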