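import Pool.Agent.Helper93.PB

set_option autoImplicit false

namespace Pool.Agent.Helper93

open scoped BigOperators
open MvPolynomial

section
variable {N M d : ℕ}

/-- matrix of the projection onto the first `N` coordinates -/
def prj (h : N ≤ M) : Fin N → Fin M → ℂ := fun l k => if k = Fin.castLE h l then 1 else 0

/-- matrix of the inclusion of the first `N` coordinates -/
def inc (h : N ≤ M) : Fin M → Fin N → ℂ := fun k l => if k = Fin.castLE h l then 1 else 0

theorem lsub_prj (h : N ≤ M) (p : MvPolynomial (Fin N) ℂ) :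
    lsub (prj h) p = rename (Fin.castLE h) p := by
  unfold lsub
  rw [rename_eq_aeval]
  congr 1
  apply MvPolynomial.algHom_ext
  intro l
  rw [aeval_X, aeval_X]
  rw [Finset.sum_eq_single (Fin.castLE h l)]
  · simp [prj]
  · intro k _ hk; simp [prj, hk]
  · intro h'; exact absurd (Finset.mem_univ _) h'

theorem lsub_inc_rename (h : N ≤ M) (p : MvPolynomial (Fin N) ℂ) :
    lsub (inc h) (rename (Fin.castLE h) p) = p := by
  unfold lsub
  rw [aeval_rename]
  have : (aeval ((fun k => ∑ l, C (inc h k l) * X l) ∘ Fin.castLE h) :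
      MvPolynomial (Fin N) ℂ →ₐ[ℂ] MvPolynomial (Fin N) ℂ) = AlgHom.id ℂ _ := by
    apply MvPolynomial.algHom_ext
    intro l
    rw [aeval_X]
    simp only [Function.comp, AlgHom.id_apply]
    rw [Finset.sum_eq_single l]
    · simp [inc]
    · intro l' _ hl'
      have : ¬ (Fin.castLE h l = Fin.castLE h l') := by
        intro h2
        exact hl' (Fin.castLE_injective h h2).symm
      simp [inc, Ne.symm hl']
    · intro h'; exact absurd (Finset.mem_univ _) h'
  rw [this]; rfl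

theorem pb_prj_cast (h : N ≤ M) (A : OF N) (l : Fin N) :
    pb (prj h) A (Fin.castLE h l) = rename (Fin.castLE h) (A l) := by
  unfold pb
  rw [Finset.sum_eq_single l]
  · rw [lsub_prj]; simp [prj]
  · intro l' _ hl'
    simp [prj, Ne.symm hl']
  · intro h'; exact absurd (Finset.mem_univ _) h'

theorem pb_inc_prj (h : N ≤ M) (A : OF N) : pb (inc h) (pb (prj h) A) = A := by
  funext i
  show ∑ j, C (inc h j i) * lsub (inc h) (pb (prj h) A j) = A i
  rw [Finset.sum_eq_single (Fin.castLE h i)]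
  · rw [pb_prj_cast, lsub_inc_rename]; simp [inc]
  · intro k _ hk; simp [inc, hk]
  · intro h'; exact absurd (Finset.mem_univ _) h'

theorem cop_prj (hN : 0 < N) (h : N ≤ M) {A : OF N} (hA : Cop A) : Cop (pb (prj h) A) := by
  classical
  intro p hp
  have hp' : ∀ l, p ∣ rename (Fin.castLE h) (A l) := by
    intro l
    rw [← pb_prj_cast]
    exact hp _
  have hne : ∃ l, A l ≠ 0 := by
    by_contra hcon
    push Not at hcon
    have h1 := hA (X ⟨0, hN⟩) (fun i => by rw [hcon i]; exact dvd_zero _)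
    have h2 := h1.map (eval (0 : Fin N → ℂ))
    simp at h2
  obtain ⟨l0, hl0⟩ := hne
  have hr0 : rename (Fin.castLE h) (A l0) ≠ 0 := by
    intro h0
    apply hl0
    exact rename_injective _ (Fin.castLE_injective h) (by rw [h0, map_zero])
  obtain ⟨q, hq⟩ := hp' l0
  have hp0 : p ≠ 0 := by
    rintro rfl; rw [zero_mul] at hq; exact hr0 hq
  have hq0 : q ≠ 0 := by
    rintro rfl; rw [mul_zero] at hq; exact hr0 hq
  have hvars : (p.vars : Set (Fin M)) ⊆ Set.range (Fin.castLE h) := by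
    intro k hk
    by_contra hcon
    have h1 : k ∉ (rename (Fin.castLE h) (A l0)).vars := by
      intro h2
      have h3 := vars_rename (Fin.castLE h) (A l0) h2
      obtain ⟨l, _, hl⟩ := Finset.mem_image.mp h3
      exact hcon ⟨l, hl⟩
    rw [mem_vars_iff_degreeOf_ne_zero, not_not, hq, degreeOf_mul_eq hp0 hq0] at h1
    have h2 := mem_vars_iff_degreeOf_ne_zero.mp (Finset.mem_coe.mp hk)
    omega
  obtain ⟨p', hp'2⟩ := exists_rename_eq_of_vars_subset_range p (Fin.castLE h)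
    (Fin.castLE_injective h) hvars
  have h3 : ∀ l, p' ∣ A l := by
    intro l
    have h4 := map_dvd (lsub (inc h)) (hp' l)
    rw [← hp'2, lsub_inc_rename, lsub_inc_rename] at h4
    exact h4
  have h5 := hA p' h3
  rw [← hp'2]
  exact h5.map (rename (Fin.castLE h))

/-- finiteness of the set of components of the space of foliations, with a uniform bound -/
theorem fol_bound (d : ℕ) : ∃ J : ℕ, ∀ N : ℕ, 0 < N → ∃ Z : Fin J → Set (OF N),
    (∀ j, PreIrr (RE N : Set (OF N → ℂ)) (Z j)) ∧ FolS N d = ⋃ j, Z j := by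
  obtain ⟨J, hJ⟩ := int_bound d
  refine ⟨J, ?_⟩
  intro N hN
  obtain ⟨Z, hZ1, hZ2⟩ := hJ N
  refine ⟨fun j => Z j ∩ {A | Cop A}, ?_, ?_⟩
  · intro j
    apply PreIrr_inter _ (hZ1 j)
    rintro A ⟨hA1, hA2⟩
    have hsub : Z j ⊆ IntS N d := by rw [hZ2]; exact Set.subset_iUnion Z j
    obtain ⟨f, hf, hfA, hfB⟩ := cop_open hN (d := d) (hsub hA1).1 hA2
    exact ⟨f, hf, hfA, fun B hB hfB' => hfB B (hsub hB).1 hfB'⟩
  · rw [← Set.iUnion_inter, ← hZ2]
    rfl

/-- components inject under the passage to more variables -/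
theorem comp_mono (hN : 0 < N) (h : N ≤ M) :
    (Comp (RE N) (FolS N d)).ncard ≤ (Comp (RE M) (FolS M d)).ncard := by
  classical
  have hM : 0 < M := lt_of_lt_of_le hN h
  obtain ⟨J, hJ⟩ := fol_bound d
  obtain ⟨Z, hZ1, hZ2⟩ := hJ M hM
  have hex : ∀ D ∈ Comp (RE N) (FolS N d), ∃ S ∈ Comp (RE M) (FolS M d), pb (prj h) '' D ⊆ S := by
    intro D hD
    apply exists_Comp (RE M) hZ2 hZ1
    · refine ⟨hD.1.2.1.image _, ?_⟩
      intro f hf g hg hfg
      rcases PreIrr_RH (d := d) hD.1.2.2 (fun A hA => (hD.1.1 hA).1.1) (pb_reg (prj h) hf)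
        (pb_reg (prj h) hg) (fun A hA => hfg _ (Set.mem_image_of_mem _ hA)) with h1 | h1
      · left; rintro _ ⟨A, hA, rfl⟩; exact h1 A hA
      · right; rintro _ ⟨A, hA, rfl⟩; exact h1 A hA
    · rintro _ ⟨A, hA, rfl⟩
      exact ⟨pb_IntS _ (hD.1.1 hA).1, cop_prj hN h (hD.1.1 hA).2⟩
  choose! Φ hΦ1 hΦ2 using hex
  apply Set.ncard_le_ncard_of_injOn Φ hΦ1 ?_ (Comp_finite (RE M) hZ2 hZ1).1
  intro D1 hD1 D2 hD2 h12
  let W : Set (OF N) := {B | B ∈ FolS N d ∧ ∃ φ : Fin M → Fin N → ℂ, ∃ A ∈ Φ D1, B = pb φ A}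
  have hsub : ∀ D ∈ Comp (RE N) (FolS N d), Φ D = Φ D1 → D ⊆ W := by
    intro D hD hDΦ B hB
    refine ⟨hD.1.1 hB, inc h, pb (prj h) B, ?_, (pb_inc_prj h B).symm⟩
    rw [← hDΦ]
    exact hΦ2 D hD (Set.mem_image_of_mem _ hB)
  have hW : PreIrr (RE N : Set (OF N → ℂ)) W :=
    PreIrr_pull hN (hΦ1 D1 hD1).1.2.2 (fun A hA => ((hΦ1 D1 hD1).1.1 hA).1)
  have heq : ∀ D ∈ Comp (RE N) (FolS N d), Φ D = Φ D1 → D = W := by
    intro D hD hDΦ
    have h1 := hsub D hD hDΦ
    have h2 : (fun t => t ⊆ FolS N d ∧ Irr (RE N) t) W :=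
      ⟨fun B hB => hB.1, hD.1.2.1.mono h1, hW⟩
    exact h1.antisymm (hD.2 h2 h1)
  rw [heq D1 hD1 rfl, heq D2 hD2 h12.symm]

theorem comp_finite (hN : 0 < N) : (Comp (RE N) (FolS N d)).Finite := by
  obtain ⟨J, hJ⟩ := fol_bound d
  obtain ⟨Z, hZ1, hZ2⟩ := hJ N hN
  exact (Comp_finite (RE N) hZ2 hZ1).1

theorem comp_bounded (d : ℕ) : ∃ J, ∀ N : ℕ, 0 < N → (Comp (RE N) (FolS N d)).ncard ≤ J := by
  obtain ⟨J, hJ⟩ := fol_bound d
  refine ⟨J, ?_⟩
  intro N hN
  obtain ⟨Z, hZ1, hZ2⟩ := hJ N hN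
  exact (Comp_finite (RE N) hZ2 hZ1).2

end

/-- a bounded nondecreasing sequence of natural numbers is eventually constant -/
theorem eventually_const (c : ℕ → ℕ) (hmono : Monotone c) (J : ℕ) (hJ : ∀ n, c n ≤ J) :
    ∃ n0, ∀ n, n0 ≤ n → c n = c n0 := by
  by_contra hcon
  push Not at hcon
  have h1 : ∀ k, ∃ n, k ≤ c n := by
    intro k
    induction k with
    | zero => exact ⟨0, Nat.zero_le _⟩
    | succ k ih =>
      obtain ⟨n, hn⟩ := ih
      obtain ⟨m, hm1, hm2⟩ := hcon n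
      have := hmono hm1
      exact ⟨m, by omega⟩
  obtain ⟨n, hn⟩ := h1 (J + 1)
  have := hJ n
  omega

end Pool.Agent.Helper93
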