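import Pool.Agent.Helper93.Block

set_option autoImplicit false

namespace Pool.Agent.Helper93

open scoped BigOperators
open MvPolynomial

variable {D : ℕ}

/-- degree index of a product factor -/
def side {k : Fin D} {T : Type} (z : (Th k × T) × Bool) : Fin D := cond z.2 z.1.1.1 z.1.1.2.1

/-- The data after elimination of the symbol `s0`. -/
noncomputable def eDat (Q : Dat D) (k : Fin D) (s0 : Q.ι k) (T : Type) [Fintype T] : Dat D where
  ι j := {s : Q.ι j // (⟨j, s⟩ : Σ j, Q.ι j) ≠ ⟨k, s0⟩} ⊕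
    ({z : (Th k × T) × Bool // side z = j} × Fin (nT (j.val + 1)))
  fin j := by classical infer_instance
  lab j := Sum.elim (fun s => Q.lab j s.1) (fun u => labT (j.val + 1) u.2)

section
variable {Q : Dat D} {κ : Type} {k : Fin D} {s0 : Q.ι k} {T : Type} [Fintype T]
variable {V : Type} [AddCommGroup V] [Module ℂ V]

/-- placeholder for a general form, expressed by labelled symbols -/
noncomputable def Gf (Q : Dat D) (κ : Type) (k : Fin D) (s0 : Q.ι k) (T : Type) [Fintype T]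
    (z : (Th k × T) × Bool) {A : Type} (I : Fin ((side z).val + 1) → A) :
    Fm (eDat Q k s0 T) κ A :=
  ∑ τ : Fin (nT ((side z).val + 1)), ∑ σ : Equiv.Perm (Fin ((side z).val + 1)),
    C (C ((XT ((side z).val + 1) τ).coeff σ)) *
      X (⟨side z, Sum.inr (⟨z, rfl⟩, τ), I ∘ σ⟩ : Vr (eDat Q k s0 T) A)

theorem ev_Gf (z : (Th k × T) × Bool) {A : Type} (I : Fin ((side z).val + 1) → A)
    (a : κ → ℂ) (S : Tup (eDat Q k s0 T) V) (v : A → V) :
    ev a S v (Gf Q κ k s0 T z I) = ∑ τ : Fin (nT ((side z).val + 1)),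
      act V _ (XT ((side z).val + 1) τ) (S (side z) (Sum.inr (⟨z, rfl⟩, τ))) (v ∘ I) := by
  unfold Gf
  simp only [map_sum, map_mul, ev_C, ev_X, eval_C]
  apply Finset.sum_congr rfl
  intro τ _
  rw [act_apply]
  rfl

theorem ev_Gf_comp (z : (Th k × T) × Bool) {A : Type} (ρ : Equiv.Perm A)
    (I : Fin ((side z).val + 1) → A)
    (a : κ → ℂ) (S : Tup (eDat Q k s0 T) V) (v : A → V) :
    ev a S v (Gf Q κ k s0 T z (ρ ∘ I)) =
      ev a S (v ∘ ρ) (Gf Q κ k s0 T z ((1 : Equiv.Perm A) ∘ I)) := by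
  rw [ev_Gf, ev_Gf]
  have h : v ∘ ρ ∘ I = (v ∘ ρ) ∘ (1 : Equiv.Perm A) ∘ I := by
    funext q; simp
  rw [h]

open Classical in
/-- number of slots going to `p` -/
noncomputable def slotc {m : ℕ} {A : Type} (I : Fin m → A) (p : A) : ℕ :=
  (Finset.univ.filter (fun q => I q = p)).card

theorem WH_Gf (z : (Th k × T) × Bool) {A : Type} (I : Fin ((side z).val + 1) → A) (p : A) :
    IsWeightedHomogeneous (wt p) (Gf Q κ k s0 T z I) (slotc I p) := by
  classical
  unfold Gf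
  apply IsWeightedHomogeneous.sum
  intro τ _
  apply IsWeightedHomogeneous.sum
  intro σ _
  have h1 : IsWeightedHomogeneous (wt p) (C (C ((XT ((side z).val + 1) τ).coeff σ)) :
    Fm (eDat Q k s0 T) κ A) 0 := isWeightedHomogeneous_C _ _
  have h2 : IsWeightedHomogeneous (wt p)
      (X (⟨side z, Sum.inr (⟨z, rfl⟩, τ), I ∘ σ⟩ : Vr (eDat Q k s0 T) A) :
        Fm (eDat Q k s0 T) κ A) (slotc I p) := by
    have := isWeightedHomogeneous_X (MvPolynomial κ ℂ) (wt p)
      (⟨side z, Sum.inr (⟨z, rfl⟩, τ), I ∘ σ⟩ : Vr (eDat Q k s0 T) A)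
    have h3 : wt p (⟨side z, Sum.inr (⟨z, rfl⟩, τ), I ∘ σ⟩ : Vr (eDat Q k s0 T) A) =
        slotc I p := by
      unfold wt slotc
      exact wt_comp_perm I σ p
    rwa [h3] at this
  have := h1.mul h2
  rwa [zero_add] at this

/-- a product of two general forms, evaluated after the permutation `ρ` -/
noncomputable def prodF (Q : Dat D) (κ : Type) (k : Fin D) (s0 : Q.ι k) (T : Type) [Fintype T]
    (ρ : Equiv.Perm (Fin (k.val + 1))) (θ : Th k) (i : T) :
    Fm (eDat Q k s0 T) (κ ⊕ Q.ι k) (Fin (k.val + 1)) :=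
  Gf Q (κ ⊕ Q.ι k) k s0 T ((θ, i), true) (ρ ∘ θ.2.2 ∘ Sum.inl) *
    Gf Q (κ ⊕ Q.ι k) k s0 T ((θ, i), false) (ρ ∘ θ.2.2 ∘ Sum.inr)

open Classical in
/-- a multiple of one of the other symbols -/
noncomputable def linF (Q : Dat D) (κ : Type) (k : Fin D) (s0 : Q.ι k) (T : Type) [Fintype T]
    (ρ : Equiv.Perm (Fin (k.val + 1))) (s : Q.ι k) :
    Fm (eDat Q k s0 T) (κ ⊕ Q.ι k) (Fin (k.val + 1)) :=
  if h : (⟨k, s⟩ : Σ j, Q.ι j) = ⟨k, s0⟩ then 0 else
    C (X (Sum.inr s)) * X (⟨k, Sum.inl ⟨s, h⟩, ρ⟩ : Vr (eDat Q k s0 T) (Fin (k.val + 1)))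

/-- The formal polynomial inside: products of two general forms and a combination of the
other symbols, all evaluated after the permutation `ρ`. -/
noncomputable def innerF (Q : Dat D) (κ : Type) (k : Fin D) (s0 : Q.ι k) (T : Type) [Fintype T]
    (ρ : Equiv.Perm (Fin (k.val + 1))) : Fm (eDat Q k s0 T) (κ ⊕ Q.ι k) (Fin (k.val + 1)) :=
  (∑ θ : Th k, ∑ i : T, prodF Q κ k s0 T ρ θ i) + ∑ s : Q.ι k, linF Q κ k s0 T ρ s

/-- formal polynomial for the eliminated symbol -/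
noncomputable def expr (Q : Dat D) (κ : Type) (k : Fin D) (s0 : Q.ι k) (T : Type) [Fintype T] :
    Fm (eDat Q k s0 T) (κ ⊕ Q.ι k) (Fin (k.val + 1)) :=
  ∑ ρ : Equiv.Perm (Fin (k.val + 1)),
    C (C ((idem (k.val + 1) (Q.lab k s0)).coeff ρ)) * innerF Q κ k s0 T ρ

theorem WH_perm (ρ : Equiv.Perm (Fin (k.val + 1))) (s : (eDat Q k s0 T).ι k)
    (p : Fin (k.val + 1)) :
    wt p (⟨k, s, ρ⟩ : Vr (eDat Q k s0 T) (Fin (k.val + 1))) = 1 := by
  classical
  unfold wt
  rw [Finset.card_eq_one]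
  refine ⟨ρ⁻¹ p, ?_⟩
  ext q
  simp only [Finset.mem_filter, Finset.mem_univ, true_and, Finset.mem_singleton]
  constructor
  · intro h; rw [← h]; simp
  · intro h; rw [h]; simp

theorem slotc_one {m : ℕ} {A : Type} {I : Fin m → A} {p : A} (r : Fin m)
    (h : ∀ q, I q = p ↔ q = r) : slotc I p = 1 := by
  classical
  unfold slotc
  rw [Finset.card_eq_one]
  refine ⟨r, ?_⟩
  ext q
  simp [h]

theorem slotc_zero {m : ℕ} {A : Type} {I : Fin m → A} {p : A}
    (h : ∀ q, I q ≠ p) : slotc I p = 0 := by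
  classical
  unfold slotc
  rw [Finset.card_eq_zero, Finset.filter_eq_empty_iff]
  intro q _
  exact h q

theorem card_split (θ : Th k) (ρ : Equiv.Perm (Fin (k.val + 1))) (p : Fin (k.val + 1)) :
    slotc (ρ ∘ θ.2.2 ∘ Sum.inl) p + slotc (ρ ∘ θ.2.2 ∘ Sum.inr) p = 1 := by
  rcases h : θ.2.2.symm (ρ⁻¹ p) with r | r
  · have h1 : slotc (ρ ∘ θ.2.2 ∘ Sum.inl) p = 1 := by
      apply slotc_one r
      intro q
      simp only [Function.comp]
      constructor
      · intro hq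
        have : θ.2.2.symm (ρ⁻¹ p) = Sum.inl q := by rw [← hq]; simp
        rw [h] at this
        exact (Sum.inl_injective this).symm
      · rintro rfl
        rw [← h]; simp
    have h2 : slotc (ρ ∘ θ.2.2 ∘ Sum.inr) p = 0 := by
      apply slotc_zero
      intro q hq
      simp only [Function.comp] at hq
      have : θ.2.2.symm (ρ⁻¹ p) = Sum.inr q := by rw [← hq]; simp
      rw [h] at this
      cases this
    rw [h1, h2]
  · have h1 : slotc (ρ ∘ θ.2.2 ∘ Sum.inr) p = 1 := by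
      apply slotc_one r
      intro q
      simp only [Function.comp]
      constructor
      · intro hq
        have : θ.2.2.symm (ρ⁻¹ p) = Sum.inr q := by rw [← hq]; simp
        rw [h] at this
        exact (Sum.inr_injective this).symm
      · rintro rfl
        rw [← h]; simp
    have h2 : slotc (ρ ∘ θ.2.2 ∘ Sum.inl) p = 0 := by
      apply slotc_zero
      intro q hq
      simp only [Function.comp] at hq
      have h3 : θ.2.2.symm (ρ⁻¹ p) = Sum.inl q := by rw [← hq]; simp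
      rw [h] at h3
      cases h3
    rw [h1, h2]

theorem WH_of_eq {σ R : Type} [CommSemiring R] {w : σ → ℕ} {f : MvPolynomial σ R} {n m : ℕ}
    (hf : IsWeightedHomogeneous w f n) (h : n = m) : IsWeightedHomogeneous w f m := h ▸ hf

theorem ML_expr : ML (expr Q κ k s0 T) (fun _ => 1) := by
  classical
  intro p
  unfold expr
  apply IsWeightedHomogeneous.sum
  intro ρ _
  have h1 : IsWeightedHomogeneous (wt p) (C (C ((idem (k.val + 1) (Q.lab k s0)).coeff ρ)) :
    Fm (eDat Q k s0 T) (κ ⊕ Q.ι k) (Fin (k.val + 1))) 0 := isWeightedHomogeneous_C _ _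
  have h2 : IsWeightedHomogeneous (wt p) (innerF Q κ k s0 T ρ) 1 := by
    unfold innerF
    apply IsWeightedHomogeneous.add
    · apply IsWeightedHomogeneous.sum
      intro θ _
      apply IsWeightedHomogeneous.sum
      intro i _
      have hc := card_split θ ρ p
      have := (WH_Gf (Q := Q) (κ := κ ⊕ Q.ι k) (s0 := s0) ((θ, i), true)
        (ρ ∘ θ.2.2 ∘ Sum.inl) p).mul
        (WH_Gf (Q := Q) (κ := κ ⊕ Q.ι k) (s0 := s0) ((θ, i), false) (ρ ∘ θ.2.2 ∘ Sum.inr) p)
      unfold prodF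
      exact WH_of_eq this hc
    · apply IsWeightedHomogeneous.sum
      intro s _
      unfold linF
      by_cases h : (⟨k, s⟩ : Σ j, Q.ι j) = ⟨k, s0⟩
      · rw [dif_pos h]; exact isWeightedHomogeneous_zero _ _ _
      · rw [dif_neg h]
        have h3 := isWeightedHomogeneous_X (MvPolynomial (κ ⊕ Q.ι k) ℂ) (wt p)
          (⟨k, Sum.inl ⟨s, h⟩, ρ⟩ : Vr (eDat Q k s0 T) (Fin (k.val + 1)))
        have h5 := WH_perm (Q := Q) (s0 := s0) (T := T) ρ (Sum.inl ⟨s, h⟩) p
        rw [h5] at h3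
        have h4 : IsWeightedHomogeneous (wt p) (C (X (Sum.inr s)) :
          Fm (eDat Q k s0 T) (κ ⊕ Q.ι k) (Fin (k.val + 1))) 0 := isWeightedHomogeneous_C _ _
        have := h4.mul h3
        rwa [zero_add] at this
  have := h1.mul h2
  rwa [zero_add] at this

theorem ev_prodF (ρ : Equiv.Perm (Fin (k.val + 1))) (a : κ ⊕ Q.ι k → ℂ)
    (S : Tup (eDat Q k s0 T) V) (w : Fin (k.val + 1) → V) (θ : Th k) (i : T) :
    ev a S w (prodF Q κ k s0 T ρ θ i) = ev a S (w ∘ ρ) (prodF Q κ k s0 T 1 θ i) := by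
  have e1 := ev_Gf_comp (Q := Q) (κ := κ ⊕ Q.ι k) (s0 := s0) ((θ, i), true) ρ
    (θ.2.2 ∘ Sum.inl) a S w
  have e2 := ev_Gf_comp (Q := Q) (κ := κ ⊕ Q.ι k) (s0 := s0) ((θ, i), false) ρ
    (θ.2.2 ∘ Sum.inr) a S w
  unfold prodF
  rw [map_mul, map_mul]
  exact congrArg₂ (· * ·) e1 e2

theorem ev_linF (ρ : Equiv.Perm (Fin (k.val + 1))) (a : κ ⊕ Q.ι k → ℂ)
    (S : Tup (eDat Q k s0 T) V) (w : Fin (k.val + 1) → V) (s : Q.ι k) :
    ev a S w (linF Q κ k s0 T ρ s) = ev a S (w ∘ ρ) (linF Q κ k s0 T 1 s) := by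
  unfold linF
  by_cases h : (⟨k, s⟩ : Σ j, Q.ι j) = ⟨k, s0⟩
  · rw [dif_pos h, dif_pos h, map_zero, map_zero]
  · rw [dif_neg h, dif_neg h, map_mul, map_mul, ev_C, ev_X, ev_C, ev_X]
    rfl

/-- evaluation of the inner polynomial -/
theorem ev_inner (ρ : Equiv.Perm (Fin (k.val + 1))) (a : κ ⊕ Q.ι k → ℂ)
    (S : Tup (eDat Q k s0 T) V) (w : Fin (k.val + 1) → V) :
    ev a S w (innerF Q κ k s0 T ρ) = ev a S (w ∘ ρ) (innerF Q κ k s0 T 1) := by
  unfold innerF
  simp only [map_add, map_sum, ev_prodF ρ a S w, ev_linF ρ a S w]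

theorem ev_expr (a : κ ⊕ Q.ι k → ℂ) (S : Tup (eDat Q k s0 T) V) (w : Fin (k.val + 1) → V) :
    ev a S w (expr Q κ k s0 T) = actF V (k.val + 1) (idem (k.val + 1) (Q.lab k s0))
      (fun w => ev a S w (innerF Q κ k s0 T 1)) w := by
  unfold expr
  rw [map_sum, actF_apply]
  apply Finset.sum_congr rfl
  intro ρ _
  rw [map_mul, ev_C, eval_C, ev_inner]

open Classical in
/-- the parametrising map -/
noncomputable def ePM (Q : Dat D) (κ : Type) (k : Fin D) (s0 : Q.ι k) (T : Type) [Fintype T] :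
    PM (eDat Q k s0 T) (κ ⊕ Q.ι k) Q κ where
  scal j := X (Sum.inl j)
  form j s := if h : (⟨j, s⟩ : Σ j, Q.ι j) = ⟨k, s0⟩ then
      Eq.mpr (congrArg (fun j : Fin D => Fm (eDat Q k s0 T) (κ ⊕ Q.ι k) (Fin (j.val + 1)))
        (congrArg Sigma.fst h)) (expr Q κ k s0 T)
    else X (⟨j, Sum.inl ⟨s, h⟩, id⟩ : Vr (eDat Q k s0 T) (Fin (j.val + 1)))
  ml j s := by
    by_cases h : (⟨j, s⟩ : Σ j, Q.ι j) = ⟨k, s0⟩
    · obtain ⟨rfl, h2⟩ := Sigma.mk.inj_iff.mp h
      obtain rfl := eq_of_heq h2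
      rw [dif_pos h]
      exact ML_expr
    · rw [dif_neg h]
      intro p
      have h3 := isWeightedHomogeneous_X (MvPolynomial (κ ⊕ Q.ι k) ℂ) (wt p)
          (⟨j, Sum.inl ⟨s, h⟩, id⟩ : Vr (eDat Q k s0 T) (Fin (j.val + 1)))
      have h4 : wt p (⟨j, Sum.inl ⟨s, h⟩, id⟩ : Vr (eDat Q k s0 T) (Fin (j.val + 1))) = 1 := by
        unfold wt
        rw [Finset.card_eq_one]
        refine ⟨p, ?_⟩
        ext q
        simp
      rwa [h4] at h3

theorem ePM_form_self : (ePM Q κ k s0 T).form k s0 = expr Q κ k s0 T := by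
  unfold ePM
  simp

theorem ePM_form_ne (j : Fin D) (s : Q.ι j) (h : (⟨j, s⟩ : Σ j, Q.ι j) ≠ ⟨k, s0⟩) :
    (ePM Q κ k s0 T).form j s =
      X (⟨j, Sum.inl ⟨s, h⟩, id⟩ : Vr (eDat Q k s0 T) (Fin (j.val + 1))) := by
  unfold ePM
  simp only [dif_neg h]

theorem ePM_Cst (p : Pt (eDat Q k s0 T) (κ ⊕ Q.ι k) V) (hp : Cst _ p.2) :
    Cst Q ((ePM Q κ k s0 T).app V p).2 := by
  intro j s
  by_cases h : (⟨j, s⟩ : Σ j, Q.ι j) = ⟨k, s0⟩
  · obtain ⟨rfl, h2⟩ := Sigma.mk.inj_iff.mp h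
    obtain rfl := eq_of_heq h2
    ext w
    rw [act_eq_actF]
    have h3 : (fun w => ((ePM Q κ j s T).app V p).2 j s w) =
        actF V (j.val + 1) (idem (j.val + 1) (Q.lab j s))
          (fun w => ev p.1 p.2 w (innerF Q κ j s T 1)) := by
      funext w
      rw [PM.app_snd, ePM_form_self, ev_expr]
    rw [h3, ← actF_mul, (labels_spec (j.val + 1)).1, ← h3]
  · have h3 : ((ePM Q κ k s0 T).app V p).2 j s = p.2 j (Sum.inl ⟨s, h⟩) := by
      ext w
      rw [PM.app_snd, ePM_form_ne j s h, ev_X]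
      rfl
    rw [h3]
    exact hp j (Sum.inl ⟨s, h⟩)

/-- the form attached to a product factor -/
def Bz (P : ∀ θ : Th k, T → Form V (θ.1.val + 1)) (R : ∀ θ : Th k, T → Form V (θ.2.1.val + 1))
    (z : (Th k × T) × Bool) : Form V ((side z).val + 1) :=
  match z with
  | ((θ, i), true) => P θ i
  | ((θ, i), false) => R θ i

open Classical in
theorem ePM_surj (a : κ → ℂ) (S : Tup Q V) (hS : Cst Q S)
    (P : ∀ θ : Th k, T → Form V (θ.1.val + 1)) (R : ∀ θ : Th k, T → Form V (θ.2.1.val + 1))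
    (y : Q.ι k → ℂ)
    (h : ∀ w : Fin (k.val + 1) → V, S k s0 w =
        actF V (k.val + 1) (idem (k.val + 1) (Q.lab k s0)) (fun w =>
          (∑ θ : Th k, ∑ i : T, P θ i (w ∘ θ.2.2 ∘ Sum.inl) * R θ i (w ∘ θ.2.2 ∘ Sum.inr))
          - ∑ s : Q.ι k, if s = s0 then 0 else y s * S k s w) w) :
    ∃ p : Pt (eDat Q k s0 T) (κ ⊕ Q.ι k) V, Cst _ p.2 ∧ (ePM Q κ k s0 T).app V p = (a, S) := by
  let S'' : Tup (eDat Q k s0 T) V := fun j => Sum.elim (fun s => S j s.1)
    (fun u => act V (j.val + 1) (YT (j.val + 1) u.2) (u.1.2 ▸ Bz P R u.1.1))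
  have hGf : ∀ (z : (Th k × T) × Bool) (I : Fin ((side z).val + 1) → Fin (k.val + 1))
      (w : Fin (k.val + 1) → V),
      ev (Sum.elim a (-y)) S'' w (Gf Q (κ ⊕ Q.ι k) k s0 T z I) = Bz P R z (w ∘ I) := by
    intro z I w
    rw [ev_Gf]
    have h1 : ∀ τ, S'' (side z) (Sum.inr (⟨z, rfl⟩, τ)) =
        act V ((side z).val + 1) (YT ((side z).val + 1) τ) (Bz P R z) := fun τ => rfl
    simp only [h1, ← act_mul]
    have h5 := (labels_spec ((side z).val + 1)).2.2.2.2.1
    have h2 : ∑ τ, act V ((side z).val + 1) (XT ((side z).val + 1) τ * YT ((side z).val + 1) τ)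
        (Bz P R z) = Bz P R z := by
      have h3 : ∑ τ, act V ((side z).val + 1) (XT ((side z).val + 1) τ * YT ((side z).val + 1) τ)
        (Bz P R z) = act V ((side z).val + 1)
          (∑ τ, XT ((side z).val + 1) τ * YT ((side z).val + 1) τ) (Bz P R z) := by
        rw [map_sum, LinearMap.sum_apply]
      rw [h3, h5, act_one]
    conv_rhs => rw [← h2]
    rw [sum_apply]
  refine ⟨(Sum.elim a (-y), S''), ?_, ?_⟩
  · intro j s
    rcases s with s | u
    · exact hS j s.1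
    · show act V (j.val + 1) (idem (j.val + 1) (labT (j.val + 1) u.2))
        (act V (j.val + 1) (YT (j.val + 1) u.2) (u.1.2 ▸ Bz P R u.1.1)) = _
      rw [← act_mul, (labels_spec (j.val + 1)).2.2.2.2.2]
      rfl
  · refine Prod.ext ?_ ?_
    · funext j
      rw [PM.app_fst]
      show MvPolynomial.eval (Sum.elim a (-y)) (X (Sum.inl j)) = a j
      simp
    · funext j s
      ext w
      rw [PM.app_snd]
      by_cases hjs : (⟨j, s⟩ : Σ j, Q.ι j) = ⟨k, s0⟩
      · obtain ⟨rfl, h2⟩ := Sigma.mk.inj_iff.mp hjs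
        obtain rfl := eq_of_heq h2
        rw [ePM_form_self, ev_expr]
        show _ = S j s w
        rw [h w]
        refine congrFun (congrArg (actF V (j.val + 1) (idem (j.val + 1) (Q.lab j s))) ?_) w
        funext w
        unfold innerF
        rw [map_add, sub_eq_add_neg, ← Finset.sum_neg_distrib]
        simp only [map_sum]
        congr 1
        · apply Finset.sum_congr rfl
          intro θ _
          apply Finset.sum_congr rfl
          intro i _
          unfold prodF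
          rw [map_mul, hGf, hGf]
          rfl
        apply Finset.sum_congr rfl
        intro s' _
        unfold linF
        by_cases hs' : s' = s
        · subst hs'
          simp
        · have hne : (⟨j, s'⟩ : Σ j, Q.ι j) ≠ ⟨j, s⟩ := by
            intro hh
            exact hs' (eq_of_heq (Sigma.mk.inj_iff.mp hh).2)
          rw [dif_neg hne, if_neg hs', map_mul, ev_C, ev_X, eval_X, ← neg_mul]
          rfl
      · rw [ePM_form_ne j s hjs, ev_X]
        rfl

end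

end Pool.Agent.Helper93
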