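import Pool.Agent.Helper93.Elim

set_option autoImplicit false

namespace Pool.Agent.Helper93

open scoped BigOperators
open MvPolynomial

variable {D : ℕ}

/-- types of splittings of `Fin (k+1)` into two nonempty parts -/
abbrev Th (k : Fin D) : Type :=
  Σ (j : Fin D) (j' : Fin D), (Fin (j.val + 1) ⊕ Fin (j'.val + 1) ≃ Fin (k.val + 1))

noncomputable instance (k : Fin D) : Fintype (Th k) := by classical infer_instance

section
variable {Q : Dat D} {κ A : Type} {V : Type} [AddCommGroup V] [Module ℂ V]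

theorem ML_X (x : Vr Q A) : ML (X x : Fm Q κ A) (fun p => wt p x) :=
  fun _ => isWeightedHomogeneous_X _ _ _

theorem inj_of_wt {x : Vr Q A} (h : ∀ p, wt p x ≤ 1) : Function.Injective x.2.2 := by
  classical
  intro q r hqr
  have := h (x.2.2 r)
  unfold wt at this
  rw [Finset.card_le_one] at this
  exact this q (by simpa using hqr) r (by simp)

theorem wt_eq_one_of_inj {x : Vr Q A} (h : ∀ p, wt p x ≤ 1) (r) : wt (x.2.2 r) x = 1 := by
  have h1 := h (x.2.2 r)
  have h2 := wt_self_pos x r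
  omega

theorem wt_eq_zero {x : Vr Q A} {p : A} (h : ∀ q, x.2.2 q ≠ p) : wt p x = 0 := by
  by_contra hne
  obtain ⟨q, hq⟩ := wt_pos_iff.mp (Nat.pos_of_ne_zero hne)
  exact h q hq

/-- existence of a splitting -/
theorem exists_split (k : Fin D) (T : Finset (Fin (k.val + 1))) (h0 : T.Nonempty)
    (h1 : T ≠ Finset.univ) : ∃ θ : Th k, (∀ r, θ.2.2 (Sum.inl r) ∈ T) ∧
      (∀ r, θ.2.2 (Sum.inr r) ∉ T) ∧ (∀ q ∈ T, ∃ r, θ.2.2 (Sum.inl r) = q) ∧
      (∀ q ∉ T, ∃ r, θ.2.2 (Sum.inr r) = q) := by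
  classical
  have hpos : 0 < T.card := Finset.card_pos.mpr h0
  have hlt : T.card < k.val + 1 := by
    have := Finset.card_lt_card (Finset.ssubset_univ_iff.mpr h1)
    simpa using this
  have hD := k.2
  let j : Fin D := ⟨T.card - 1, by omega⟩
  let j' : Fin D := ⟨(k.val + 1 - T.card) - 1, by omega⟩
  have hj : Fintype.card {q // q ∈ T} = j.val + 1 := by
    simp only [Fintype.card_coe, j]; omega
  have hj' : Fintype.card {q // ¬ q ∈ T} = j'.val + 1 := by
    rw [Fintype.card_subtype_compl]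
    simp only [Fintype.card_coe, j', Fintype.card_fin]; omega
  let e1 : Fin (j.val + 1) ≃ {q // q ∈ T} := (Fintype.equivFinOfCardEq hj).symm
  let e2 : Fin (j'.val + 1) ≃ {q // ¬ q ∈ T} := (Fintype.equivFinOfCardEq hj').symm
  let θ : Fin (j.val + 1) ⊕ Fin (j'.val + 1) ≃ Fin (k.val + 1) :=
    (Equiv.sumCongr e1 e2).trans (Equiv.sumCompl (fun q => q ∈ T))
  refine ⟨⟨j, j', θ⟩, ?_, ?_, ?_, ?_⟩
  · intro r; simp [θ]
  · intro r; simp only [θ, Equiv.trans_apply, Equiv.sumCongr_apply, Sum.map_inr]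
    exact (e2 r).2
  · intro q hq
    refine ⟨e1.symm ⟨q, hq⟩, ?_⟩
    simp [θ]
  · intro q hq
    refine ⟨e2.symm ⟨q, hq⟩, ?_⟩
    simp [θ]

theorem split_term [Fintype A] {f : Fm Q κ A} {μ : A → ℕ} (hf : ML f μ) (hμ1 : ∀ p, μ p ≤ 1)
    (k : Fin D) (htr : ∀ x : Vr Q A, k < x.1 → pderiv x f = 0)
    (e : Fin (k.val + 1) → A) (he : Function.Injective e) (heμ : ∀ q, μ (e q) = 1)
    (a : κ → ℂ) (S : Tup Q V) (v0 : A → V) (x : Vr Q A) (hx : wt (e 0) x ≠ 0)
    (hd : pderiv x f ≠ 0)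
    (hnb : ¬ ∃ (s : Q.ι k) (σ : Equiv.Perm (Fin (k.val + 1))), x = ⟨k, s, e ∘ σ⟩) :
    ∃ (θ : Th k) (P : Form V (θ.1.val + 1)) (R : Form V (θ.2.1.val + 1)),
      ∀ w : Fin (k.val + 1) → V,
        S x.1 x.2.1 ((Function.extend e w v0) ∘ x.2.2) *
          ev a S (Function.extend e w v0) (pderiv x f) =
        P (w ∘ θ.2.2 ∘ Sum.inl) * R (w ∘ θ.2.2 ∘ Sum.inr) := by
  classical
  have hle : ∀ p, wt p x ≤ μ p := by
    intro p
    by_contra hcon
    exact hd (pderiv_eq_zero_of_lt (hf p) (by omega))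
  have hwt1 : ∀ p, wt p x ≤ 1 := fun p => (hle p).trans (hμ1 p)
  have hinj := inj_of_wt hwt1
  let T : Finset (Fin (k.val + 1)) := Finset.univ.filter (fun q => ∃ r, x.2.2 r = e q)
  have hTmem : ∀ q, q ∈ T ↔ ∃ r, x.2.2 r = e q := by intro q; simp [T]
  have hT0 : T.Nonempty := by
    refine ⟨0, (hTmem 0).mpr ?_⟩
    exact wt_pos_iff.mp (Nat.pos_of_ne_zero hx)
  have hT1 : T ≠ Finset.univ := by
    intro hT
    have hall : ∀ q, ∃ r, x.2.2 r = e q := fun q => (hTmem q).mp (hT ▸ Finset.mem_univ q)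
    choose τ hτ using hall
    have hτinj : Function.Injective τ := by
      intro q q' hqq
      apply he
      rw [← hτ q, ← hτ q', hqq]
    have hcard := Fintype.card_le_of_injective τ hτinj
    simp only [Fintype.card_fin] at hcard
    have hxk : ¬ k < x.1 := fun h => hd (htr x h)
    have hxk' : x.1 = k := by
      apply Fin.ext
      have : x.1.val ≤ k.val := by
        have := not_lt.mp hxk
        exact this
      omega
    obtain ⟨k', s, I⟩ := x
    simp only at hxk'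
    subst hxk'
    apply hnb
    have hbij : Function.Bijective τ := (Fintype.bijective_iff_injective_and_card τ).mpr ⟨hτinj, rfl⟩
    let σ0 : Equiv.Perm (Fin (k'.val + 1)) := Equiv.ofBijective τ hbij
    refine ⟨s, σ0⁻¹, ?_⟩
    have : I = e ∘ ⇑σ0⁻¹ := by
      funext q
      have h1 := hτ (σ0⁻¹ q)
      have h2 : τ (σ0⁻¹ q) = q := by
        show σ0 (σ0⁻¹ q) = q
        simp
      rw [h2] at h1
      exact h1
    rw [← this]
  obtain ⟨θ, h1, h2, h3, h4⟩ := exists_split k T hT0 hT1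
  have hgi : Function.Injective (e ∘ θ.2.2 ∘ Sum.inl) :=
    he.comp (θ.2.2.injective.comp Sum.inl_injective)
  have hgi' : Function.Injective (e ∘ θ.2.2 ∘ Sum.inr) :=
    he.comp (θ.2.2.injective.comp Sum.inr_injective)
  have hw1 : ∀ q, wt ((e ∘ θ.2.2 ∘ Sum.inl) q) x = 1 := by
    intro q
    obtain ⟨r, hr⟩ := (hTmem _).mp (h1 q)
    simp only [Function.comp]
    rw [← hr]
    exact wt_eq_one_of_inj hwt1 r
  have hMLd : ML (pderiv x f) (fun p => μ p - wt p x) :=
    ML_pderiv hf x _ (fun r => Nat.sub_add_cancel (hle r))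
  have hw2 : ∀ q, (fun p => μ p - wt p x) ((e ∘ θ.2.2 ∘ Sum.inr) q) = 1 := by
    intro q
    have hnm := h2 q
    rw [hTmem] at hnm
    push Not at hnm
    simp only [Function.comp]
    rw [heμ, wt_eq_zero hnm]
  refine ⟨θ, mkForm (ML_X (κ := κ) x) a S _ hgi hw1 v0, mkForm hMLd a S _ hgi' hw2 v0, ?_⟩
  intro w
  rw [mkForm_apply, mkForm_apply]
  congr 1
  · rw [← ev_X a S _ x]
    apply ev_indep (ML_X (κ := κ) x)
    intro p hp
    have hp' := wt_pos_iff.mp (Nat.pos_of_ne_zero hp)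
    by_cases hpe : ∃ q, e q = p
    · obtain ⟨q, rfl⟩ := hpe
      obtain ⟨r, hr⟩ := h3 q ((hTmem q).mpr hp')
      rw [he.extend_apply]
      have : e q = (e ∘ θ.2.2 ∘ Sum.inl) r := by simp [hr]
      rw [this, hgi.extend_apply]
      simp [hr]
    · rw [Function.extend_apply' _ _ _ hpe, Function.extend_apply']
      rintro ⟨r, hr⟩
      exact hpe ⟨_, hr⟩
  · apply ev_indep hMLd
    intro p hp
    by_cases hpe : ∃ q, e q = p
    · obtain ⟨q, rfl⟩ := hpe
      have hqT : q ∉ T := by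
        rw [hTmem]
        rintro ⟨r, hr⟩
        apply hp
        rw [heμ, ← hr, wt_eq_one_of_inj hwt1 r]
      obtain ⟨r, hr⟩ := h4 q hqT
      rw [he.extend_apply]
      have : e q = (e ∘ θ.2.2 ∘ Sum.inr) r := by simp [hr]
      rw [this, hgi'.extend_apply]
      simp [hr]
    · rw [Function.extend_apply' _ _ _ hpe, Function.extend_apply']
      rintro ⟨r, hr⟩
      exact hpe ⟨_, hr⟩

end

theorem coeff_mul_one {e : ℕ} (x y : GA e) :
    (x * y).coeff 1 = ∑ ρ : Equiv.Perm (Fin e), y.coeff ρ * x.coeff ρ⁻¹ := by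
  classical
  rw [MonoidAlgebra.coeff_mul, Finsupp.sum_fintype _ _ (by intro i; simp)]
  have : ∀ σ : Equiv.Perm (Fin e), (y.coeff.sum fun m₂ r₂ => if σ * m₂ = 1 then x.coeff σ * r₂ else 0)
      = y.coeff σ⁻¹ * x.coeff σ := by
    intro σ
    rw [Finsupp.sum_fintype _ _ (by intro i; simp)]
    rw [Finset.sum_eq_single σ⁻¹]
    · simp [mul_comm]
    · intro τ _ hτ
      rw [if_neg]
      intro h
      exact hτ (eq_inv_of_mul_eq_one_right h)
    · intro h; exact absurd (Finset.mem_univ _) h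
  rw [Finset.sum_congr rfl (fun σ _ => this σ)]
  exact Fintype.sum_equiv (Equiv.inv _) _ _ (fun σ => by simp)

/-- make an element of the group algebra from its coefficients -/
noncomputable def mkGA {e : ℕ} (c : Equiv.Perm (Fin e) → ℂ) : GA e :=
  MonoidAlgebra.ofCoeff (Finsupp.equivFunOnFinite.symm c)

theorem coeff_mkGA {e : ℕ} (c : Equiv.Perm (Fin e) → ℂ) (σ : Equiv.Perm (Fin e)) :
    (mkGA c).coeff σ = c σ := by
  simp [mkGA]

section
variable {Q : Dat D} {κ A : Type} {V : Type} [AddCommGroup V] [Module ℂ V]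

/-- index type of the product terms -/
abbrev Tt (Q : Dat D) (A : Type) (k : Fin D) : Type :=
  Equiv.Perm (Fin (k.val + 1)) × Vr Q A

theorem sum_Th (k : Fin D) (τ : Equiv.Perm (Fin (k.val + 1))) (F : Th k → ℂ) :
    ∑ θ : Th k, F ⟨θ.1, θ.2.1, θ.2.2.trans τ⁻¹⟩ = ∑ θ : Th k, F θ := by
  classical
  rw [Fintype.sum_sigma, Fintype.sum_sigma]
  apply Finset.sum_congr rfl
  intro j _
  rw [Fintype.sum_sigma, Fintype.sum_sigma]
  apply Finset.sum_congr rfl
  intro j' _
  refine Fintype.sum_bijective (fun θ : (Fin (j.val + 1) ⊕ Fin (j'.val + 1) ≃ Fin (k.val + 1)) =>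
    θ.trans τ⁻¹) ?_ _ _ ?_
  · constructor
    · intro θ θ' h
      have h2 := congrArg (fun t : (Fin (j.val + 1) ⊕ Fin (j'.val + 1) ≃ Fin (k.val + 1)) =>
        t.trans τ) h
      ext r
      have h3 := congrArg (fun t : (Fin (j.val + 1) ⊕ Fin (j'.val + 1) ≃ Fin (k.val + 1)) =>
        t r) h2
      simpa using congrArg Fin.val h3
    · intro θ
      refine ⟨θ.trans τ, ?_⟩
      ext r
      simp
  · intro θ; rfl

open Classical in
theorem elim_point [Fintype A] {f : Fm Q κ A} {μ : A → ℕ} (hf : ML f μ) (hμ1 : ∀ p, μ p ≤ 1)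
    (k : Fin D) (htr : ∀ x : Vr Q A, k < x.1 → pderiv x f = 0)
    (e : Fin (k.val + 1) → A) (he : Function.Injective e) (heμ : ∀ q, μ (e q) = 1)
    (s0 : Q.ι k)
    (a : κ → ℂ) (S : Tup Q V) (hS : Cst Q S) (hvan : ∀ v, ev a S v f = 0)
    (v0 : A → V) (hnz : ev a S v0 (hh k s0 e f) ≠ 0) :
    ∃ (P : ∀ θ : Th k, Tt Q A k → Form V (θ.1.val + 1))
      (R : ∀ θ : Th k, Tt Q A k → Form V (θ.2.1.val + 1)) (y : Q.ι k → ℂ),
      ∀ w : Fin (k.val + 1) → V, S k s0 w =
        actF V (k.val + 1) (idem (k.val + 1) (Q.lab k s0)) (fun w =>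
          (∑ θ : Th k, ∑ i : Tt Q A k, P θ i (w ∘ θ.2.2 ∘ Sum.inl) * R θ i (w ∘ θ.2.2 ∘ Sum.inr))
          - ∑ s : Q.ι k, if s = s0 then 0 else y s * S k s w) w := by
  classical
  obtain ⟨hL1, hL2, hL3, hL4, hL5, hL6⟩ := labels_spec (k.val + 1)
  -- the splitting of each term
  let blk : Vr Q A → Prop := fun x => ∃ (s : Q.ι k) (σ : Equiv.Perm (Fin (k.val + 1))),
    x = ⟨k, s, e ∘ σ⟩
  have hterm : ∀ x : Vr Q A, ¬ blk x → ∃ (P : ∀ θ : Th k, Form V (θ.1.val + 1))
      (R : ∀ θ : Th k, Form V (θ.2.1.val + 1)), ∀ w : Fin (k.val + 1) → V,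
      (wt (e 0) x : ℂ) * (S x.1 x.2.1 ((Function.extend e w v0) ∘ x.2.2) *
          ev a S (Function.extend e w v0) (pderiv x f)) =
        ∑ θ : Th k, P θ (w ∘ θ.2.2 ∘ Sum.inl) * R θ (w ∘ θ.2.2 ∘ Sum.inr) := by
    intro x hx
    by_cases h0 : wt (e 0) x = 0
    · exact ⟨0, 0, by intro w; simp [h0]⟩
    by_cases hd : pderiv x f = 0
    · exact ⟨0, 0, by intro w; simp [hd]⟩
    have hx' : ¬ ∃ (s : Q.ι k) (σ : Equiv.Perm (Fin (k.val + 1))), x = ⟨k, s, e ∘ σ⟩ := hx
    obtain ⟨θ, P, R, hPR⟩ := split_term hf hμ1 k htr e he heμ a S v0 x h0 hd hx'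
    refine ⟨Pi.single θ ((wt (e 0) x : ℂ) • P), Pi.single θ R, ?_⟩
    intro w
    rw [hPR w, Finset.sum_eq_single θ]
    · rw [Pi.single_eq_same, Pi.single_eq_same, smul_apply, smul_eq_mul]
      ring
    · intro θ' _ hθ'
      rw [Pi.single_eq_of_ne hθ']
      simp
    · intro h; exact absurd (Finset.mem_univ _) h
  have hterm' : ∀ x : Vr Q A, ∃ (P : ∀ θ : Th k, Form V (θ.1.val + 1))
      (R : ∀ θ : Th k, Form V (θ.2.1.val + 1)), ∀ w : Fin (k.val + 1) → V,
      (if blk x then 0 else (wt (e 0) x : ℂ) * (S x.1 x.2.1 ((Function.extend e w v0) ∘ x.2.2) *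
          ev a S (Function.extend e w v0) (pderiv x f))) =
        ∑ θ : Th k, P θ (w ∘ θ.2.2 ∘ Sum.inl) * R θ (w ∘ θ.2.2 ∘ Sum.inr) := by
    intro x
    by_cases hx : blk x
    · exact ⟨0, 0, by intro w; simp [hx]⟩
    · obtain ⟨P, R, h⟩ := hterm x hx
      refine ⟨P, R, ?_⟩
      intro w
      rw [if_neg hx, h w]
  choose P R hPR using hterm'
  -- coefficients of the blocks
  let c : Q.ι k → Equiv.Perm (Fin (k.val + 1)) → ℂ := fun s σ =>
    ev a S v0 (pderiv ⟨k, s, e ∘ σ⟩ f)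
  -- main relation
  have hrel : ∀ w : Fin (k.val + 1) → V,
      (∑ s : Q.ι k, ∑ σ : Equiv.Perm (Fin (k.val + 1)), c s σ * S k s (w ∘ σ)) +
        ∑ x : Vr Q A, ∑ θ : Th k, P x θ (w ∘ θ.2.2 ∘ Sum.inl) * R x θ (w ∘ θ.2.2 ∘ Sum.inr) = 0 := by
    intro w
    have h0 := hvan (Function.extend e w v0)
    have hE := (hf (e 0)).sum_weight_X_mul_pderiv
    rw [heμ 0, one_smul] at hE
    rw [← hE, map_sum] at h0
    have h1 : ∀ x : Vr Q A, ev a S (Function.extend e w v0) (wt (e 0) x • (X x * pderiv x f)) =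
        (if blk x then (wt (e 0) x : ℂ) * (S x.1 x.2.1 ((Function.extend e w v0) ∘ x.2.2) *
          ev a S (Function.extend e w v0) (pderiv x f)) else 0) +
        ∑ θ : Th k, P x θ (w ∘ θ.2.2 ∘ Sum.inl) * R x θ (w ∘ θ.2.2 ∘ Sum.inr) := by
      intro x
      rw [← hPR x w, map_nsmul, map_mul, ev_X, nsmul_eq_mul]
      by_cases hx : blk x
      · simp [hx]
      · simp [hx]
    rw [Finset.sum_congr rfl (fun x _ => h1 x), Finset.sum_add_distrib] at h0
    rw [← h0]
    congr 1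
    rw [← Finset.sum_filter]
    have himg : (Finset.univ.filter (fun x : Vr Q A => blk x)) =
        Finset.univ.image (fun z : Q.ι k × Equiv.Perm (Fin (k.val + 1)) =>
          (⟨k, z.1, e ∘ z.2⟩ : Vr Q A)) := by
      ext x
      simp only [Finset.mem_filter, Finset.mem_univ, true_and, Finset.mem_image, Prod.exists, blk]
      constructor
      · rintro ⟨s, σ, h⟩; exact ⟨s, σ, h.symm⟩
      · rintro ⟨s, σ, h⟩; exact ⟨s, σ, h.symm⟩
    rw [himg, Finset.sum_image]
    · rw [Fintype.sum_prod_type]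
      apply Finset.sum_congr rfl
      intro s _
      apply Finset.sum_congr rfl
      intro σ _
      simp only [c]
      have hwtx : ∀ p, wt p (⟨k, s, e ∘ σ⟩ : Vr Q A) ≤ μ p := by
        intro p
        by_cases hp : ∃ q, (e ∘ σ) q = p
        · obtain ⟨q, rfl⟩ := hp
          rw [Function.comp_apply, heμ]
          unfold wt
          rw [Finset.card_le_one]
          intro r hr r' hr'
          simp only [Finset.mem_filter, Finset.mem_univ, true_and] at hr hr'
          exact (he.comp σ.injective) (hr.trans hr'.symm)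
        · rw [wt_eq_zero (fun q hq => hp ⟨q, hq⟩)]
          exact Nat.zero_le _
      have hw1 : ∀ q, wt (e q) (⟨k, s, e ∘ σ⟩ : Vr Q A) = 1 := by
        intro q
        have h1 := hwtx (e q)
        rw [heμ] at h1
        have h2 : 0 < wt (e q) (⟨k, s, e ∘ σ⟩ : Vr Q A) :=
          wt_pos_iff.mpr ⟨σ⁻¹ q, by simp⟩
        omega
      have hext : (Function.extend e w v0) ∘ (e ∘ σ) = w ∘ σ := by
        funext q
        simp [he.extend_apply]
      rw [hw1 0, hext]
      have hind : ev a S (Function.extend e w v0) (pderiv ⟨k, s, e ∘ σ⟩ f) =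
          ev a S v0 (pderiv ⟨k, s, e ∘ σ⟩ f) := by
        apply ev_indep (ML_pderiv hf _ (fun p => μ p - wt p (⟨k, s, e ∘ σ⟩ : Vr Q A))
          (fun r => Nat.sub_add_cancel (hwtx r)))
        intro p hp
        rw [Function.extend_apply']
        rintro ⟨q, rfl⟩
        apply hp
        rw [heμ, hw1]
      rw [hind]
      simp
      ring
    · rintro ⟨s, σ⟩ _ ⟨s', σ'⟩ _ h
      simp only [Sigma.mk.injEq, heq_eq_eq, Prod.mk.injEq, true_and] at h
      obtain ⟨h1, h2⟩ := h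
      subst h1
      congr 1
      ext q
      have := congrFun h2 q
      simp only [Function.comp] at this
      exact congrArg Fin.val (he this)
  -- group algebra elements
  set π := idem (k.val + 1) (Q.lab k s0) with hπ
  have hc0 : mkGA (c s0) * π ≠ 0 := by
    intro h
    apply hnz
    rw [ev_hh]
    have h1 := coeff_mul_one (mkGA (c s0)) π
    rw [h] at h1
    have h2 : ∀ ρ : Equiv.Perm (Fin (k.val + 1)), (mkGA (c s0)).coeff ρ⁻¹ =
        ev a S v0 (pderiv ⟨k, s0, e ∘ ⇑ρ⁻¹⟩ f) := fun ρ => coeff_mkGA _ _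
    simp only [h2] at h1
    rw [← h1]
    simp
  obtain ⟨b, hb⟩ := hL4 _ _ hc0
  set z := π * b with hz
  have habs : ∀ (s : Q.ι k) (x : GA (k.val + 1)),
      actF V (k.val + 1) (x * idem (k.val + 1) (Q.lab k s)) (fun w => S k s w) =
        actF V (k.val + 1) x (fun w => S k s w) := by
    intro s x
    rw [actF_mul]
    congr 1
    funext w
    rw [← act_eq_actF, hS k s]
  have hy : ∀ s : Q.ι k, ∃ y : ℂ, ∀ w,
      actF V (k.val + 1) (z * mkGA (c s)) (fun w => S k s w) w = y * S k s w := by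
    intro s
    have h1 : ∀ w, actF V (k.val + 1) (z * mkGA (c s)) (fun w => S k s w) w =
        actF V (k.val + 1) (z * mkGA (c s) * idem (k.val + 1) (Q.lab k s)) (fun w => S k s w) w := by
      intro w
      rw [habs s]
    have h2 : z * mkGA (c s) * idem (k.val + 1) (Q.lab k s) =
        idem (k.val + 1) (Q.lab k s0) * (b * mkGA (c s)) * idem (k.val + 1) (Q.lab k s) := by
      rw [hz, hπ]; simp only [mul_assoc]
    by_cases hl : Q.lab k s0 = Q.lab k s
    · obtain ⟨y, hy⟩ := hL2 (Q.lab k s) (b * mkGA (c s))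
      refine ⟨y, ?_⟩
      intro w
      rw [h1, h2, hl, hy, map_smul, LinearMap.smul_apply, Pi.smul_apply, smul_eq_mul,
        ← act_eq_actF, hS k s]
    · refine ⟨0, ?_⟩
      intro w
      rw [h1, h2, hL3 _ _ hl, map_zero]
      simp
  choose y hy using hy
  have hy0 : ∀ w, actF V (k.val + 1) (z * mkGA (c s0)) (fun w => S k s0 w) w = S k s0 w := by
    intro w
    have h1 : actF V (k.val + 1) (z * mkGA (c s0)) (fun w => S k s0 w) w =
        actF V (k.val + 1) (z * mkGA (c s0) * π) (fun w => S k s0 w) w := by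
      rw [hπ, habs s0]
    have h2 : z * mkGA (c s0) * π = π := by
      rw [hz, mul_assoc (π * b)]
      exact hb
    rw [h1, h2, ← act_eq_actF, hπ, hS k s0]
  -- the function R
  let Rr : (Fin (k.val + 1) → V) → ℂ := fun w =>
    ∑ x : Vr Q A, ∑ θ : Th k, P x θ (w ∘ θ.2.2 ∘ Sum.inl) * R x θ (w ∘ θ.2.2 ∘ Sum.inr)
  have hrel2 : ∀ w, (∑ s : Q.ι k, actF V (k.val + 1) (z * mkGA (c s)) (fun w => S k s w) w) =
      - actF V (k.val + 1) z Rr w := by
    intro w
    have h1 : ∀ w, (∑ s : Q.ι k, actF V (k.val + 1) (mkGA (c s)) (fun w => S k s w) w) = - Rr w := by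
      intro w
      have := hrel w
      rw [add_eq_zero_iff_eq_neg] at this
      rw [← this]
      apply Finset.sum_congr rfl
      intro s _
      rw [actF_apply]
      apply Finset.sum_congr rfl
      intro σ _
      rw [coeff_mkGA]
    have h2 : (∑ s : Q.ι k, actF V (k.val + 1) (mkGA (c s)) (fun w => S k s w)) = - Rr := by
      funext w
      rw [Finset.sum_apply, h1 w]; rfl
    have h3 := congrArg (fun F => actF V (k.val + 1) z F w) h2
    simp only [map_sum, map_neg, Finset.sum_apply, Pi.neg_apply] at h3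
    rw [← h3]
    apply Finset.sum_congr rfl
    intro s _
    rw [actF_mul]
  have hfin : ∀ w, S k s0 w = - actF V (k.val + 1) z Rr w -
      ∑ s : Q.ι k, if s = s0 then 0 else y s * S k s w := by
    intro w
    have h1 := hrel2 w
    rw [← Finset.add_sum_erase _ _ (Finset.mem_univ s0), hy0] at h1
    rw [← h1]
    have h2 : (∑ s : Q.ι k, if s = s0 then 0 else y s * S k s w) =
        ∑ s ∈ Finset.univ.erase s0, actF V (k.val + 1) (z * mkGA (c s)) (fun w => S k s w) w := by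
      rw [← Finset.add_sum_erase _ _ (Finset.mem_univ s0)]
      rw [if_pos rfl, zero_add]
      apply Finset.sum_congr rfl
      intro s hs
      rw [if_neg (Finset.ne_of_mem_erase hs), hy s w]
    rw [h2]
    ring
  refine ⟨fun θ i => (-(z.coeff i.1)) • P i.2 ⟨θ.1, θ.2.1, θ.2.2.trans i.1⁻¹⟩,
    fun θ i => R i.2 ⟨θ.1, θ.2.1, θ.2.2.trans i.1⁻¹⟩, y, ?_⟩
  intro w
  conv_lhs => rw [← hS k s0, act_eq_actF]
  rw [← hπ]
  refine congrFun (congrArg (actF V (k.val + 1) π) ?_) w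
  funext w
  rw [hfin w]
  congr 1
  rw [actF_apply, ← Finset.sum_neg_distrib]
  simp only [Fintype.sum_prod_type]
  rw [Finset.sum_comm]
  apply Finset.sum_congr rfl
  intro τ _
  rw [Finset.sum_comm]
  simp only [Rr]
  rw [Finset.mul_sum, ← Finset.sum_neg_distrib]
  apply Finset.sum_congr rfl
  intro x _
  rw [← sum_Th k τ (fun θ => P x θ ((w ∘ τ) ∘ θ.2.2 ∘ Sum.inl) * R x θ ((w ∘ τ) ∘ θ.2.2 ∘ Sum.inr))]
  rw [Finset.mul_sum, ← Finset.sum_neg_distrib]
  apply Finset.sum_congr rfl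
  intro θ _
  rw [smul_apply, smul_eq_mul]
  have e1 : (w ∘ τ) ∘ (θ.2.2.trans τ⁻¹) ∘ Sum.inl = w ∘ θ.2.2 ∘ Sum.inl := by
    funext r; simp
  have e2 : (w ∘ τ) ∘ (θ.2.2.trans τ⁻¹) ∘ Sum.inr = w ∘ θ.2.2 ∘ Sum.inr := by
    funext r; simp
  rw [e1, e2]
  ring

end

end Pool.Agent.Helper93
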