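import Pool.Agent.Helper93.Geo2

set_option autoImplicit false

namespace Pool.Agent.Helper93

open scoped BigOperators
open MvPolynomial

section
variable {N d : ℕ}

/-- index set of coefficients of tuples of forms of degree `d` -/
abbrev TT (N d : ℕ) : Type :=
  Fin N × {μ : Fin N →₀ ℕ // μ ∈ Finset.finsuppAntidiag (Finset.univ : Finset (Fin N)) d}

/-- the tuple of polynomials with given coefficients -/
noncomputable def mkB (c : TT N d → ℂ) : OF N := fun i =>
  ∑ μ : {μ : Fin N →₀ ℕ // μ ∈ Finset.finsuppAntidiag (Finset.univ : Finset (Fin N)) d},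
    c (i, μ) • monomial μ.1 1

theorem coeff_mkB (c : TT N d → ℂ) (i : Fin N)
    (μ : {μ : Fin N →₀ ℕ // μ ∈ Finset.finsuppAntidiag (Finset.univ : Finset (Fin N)) d}) :
    coeff μ.1 (mkB c i) = c (i, μ) := by
  classical
  unfold mkB
  rw [coeff_sum, Finset.sum_eq_single μ]
  · simp [coeff_smul]
  · intro ν _ hν
    rw [coeff_smul, coeff_monomial, if_neg, smul_zero]
    intro h
    exact hν (Subtype.ext h)
  · intro h; exact absurd (Finset.mem_univ _) h

theorem mkB_hom (c : TT N d → ℂ) (i : Fin N) : (mkB c i).IsHomogeneous d := by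
  unfold mkB
  apply IsHomogeneous.sum
  intro μ _
  rw [smul_eq_C_mul]
  apply IsHomogeneous.C_mul
  apply isHomogeneous_monomial
  have := (Finset.mem_finsuppAntidiag.mp μ.2).1
  rw [Finsupp.degree_eq_sum]
  exact this

theorem mkB_coeff {B : OF N} (hB : ∀ i, (B i).IsHomogeneous d) :
    mkB (fun t : TT N d => coeff t.2.1 (B t.1)) = B := by
  classical
  funext i
  unfold mkB
  conv_rhs => rw [hom_sum (hB i)]
  simp only
  exact Finset.sum_attach (Finset.finsuppAntidiag (Finset.univ : Finset (Fin N)) d)
    (fun μ => coeff μ (B i) • (monomial μ 1 : MvPolynomial (Fin N) ℂ))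

/-- the linear map whose injectivity detects coprimality -/
noncomputable def LL (A : OF N) : (TT N d → ℂ) →ₗ[ℂ] (Fin N × Fin N → MvPolynomial (Fin N) ℂ) where
  toFun c := fun z => A z.1 * mkB c z.2 - A z.2 * mkB c z.1
  map_add' := by
    intro c c'
    funext z
    have h : ∀ i, mkB (c + c') i = mkB c i + mkB c' i := by
      intro i
      unfold mkB
      simp only [Pi.add_apply, add_smul, Finset.sum_add_distrib]
    simp only [h, Pi.add_apply]
    ring
  map_smul' := by
    intro r c
    funext z
    have h : ∀ i, mkB (r • c) i = C r * mkB c i := by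
      intro i
      unfold mkB
      rw [Finset.mul_sum]
      apply Finset.sum_congr rfl
      intro μ _
      rw [Pi.smul_apply, smul_eq_mul, ← smul_eq_C_mul, mul_smul]
    simp only [h, Pi.smul_apply, RingHom.id_apply, smul_eq_C_mul]
    ring

theorem LL_apply (A : OF N) (c : TT N d → ℂ) (z : Fin N × Fin N) :
    LL A c z = A z.1 * mkB c z.2 - A z.2 * mkB c z.1 := rfl

theorem dvd_of_cop {A : OF N} (hc : Cop A) {a b : MvPolynomial (Fin N) ℂ}
    (h : ∀ j, a ∣ A j * b) : a ∣ b := by
  classical
  let _ : NormalizationMonoid (MvPolynomial (Fin N) ℂ) :=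
    (UniqueFactorizationMonoid.strongNormalizationMonoid).toNormalizationMonoid
  let _ : NormalizedGCDMonoid (MvPolynomial (Fin N) ℂ) :=
    UniqueFactorizationMonoid.toNormalizedGCDMonoid _
  have h1 : a ∣ Finset.univ.gcd (fun j => A j * b) := Finset.dvd_gcd (fun j _ => h j)
  have h2 := Finset.gcd_mul_right' (Finset.univ : Finset (Fin N)) A b
  have h3 : IsUnit (Finset.univ.gcd A) := hc _ (fun i => Finset.gcd_dvd (Finset.mem_univ i))
  have h4 : a ∣ Finset.univ.gcd A * b := h1.trans h2.dvd
  exact (h3.dvd_mul_left).mp h4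

theorem LL_inj_of_cop {A : OF N} (hA : ∀ i, (A i).IsHomogeneous (d + 1)) (hc : Cop A) :
    Function.Injective (LL (d := d) A) := by
  classical
  rw [injective_iff_map_eq_zero]
  intro c hc0
  have hrel : ∀ i j, A i * mkB c j = A j * mkB c i := by
    intro i j
    have := congrFun hc0 (i, j)
    rw [LL_apply] at this
    exact sub_eq_zero.mp this
  by_cases hN : ∀ j, A j = 0
  · -- then there are no variables
    rcases Nat.eq_zero_or_pos N with h0 | hpos
    · subst h0
      funext t
      exact t.1.elim0
    · exfalso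
      have h1 := hc (X ⟨0, hpos⟩) (fun i => by rw [hN i]; exact dvd_zero _)
      have h2 := h1.map (eval (0 : Fin N → ℂ))
      simp at h2
  push Not at hN
  obtain ⟨j0, hj0⟩ := hN
  have hB1 : ∀ i, A i ≠ 0 → mkB c i = 0 := by
    intro i hi
    have hdvd : A i ∣ mkB c i := by
      apply dvd_of_cop hc
      intro j
      exact ⟨mkB c j, by rw [hrel i j]⟩
    by_contra hne
    obtain ⟨q, hq⟩ := hdvd
    have hq0 : q ≠ 0 := by
      rintro rfl
      rw [mul_zero] at hq
      exact hne hq
    have h1 := totalDegree_mul_of_isDomain hi hq0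
    rw [← hq, (mkB_hom c i).totalDegree hne, (hA i).totalDegree hi] at h1
    omega
  have hB : ∀ i, mkB c i = 0 := by
    intro i
    by_cases hi : A i = 0
    · have h1 := hrel i j0
      rw [hi, zero_mul] at h1
      rcases mul_eq_zero.mp h1.symm with h2 | h2
      · exact absurd h2 hj0
      · exact h2
    · exact hB1 i hi
  funext t
  have h1 := coeff_mkB c t.1 t.2
  rw [hB t.1, coeff_zero] at h1
  exact h1.symm

theorem homComp_mul {a q : MvPolynomial (Fin N) ℂ} {k : ℕ} (ha : a.IsHomogeneous k) (t : ℕ) :
    homogeneousComponent (k + t) (a * q) = a * homogeneousComponent t q := by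
  classical
  conv_lhs => rw [← sum_homogeneousComponent q, Finset.mul_sum, map_sum]
  have h1 : ∀ s, homogeneousComponent (k + t) (a * homogeneousComponent s q) =
      if s = t then a * homogeneousComponent t q else 0 := by
    intro s
    rw [homogeneousComponent_of_mem (n := k + s)]
    · by_cases h : s = t
      · subst h; simp
      · rw [if_neg (by omega), if_neg h]
    · exact ha.mul (homogeneousComponent_isHomogeneous s q)
  simp only [h1]
  rw [Finset.sum_ite_eq']
  split_ifs with h
  · rfl
  · rw [homogeneousComponent_eq_zero, mul_zero]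
    simp only [Finset.mem_range, not_lt] at h
    omega

theorem cop_of_LL_inj (hN : 0 < N) {A : OF N} (hA : ∀ i, (A i).IsHomogeneous (d + 1))
    (hinj : Function.Injective (LL (d := d) A)) : Cop A := by
  classical
  rw [injective_iff_map_eq_zero] at hinj
  -- it suffices to exhibit a solution
  have key : ∀ B : OF N, (∀ i, (B i).IsHomogeneous d) → (∀ i j, A i * B j = A j * B i) →
      ∀ i, B i = 0 := by
    intro B hB hrel i
    have h1 := hinj (fun t : TT N d => coeff t.2.1 (B t.1)) (by
      funext z
      rw [LL_apply, mkB_coeff hB, hrel, sub_self]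
      rfl)
    have h2 := mkB_coeff hB
    rw [h1] at h2
    rw [← h2]
    unfold mkB
    simp
  intro p hp
  by_contra hpu
  choose q hq using hp
  have hrel : ∀ i j, A i * q j = A j * q i := by
    intro i j
    rw [hq i, hq j]; ring
  let x0 : Fin N := ⟨0, hN⟩
  by_cases hall : ∀ i, A i = 0
  · have h1 := key (fun _ => X x0 ^ d) (fun _ => isHomogeneous_X_pow x0 d) (by
      intro i j; rw [hall i, hall j]) x0
    exact (pow_ne_zero d (X_ne_zero x0)) h1
  push Not at hall
  obtain ⟨i0, hi0⟩ := hall
  have hq0 : q i0 ≠ 0 := by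
    intro h; apply hi0; rw [hq i0, h, mul_zero]
  have hp0 : p ≠ 0 := by
    rintro rfl; apply hi0; rw [hq i0, zero_mul]
  have hdp : 0 < p.totalDegree := by
    rw [Nat.pos_iff_ne_zero]
    intro h
    apply hpu
    rw [totalDegree_eq_zero_iff_eq_C] at h
    rw [h]
    apply IsUnit.map
    rw [isUnit_iff_ne_zero]
    intro h1
    rw [h1, map_zero] at h
    exact hp0 h
  have hdeg : (q i0).totalDegree ≤ d := by
    have h1 := totalDegree_mul_of_isDomain hp0 hq0
    rw [← hq i0, (hA i0).totalDegree hi0] at h1
    omega
  obtain ⟨t, ht⟩ : ∃ t, homogeneousComponent t (q i0) ≠ 0 := by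
    by_contra hcon
    push Not at hcon
    apply hq0
    rw [← sum_homogeneousComponent (q i0)]
    exact Finset.sum_eq_zero (fun i _ => hcon i)
  have htd : t ≤ d := by
    by_contra hcon
    apply ht
    apply homogeneousComponent_eq_zero
    omega
  have h2 := key (fun j => X x0 ^ (d - t) * homogeneousComponent t (q j)) (by
    intro j
    have := (isHomogeneous_X_pow (R := ℂ) x0 (d - t)).mul (homogeneousComponent_isHomogeneous t (q j))
    rwa [Nat.sub_add_cancel htd] at this) (by
    intro i j
    have h3 := congrArg (homogeneousComponent (d + 1 + t)) (hrel i j)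
    rw [homComp_mul (hA i), homComp_mul (hA j)] at h3
    calc A i * (X x0 ^ (d - t) * homogeneousComponent t (q j))
        = X x0 ^ (d - t) * (A i * homogeneousComponent t (q j)) := by ring
      _ = X x0 ^ (d - t) * (A j * homogeneousComponent t (q i)) := by rw [h3]
      _ = _ := by ring) i0
  exact (mul_ne_zero (pow_ne_zero _ (X_ne_zero x0)) ht) h2

/-- coprimality is an open condition -/
theorem cop_open (hN : 0 < N) {A : OF N} (hA : A ∈ HomS N d) (hc : Cop A) :
    ∃ f ∈ RE N, f A ≠ 0 ∧ ∀ B ∈ HomS N d, f B ≠ 0 → Cop B := by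
  classical
  have hinj := LL_inj_of_cop hA hc
  obtain ⟨g, hg⟩ := (LL (d := d) A).exists_leftInverse_of_injective (LinearMap.ker_eq_bot.mpr hinj)
  let M : OF N → Matrix (TT N d) (TT N d) ℂ := fun B => fun a b => g (LL B (Pi.single b 1)) a
  have hlin : ∀ a b, (fun B => M B a b) ∈ RH N d := by
    intro a b
    let ℓ : OF N →ₗ[ℂ] ℂ :=
      { toFun := fun B => g (LL B (Pi.single b 1)) a
        map_add' := by
          intro B B'
          have : LL (d := d) (B + B') (Pi.single b 1) = LL B (Pi.single b 1) + LL B' (Pi.single b 1) := by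
            funext z
            simp only [LL_apply, Pi.add_apply]
            ring
          rw [this, map_add, Pi.add_apply]
        map_smul' := by
          intro r B
          have : LL (d := d) (r • B) (Pi.single b 1) = r • LL B (Pi.single b 1) := by
            funext z
            simp only [LL_apply, Pi.smul_apply, smul_mul_assoc, smul_sub]
          rw [this, map_smul, Pi.smul_apply, RingHom.id_apply] }
    exact linear_RH ℓ
  have hdet : (fun B => (M B).det) ∈ RH N d := by
    have h1 : (fun B => (M B).det) = ∑ σ : Equiv.Perm (TT N d),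
        (algebraMap ℂ (OF N → ℂ) ((Equiv.Perm.sign σ : ℤ) : ℂ)) * ∏ i, (fun B => M B (σ i) i) := by
      funext B
      rw [Matrix.det_apply', Finset.sum_apply]
      apply Finset.sum_congr rfl
      intro σ _
      rw [Pi.mul_apply, Finset.prod_apply]
      rfl
    rw [h1]
    apply Subalgebra.sum_mem
    intro σ _
    apply Subalgebra.mul_mem _ (Subalgebra.algebraMap_mem _ _)
    exact Subalgebra.prod_mem _ (fun i _ => hlin (σ i) i)
  have hmul : ∀ (B : OF N) (c : TT N d → ℂ), (M B).mulVec c = g (LL B c) := by
    intro B c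
    funext a
    have h1 : c = ∑ b, c b • (Pi.single b 1 : TT N d → ℂ) := by
      funext b
      rw [Finset.sum_apply, Finset.sum_eq_single b]
      · simp
      · intro b' _ hb'
        simp [Ne.symm hb']
      · intro h; exact absurd (Finset.mem_univ _) h
    conv_rhs => rw [h1]
    rw [map_sum, map_sum, Finset.sum_apply]
    unfold Matrix.mulVec dotProduct
    apply Finset.sum_congr rfl
    intro b _
    rw [map_smul, map_smul, Pi.smul_apply, smul_eq_mul, mul_comm]
  obtain ⟨f, hf, hfd⟩ := hdet
  refine ⟨f, hf, ?_, ?_⟩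
  · rw [← hfd A hA]
    have h1 : M A = 1 := by
      ext a b
      have h2 := hmul A (Pi.single b 1)
      have h3 : g (LL A (Pi.single b 1)) = Pi.single b 1 := by
        have := LinearMap.congr_fun hg (Pi.single b (1 : ℂ))
        exact this
      rw [h3] at h2
      have h4 := congrFun h2 a
      rw [Matrix.mulVec_single_one] at h4
      rw [Matrix.one_apply]
      rw [Matrix.col_apply] at h4
      rw [h4, Pi.single_apply]
    show (M A).det ≠ 0
    rw [h1, Matrix.det_one]
    exact one_ne_zero
  · intro B hB hfB
    apply cop_of_LL_inj hN hB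
    rw [← hfd B hB] at hfB
    rw [injective_iff_map_eq_zero]
    intro c hc0
    have h1 := hmul B c
    rw [hc0, map_zero] at h1
    exact Matrix.eq_zero_of_mulVec_eq_zero hfB h1

end

end Pool.Agent.Helper93
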