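import Pool.Agent.Helper93.Sys

set_option autoImplicit false

namespace Pool.Agent.Helper93

open scoped BigOperators
open MvPolynomial

variable {D : ℕ}

/-! ### action of the group algebra on functions -/

section actF
variable {V : Type} {e : ℕ}

/-- permutation action on functions of `e` arguments -/
noncomputable def permHomF (V : Type) (e : ℕ) :
    Equiv.Perm (Fin e) →* Module.End ℂ ((Fin e → V) → ℂ) where
  toFun σ :=
    { toFun := fun H w => H (w ∘ σ)
      map_add' := by intro S T; rfl
      map_smul' := by intro c S; rfl }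
  map_one' := by ext S v; rfl
  map_mul' := by intro σ τ; ext S v; rfl

/-- group algebra action on functions of `e` arguments -/
noncomputable def actF (V : Type) (e : ℕ) : GA e →ₐ[ℂ] Module.End ℂ ((Fin e → V) → ℂ) :=
  MonoidAlgebra.lift ℂ (Module.End ℂ ((Fin e → V) → ℂ)) (Equiv.Perm (Fin e)) (permHomF V e)

theorem actF_apply (x : GA e) (H : (Fin e → V) → ℂ) (w : Fin e → V) :
    actF V e x H w = ∑ σ : Equiv.Perm (Fin e), x.coeff σ * H (w ∘ σ) := by
  classical
  unfold actF
  rw [MonoidAlgebra.lift_apply, Finsupp.sum_fintype]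
  · simp only [LinearMap.sum_apply, Finset.sum_apply, LinearMap.smul_apply, Pi.smul_apply,
      smul_eq_mul]
    rfl
  · intro i; simp

theorem actF_mul (x y : GA e) (H : (Fin e → V) → ℂ) :
    actF V e (x * y) H = actF V e x (actF V e y H) := by
  rw [map_mul]; rfl

theorem act_eq_actF [AddCommGroup V] [Module ℂ V] (x : GA e) (S : Form V e) (w : Fin e → V) :
    act V e x S w = actF V e x (fun w => S w) w := by
  rw [act_apply, actF_apply]

end actF

/-! ### truncation -/

section trunc
variable {Q : Dat D} {κ A : Type}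

/-- set to zero all symbols of degree index `≥ c` -/
noncomputable def trunc (c : ℕ) : Fm Q κ A →+* Fm Q κ A :=
  eval₂Hom (C.comp (RingHom.id _)) (fun x => if x.1.val < c then X x else 0)

open Classical in
/-- the corresponding operation on tuples -/
noncomputable def cut {V : Type} [AddCommGroup V] [Module ℂ V] (c : ℕ) (S : Tup Q V) : Tup Q V :=
  fun k s => if k.val < c then S k s else 0

theorem ev_trunc {V : Type} [AddCommGroup V] [Module ℂ V] (c : ℕ) (a : κ → ℂ) (S : Tup Q V)
    (v : A → V) (f : Fm Q κ A) : ev a S v (trunc c f) = ev a (cut c S) v f := by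
  have h : (ev a S v).comp (trunc c) = ev a (cut c S) v := by
    apply MvPolynomial.ringHom_ext
    · intro r
      rw [RingHom.comp_apply]
      unfold trunc
      rw [eval₂Hom_C, RingHom.comp_apply, ev_C, ev_C]
      rfl
    · intro x
      rw [RingHom.comp_apply, ev_X]
      unfold trunc
      rw [eval₂Hom_X']
      by_cases hx : x.1.val < c
      · simp [hx, cut]
      · simp [hx, cut]
  exact RingHom.congr_fun h f

theorem ML_trunc (c : ℕ) {f : Fm Q κ A} {m : A → ℕ} (hf : ML f m) : ML (trunc c f) m := by
  intro p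
  unfold trunc
  apply IsWH_subst _ _ _ (hf p)
  intro x
  by_cases hx : x.1.val < c
  · simp only [hx, if_true]
    exact isWeightedHomogeneous_X _ _ _
  · simp only [hx, if_false]
    exact isWeightedHomogeneous_zero _ _ _

theorem pderiv_trunc (c : ℕ) (f : Fm Q κ A) (x : Vr Q A) (hx : ¬ x.1.val < c) :
    pderiv x (trunc c f) = 0 := by
  classical
  induction f using MvPolynomial.induction_on with
  | C r =>
    unfold trunc
    rw [eval₂Hom_C, RingHom.comp_apply, pderiv_C]
  | add f g hf hg => rw [map_add, map_add, hf, hg, add_zero]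
  | mul_X f y hf =>
    rw [map_mul, Derivation.leibniz, hf, smul_zero, add_zero]
    have : pderiv x (trunc c (X y : Fm Q κ A)) = 0 := by
      unfold trunc
      rw [eval₂Hom_X']
      by_cases hy : y.1.val < c
      · simp only [hy, if_true]
        apply pderiv_X_of_ne
        rintro rfl
        exact hx hy
      · simp [hy]
    rw [this, smul_zero]

theorem trunc_top (f : Fm Q κ A) : trunc D f = f := by
  have h : (trunc D : Fm Q κ A →+* Fm Q κ A) = RingHom.id _ := by
    apply MvPolynomial.ringHom_ext
    · intro r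
      unfold trunc
      rw [eval₂Hom_C]; rfl
    · intro x
      unfold trunc
      rw [eval₂Hom_X']
      simp [x.1.2]
  rw [h]; rfl

theorem Cst_cut {V : Type} [AddCommGroup V] [Module ℂ V] (c : ℕ) {S : Tup Q V} (hS : Cst Q S) :
    Cst Q (cut c S) := by
  intro k s
  unfold cut
  by_cases hk : k.val < c
  · simp only [hk, if_true]; exact hS k s
  · simp only [hk, if_false, map_zero]

end trunc

/-! ### the derivative in the direction of one symbol -/

section hh
variable {Q : Dat D} {κ A : Type}

/-- the coefficient of the block `e` of `f`, projected with the idempotent of the symbol -/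
noncomputable def hh (k : Fin D) (s0 : Q.ι k) (e : Fin (k.val + 1) → A) (f : Fm Q κ A) :
    Fm Q κ A :=
  ∑ ρ : Equiv.Perm (Fin (k.val + 1)),
    C (C ((idem (k.val + 1) (Q.lab k s0)).coeff ρ)) * pderiv ⟨k, s0, e ∘ ⇑ρ⁻¹⟩ f

theorem ev_hh {V : Type} [AddCommGroup V] [Module ℂ V] (a : κ → ℂ) (S : Tup Q V) (v : A → V)
    (k : Fin D) (s0 : Q.ι k) (e : Fin (k.val + 1) → A) (f : Fm Q κ A) :
    ev a S v (hh k s0 e f) = ∑ ρ : Equiv.Perm (Fin (k.val + 1)),
      (idem (k.val + 1) (Q.lab k s0)).coeff ρ * ev a S v (pderiv ⟨k, s0, e ∘ ⇑ρ⁻¹⟩ f) := by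
  unfold hh
  rw [map_sum]
  apply Finset.sum_congr rfl
  intro ρ _
  rw [map_mul, ev_C, eval_C]

/-- nonvanishing somewhere on `V(I) × Q` -/
def NZ (I : Set (MvPolynomial κ ℂ)) (f : Fm Q κ A) : Prop :=
  ∃ (V : Type) (_ : AddCommGroup V) (_ : Module ℂ V) (p : Pt Q κ V) (v : A → V),
    (∀ g ∈ I, MvPolynomial.eval p.1 g = 0) ∧ Cst Q p.2 ∧ ev p.1 p.2 v f ≠ 0

theorem not_NZ {I : Set (MvPolynomial κ ℂ)} {f : Fm Q κ A} (h : ¬ NZ I f)
    {V : Type} [AddCommGroup V] [Module ℂ V] (p : Pt Q κ V) (v : A → V)
    (h1 : ∀ g ∈ I, MvPolynomial.eval p.1 g = 0) (h2 : Cst Q p.2) : ev p.1 p.2 v f = 0 := by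
  by_contra hne
  exact h ⟨V, _, _, p, v, h1, h2, hne⟩

/-- scale the symbols of degree index `k` by `t` -/
noncomputable def scl {V : Type} [AddCommGroup V] [Module ℂ V] (k : Fin D) (t : ℂ)
    (S : Tup Q V) : Tup Q V := by
  classical exact fun k' s => if k' = k then t • S k' s else S k' s

theorem Cst_scl {V : Type} [AddCommGroup V] [Module ℂ V] (k : Fin D) (t : ℂ) {S : Tup Q V}
    (hS : Cst Q S) : Cst Q (scl k t S) := by
  classical
  intro k' s
  unfold scl
  by_cases hk : k' = k
  · subst hk
    simp only [if_true, map_smul, hS k' s]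
  · simp only [hk, if_false]; exact hS k' s

theorem wt_comp_perm {k : ℕ} (e : Fin k → A) (ρ : Equiv.Perm (Fin k)) (p : A) : by
    classical exact
    (Finset.univ.filter (fun q => (e ∘ ρ) q = p)).card =
      (Finset.univ.filter (fun q => e q = p)).card := by
  classical
  apply Finset.card_bij (fun q _ => ρ q)
  · intro q hq
    simpa using hq
  · intro q _ q' _ h
    exact ρ.injective h
  · intro q hq
    refine ⟨ρ⁻¹ q, ?_, ?_⟩
    · simpa using hq
    · simp

theorem exists_hh [Fintype A] (I : Set (MvPolynomial κ ℂ)) (f : Fm Q κ A) (k : Fin D)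
    (hne : ¬ ∀ (V : Type) [AddCommGroup V] [Module ℂ V] (p : Pt Q κ V) (v : A → V),
      (∀ g ∈ I, MvPolynomial.eval p.1 g = 0) → Cst Q p.2 →
      ev p.1 p.2 v (trunc (k.val + 1) f) = ev p.1 p.2 v (trunc k.val f)) :
    ∃ (s0 : Q.ι k) (e : Fin (k.val + 1) → A), NZ I (hh k s0 e (trunc (k.val + 1) f)) := by
  classical
  by_contra hcon
  push Not at hcon
  apply hne
  intro V _ _ p v h1 h2
  set f' := trunc (k.val + 1) f with hf'
  obtain ⟨a, S⟩ := p
  simp only at h1 h2 ⊢
  -- the one-parameter polynomial
  let gx : Vr Q A → Polynomial ℂ := fun x =>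
    if x.1 = k then Polynomial.C (S x.1 x.2.1 (v ∘ x.2.2)) * Polynomial.X
    else Polynomial.C (S x.1 x.2.1 (v ∘ x.2.2))
  let Φ : Fm Q κ A →+* Polynomial ℂ := eval₂Hom (Polynomial.C.comp (MvPolynomial.eval a)) gx
  have hΦeval : ∀ (t : ℂ) (g : Fm Q κ A), (Φ g).eval t = ev a (scl k t S) v g := by
    intro t g
    have h : (Polynomial.evalRingHom t).comp Φ = ev a (scl k t S) v := by
      apply MvPolynomial.ringHom_ext
      · intro r
        simp only [RingHom.comp_apply, Φ, eval₂Hom_C, ev_C]
        simp
      · intro x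
        simp only [RingHom.comp_apply, Φ, eval₂Hom_X', ev_X, gx]
        by_cases hx : x.1 = k
        · rw [if_pos hx]
          simp only [Polynomial.coe_evalRingHom, Polynomial.eval_mul, Polynomial.eval_C,
            Polynomial.eval_X]
          unfold scl
          rw [if_pos hx]
          rw [smul_apply, smul_eq_mul, mul_comm]
        · rw [if_neg hx]
          simp only [Polynomial.coe_evalRingHom, Polynomial.eval_C]
          unfold scl
          rw [if_neg hx]
    exact RingHom.congr_fun h g
  have hder : ∀ g : Fm Q κ A, Polynomial.derivative (Φ g) =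
      ∑ x, Φ (pderiv x g) * Polynomial.derivative (gx x) := by
    intro g
    induction g using MvPolynomial.induction_on with
    | C r =>
      simp only [Φ, eval₂Hom_C, RingHom.comp_apply, Polynomial.derivative_C, pderiv_C, map_zero,
        zero_mul, Finset.sum_const_zero]
    | add g g' hg hg' =>
      simp only [map_add, hg, hg', add_mul, Finset.sum_add_distrib]
    | mul_X g y hg =>
      have hX : Φ (X y) = gx y := by simp [Φ]
      rw [map_mul, Polynomial.derivative_mul, hg, hX]
      have : ∀ x, Φ (pderiv x (g * X y)) * Polynomial.derivative (gx x) =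
          Φ (pderiv x g) * Polynomial.derivative (gx x) * gx y +
          (if x = y then Φ g * Polynomial.derivative (gx y) else 0) := by
        intro x
        rw [Derivation.leibniz]
        simp only [smul_eq_mul, map_add, map_mul, hX]
        by_cases hxy : x = y
        · subst hxy
          simp only [pderiv_X_self, map_one, if_true]
          ring
        · rw [pderiv_X_of_ne (Ne.symm hxy), map_zero, if_neg hxy]
          ring
      rw [Finset.sum_congr rfl (fun x _ => this x), Finset.sum_add_distrib, Finset.sum_mul]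
      simp
  have hzero : Polynomial.derivative (Φ f') = 0 := by
    apply Polynomial.funext
    intro t
    rw [hder, Polynomial.eval_finsetSum]
    simp only [Polynomial.eval_mul, hΦeval, Polynomial.eval_zero]
    rw [Fintype.sum_sigma]
    rw [Finset.sum_eq_single k]
    · rw [Fintype.sum_prod_type]
      apply Finset.sum_eq_zero
      intro s _
      have hgx : ∀ e : Fin (k.val + 1) → A,
          Polynomial.eval t (Polynomial.derivative (gx ⟨k, s, e⟩)) = S k s (v ∘ e) := by
        intro e; simp [gx]
      simp only [hgx]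
      have hS : ∀ e : Fin (k.val + 1) → A, S k s (v ∘ e) =
          ∑ ρ : Equiv.Perm (Fin (k.val + 1)),
            (idem (k.val + 1) (Q.lab k s)).coeff ρ * S k s ((v ∘ e) ∘ ρ) := by
        intro e
        conv_lhs => rw [← h2 k s]
        rw [act_apply]
      have step : ∀ e : Fin (k.val + 1) → A,
          ev a (scl k t S) v (pderiv ⟨k, s, e⟩ f') * S k s (v ∘ e) =
          ∑ ρ : Equiv.Perm (Fin (k.val + 1)),
            (idem (k.val + 1) (Q.lab k s)).coeff ρ *
              (ev a (scl k t S) v (pderiv ⟨k, s, e⟩ f') * S k s ((v ∘ e) ∘ ρ)) := by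
        intro e
        rw [hS e, Finset.mul_sum]
        apply Finset.sum_congr rfl
        intro ρ _
        ring
      rw [Finset.sum_congr rfl (fun e _ => step e), Finset.sum_comm]
      have step2 : ∀ ρ : Equiv.Perm (Fin (k.val + 1)),
          ∑ e : Fin (k.val + 1) → A, (idem (k.val + 1) (Q.lab k s)).coeff ρ *
              (ev a (scl k t S) v (pderiv ⟨k, s, e⟩ f') * S k s ((v ∘ e) ∘ ρ)) =
          ∑ e : Fin (k.val + 1) → A, (idem (k.val + 1) (Q.lab k s)).coeff ρ *
              (ev a (scl k t S) v (pderiv ⟨k, s, e ∘ ⇑ρ⁻¹⟩ f') * S k s (v ∘ e)) := by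
        intro ρ
        refine Fintype.sum_equiv (Equiv.arrowCongr ρ⁻¹ (Equiv.refl A)) _ _ ?_
        intro e
        have h3 : (Equiv.arrowCongr ρ⁻¹ (Equiv.refl A)) e = e ∘ ρ := by
          funext q
          show e (ρ⁻¹.symm q) = e (ρ q)
          rfl
        rw [h3]
        have h4 : (e ∘ ⇑ρ) ∘ ⇑ρ⁻¹ = e := by
          funext q; simp
        rw [h4]
        rfl
      rw [Finset.sum_congr rfl (fun ρ _ => step2 ρ), Finset.sum_comm]
      apply Finset.sum_eq_zero
      intro e _
      have h5 := not_NZ (hcon s e) (a, scl k t S) v h1 (Cst_scl k t h2)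
      rw [ev_hh] at h5
      calc ∑ ρ : Equiv.Perm (Fin (k.val + 1)), (idem (k.val + 1) (Q.lab k s)).coeff ρ *
              (ev a (scl k t S) v (pderiv ⟨k, s, e ∘ ⇑ρ⁻¹⟩ f') * S k s (v ∘ e))
          = (∑ ρ : Equiv.Perm (Fin (k.val + 1)), (idem (k.val + 1) (Q.lab k s)).coeff ρ *
              ev a (scl k t S) v (pderiv ⟨k, s, e ∘ ⇑ρ⁻¹⟩ f')) * S k s (v ∘ e) := by
            rw [Finset.sum_mul]
            apply Finset.sum_congr rfl
            intro ρ _; ring
        _ = 0 := by rw [h5, zero_mul]
    · intro k' _ hk'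
      apply Finset.sum_eq_zero
      intro x _
      have : Polynomial.derivative (gx ⟨k', x⟩) = 0 := by
        simp [gx, hk']
      rw [this]; simp
    · intro h; exact absurd (Finset.mem_univ _) h
  have hconst := Polynomial.derivative_eq_zero.mp hzero
  have h10 : (Φ f').eval 1 = (Φ f').eval 0 := by
    rw [Polynomial.eq_C_of_natDegree_eq_zero hconst]; simp
  rw [hΦeval, hΦeval] at h10
  have hs1 : scl k 1 S = S := by
    funext k' s; simp [scl]
  rw [hs1] at h10
  rw [h10, hf', ev_trunc, ev_trunc]
  congr 1
  have : cut (k.val + 1) (scl k 0 S) = cut k.val S := by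
    funext k' s
    unfold cut scl
    by_cases h : k' = k
    · subst h; simp
    · have : (k'.val < k.val + 1) ↔ k'.val < k.val := by
        constructor
        · intro h'
          have : k'.val ≠ k.val := fun hh => h (Fin.ext hh)
          omega
        · intro h'; omega
      simp [h, this]
  rw [this]

end hh

end Pool.Agent.Helper93
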