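import Pool.Agent.Helper93.Rep

set_option autoImplicit false

namespace Pool.Agent.Helper93

open scoped BigOperators
open MvPolynomial

/-- Multilinear forms of degree `e` on `V`. -/
abbrev Form (V : Type) [AddCommGroup V] [Module ℂ V] (e : ℕ) : Type :=
  MultilinearMap ℂ (fun _ : Fin e => V) ℂ

section action
variable {V : Type} [AddCommGroup V] [Module ℂ V] {e : ℕ}

/-- The symmetric group acts on multilinear forms by permuting the arguments. -/
noncomputable def permHom (V : Type) [AddCommGroup V] [Module ℂ V] (e : ℕ) :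
    Equiv.Perm (Fin e) →* Module.End ℂ (Form V e) where
  toFun σ :=
    { toFun := fun S => S.domDomCongr σ
      map_add' := by intro S T; ext v; rfl
      map_smul' := by intro c S; ext v; rfl }
  map_one' := by ext S v; rfl
  map_mul' := by intro σ τ; ext S v; rfl

/-- The action of the group algebra on multilinear forms. -/
noncomputable def act (V : Type) [AddCommGroup V] [Module ℂ V] (e : ℕ) :
    GA e →ₐ[ℂ] Module.End ℂ (Form V e) :=
  MonoidAlgebra.lift ℂ (Module.End ℂ (Form V e)) (Equiv.Perm (Fin e)) (permHom V e)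

theorem act_apply (x : GA e) (S : Form V e) (v : Fin e → V) :
    act V e x S v = ∑ σ : Equiv.Perm (Fin e), x.coeff σ * S (v ∘ σ) := by
  classical
  unfold act
  rw [MonoidAlgebra.lift_apply]
  rw [Finsupp.sum_fintype]
  · simp only [LinearMap.sum_apply, sum_apply, LinearMap.smul_apply,
      smul_apply, smul_eq_mul]
    rfl
  · intro i; simp

theorem act_mul (x y : GA e) (S : Form V e) : act V e (x * y) S = act V e x (act V e y S) := by
  rw [map_mul]; rfl

theorem act_one (S : Form V e) : act V e 1 S = S := by
  rw [map_one]; rfl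

end action

/-- Data: for each degree `k+1`, `k < D`, a finite set of symbols with labels. -/
structure Dat (D : ℕ) where
  ι : Fin D → Type
  fin : ∀ k, Fintype (ι k)
  lab : ∀ k, ι k → ℕ

attribute [instance] Dat.fin

variable {D : ℕ}

/-- variables of the formal polynomial ring with argument slots in `A`. -/
abbrev Vr (Q : Dat D) (A : Type) : Type := Σ k : Fin D, Q.ι k × (Fin (k.val + 1) → A)

noncomputable instance (Q : Dat D) (A : Type) [Fintype A] : Fintype (Vr Q A) := by
  classical
  infer_instance

/-- formal polynomials -/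
abbrev Fm (Q : Dat D) (κ A : Type) : Type := MvPolynomial (Vr Q A) (MvPolynomial κ ℂ)

/-- tuples of forms -/
abbrev Tup (Q : Dat D) (V : Type) [AddCommGroup V] [Module ℂ V] : Type :=
  ∀ k : Fin D, Q.ι k → Form V (k.val + 1)

/-- weight of a variable at a slot -/
noncomputable def wt {Q : Dat D} {A : Type} (p : A) (x : Vr Q A) : ℕ := by
  classical
  exact (Finset.univ.filter (fun q => x.2.2 q = p)).card

/-- multi-homogeneous formal polynomials -/
def ML {Q : Dat D} {κ A : Type} (f : Fm Q κ A) (m : A → ℕ) : Prop :=
  ∀ p, IsWeightedHomogeneous (wt p) f (m p)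

section ev
variable {Q : Dat D} {κ A : Type} {V : Type} [AddCommGroup V] [Module ℂ V]

/-- evaluation -/
noncomputable def ev (a : κ → ℂ) (S : Tup Q V) (v : A → V) : Fm Q κ A →+* ℂ :=
  eval₂Hom (MvPolynomial.eval a) (fun x => S x.1 x.2.1 (v ∘ x.2.2))

@[simp] theorem ev_X (a : κ → ℂ) (S : Tup Q V) (v : A → V) (x : Vr Q A) :
    ev a S v (X x) = S x.1 x.2.1 (v ∘ x.2.2) := by
  simp [ev]

@[simp] theorem ev_C (a : κ → ℂ) (S : Tup Q V) (v : A → V) (c : MvPolynomial κ ℂ) :
    ev a S v (C c) = MvPolynomial.eval a c := by
  simp [ev]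

theorem wt_pos_iff {p : A} {x : Vr Q A} : 0 < wt p x ↔ ∃ q, x.2.2 q = p := by
  classical
  unfold wt
  rw [Finset.card_pos]
  constructor
  · rintro ⟨q, hq⟩; exact ⟨q, (Finset.mem_filter.mp hq).2⟩
  · rintro ⟨q, hq⟩; exact ⟨q, Finset.mem_filter.mpr ⟨Finset.mem_univ _, hq⟩⟩

theorem wt_self_pos (x : Vr Q A) (q) : 0 < wt (x.2.2 q) x := wt_pos_iff.mpr ⟨q, rfl⟩

theorem le_weight_of_mem {σ R : Type} [CommSemiring R] {w : σ → ℕ} {f : MvPolynomial σ R} {n : ℕ}
    (h : IsWeightedHomogeneous w f n) {x : σ} (hx : x ∈ f.vars) : w x ≤ n := by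
  classical
  rw [mem_vars_iff_mem_support] at hx
  obtain ⟨d, hd, hxd⟩ := hx
  have h1 := h (mem_support_iff.mp hd)
  rw [← h1, Finsupp.weight_apply]
  have : (d x) • w x ≤ d.sum fun i c => c • w i := by
    rw [Finsupp.sum]
    exact Finset.single_le_sum (f := fun i => d i • w i) (fun i _ => Nat.zero_le _) hxd
  refine le_trans ?_ this
  have h2 : 1 ≤ d x := Nat.one_le_iff_ne_zero.mpr (Finsupp.mem_support_iff.mp hxd)
  calc w x = 1 • w x := (one_smul _ _).symm
    _ ≤ d x • w x := Nat.mul_le_mul_right _ h2

theorem pderiv_eq_zero_of_lt {σ R : Type} [CommSemiring R] {w : σ → ℕ} {f : MvPolynomial σ R}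
    {n : ℕ} (h : IsWeightedHomogeneous w f n) {x : σ} (hx : n < w x) : pderiv x f = 0 := by
  apply pderiv_eq_zero_of_notMem_vars
  intro hmem
  exact absurd (le_weight_of_mem h hmem) (by omega)

theorem ev_indep {f : Fm Q κ A} {m : A → ℕ} (hf : ML f m) (a : κ → ℂ) (S : Tup Q V)
    {v v' : A → V} (hv : ∀ p, m p ≠ 0 → v p = v' p) : ev a S v f = ev a S v' f := by
  unfold ev
  apply eval₂Hom_congr' rfl _ rfl
  intro x hx _
  congr 1
  funext q
  apply hv
  have h1 := le_weight_of_mem (hf (x.2.2 q)) hx
  have h2 := wt_self_pos x q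
  omega

theorem ML_pderiv {f : Fm Q κ A} {m : A → ℕ} (hf : ML f m) (x : Vr Q A) (m' : A → ℕ)
    (hm : ∀ p, m' p + wt p x = m p) : ML (pderiv x f) m' := by
  intro p
  exact (hf p).pderiv (hm p)

theorem ev_linear [Fintype A] [DecidableEq A] {f : Fm Q κ A} {m : A → ℕ} (hf : ML f m)
    (a : κ → ℂ) (S : Tup Q V) (v : A → V) (p : A) (hp : m p = 1) :
    ∃ L : V →ₗ[ℂ] ℂ, ∀ z, ev a S (Function.update v p z) f = L z := by
  classical
  have hE := (hf p).sum_weight_X_mul_pderiv
  rw [hp, one_smul] at hE
  have key : ∀ x : Vr Q A, ∃ L : V →ₗ[ℂ] ℂ, ∀ z,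
      ev a S (Function.update v p z) (wt p x • (X x * pderiv x f)) = L z := by
    intro x
    rcases Nat.lt_or_ge (wt p x) 2 with hlt | hge
    · rcases Nat.eq_zero_or_pos (wt p x) with h0 | hpos
      · exact ⟨0, by intro z; simp [h0]⟩
      · have h1 : wt p x = 1 := by omega
        -- unique slot
        have hcard := h1
        unfold wt at hcard
        rw [Finset.card_eq_one] at hcard
        obtain ⟨q0, hq0⟩ := hcard
        have hmem : ∀ q, x.2.2 q = p ↔ q = q0 := by
          intro q
          have := Finset.ext_iff.mp hq0 q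
          simpa only [Finset.mem_filter, Finset.mem_univ, true_and, Finset.mem_singleton] using this
        have hq0' : x.2.2 q0 = p := (hmem q0).mpr rfl
        have huniq : ∀ q, x.2.2 q = p → q = q0 := fun q => (hmem q).mp
        have hupd : ∀ z, (Function.update v p z) ∘ x.2.2 = Function.update (v ∘ x.2.2) q0 z := by
          intro z
          funext q
          by_cases hq : q = q0
          · subst hq; simp [hq0']
          · have : x.2.2 q ≠ p := fun h => hq (huniq q h)
            simp [Function.update_of_ne hq, Function.update_of_ne this]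
        by_cases hder : pderiv x f = 0
        · exact ⟨0, by intro z; simp [hder]⟩
        have hle : ∀ r, wt r x ≤ m r := by
          intro r
          by_contra hcon
          exact hder (pderiv_eq_zero_of_lt (hf r) (by omega))
        have hML' : ML (pderiv x f) (fun r => m r - wt r x) :=
          ML_pderiv hf x _ (fun r => Nat.sub_add_cancel (hle r))
        refine ⟨(ev a S v (pderiv x f)) • ((S x.1 x.2.1).toLinearMap (v ∘ x.2.2) q0), ?_⟩
        intro z
        rw [h1, one_smul, map_mul, ev_X, hupd]
        have hind : ev a S (Function.update v p z) (pderiv x f) = ev a S v (pderiv x f) := by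
          apply ev_indep hML'
          intro r hr
          have : r ≠ p := by
            rintro rfl
            apply hr
            omega
          rw [Function.update_of_ne this]
        rw [hind]
        simp [MultilinearMap.toLinearMap, mul_comm]
    · refine ⟨0, ?_⟩
      intro z
      rw [pderiv_eq_zero_of_lt (hf p) (by omega)]
      simp
  choose L hL using key
  refine ⟨∑ x, L x, ?_⟩
  intro z
  conv_lhs => rw [← hE]
  rw [map_sum, LinearMap.sum_apply]
  exact Finset.sum_congr rfl (fun x _ => hL x z)

omit [AddCommGroup V] [Module ℂ V] in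
theorem extend_update [DecidableEq A] {m : ℕ} (inst : DecidableEq (Fin m)) {g : Fin m → A}
    (hg : Function.Injective g) (w : Fin m → V) (v0 : A → V) (q : Fin m) (z : V) :
    Function.extend g (@Function.update (Fin m) (fun _ => V) inst w q z) v0 =
      Function.update (Function.extend g w v0) (g q) z := by
  funext r
  by_cases hr : ∃ q', g q' = r
  · obtain ⟨q', rfl⟩ := hr
    rw [hg.extend_apply]
    by_cases h : q' = q
    · subst h; simp
    · have h' : g q' ≠ g q := fun hh => h (hg hh)
      rw [Function.update_of_ne h, Function.update_of_ne h', hg.extend_apply]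
  · have : r ≠ g q := fun h => hr ⟨q, h.symm⟩
    rw [Function.extend_apply' _ _ _ hr, Function.update_of_ne this,
      Function.extend_apply' _ _ _ hr]

/-- The multilinear form obtained from a formal polynomial of weight one on the slots `g q`. -/
noncomputable def mkForm [Fintype A] {f : Fm Q κ A} {μ : A → ℕ} (hf : ML f μ)
    (a : κ → ℂ) (S : Tup Q V) {m : ℕ} (g : Fin m → A) (hg : Function.Injective g)
    (hμ : ∀ q, μ (g q) = 1) (v0 : A → V) : Form V m := by
  classical
  exact
  { toFun := fun w => ev a S (Function.extend g w v0) f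
    map_update_add' := by
      intro inst w q x y
      obtain ⟨L, hL⟩ := ev_linear hf a S (Function.extend g w v0) (g q) (hμ q)
      have e1 : ∀ z, Function.extend g (@Function.update (Fin m) (fun _ => V) inst w q z) v0 =
        Function.update (Function.extend g w v0) (g q) z :=
          fun z => extend_update inst hg w v0 q z
      simp only [e1, hL, map_add]
    map_update_smul' := by
      intro inst w q c x
      obtain ⟨L, hL⟩ := ev_linear hf a S (Function.extend g w v0) (g q) (hμ q)
      have e1 : ∀ z, Function.extend g (@Function.update (Fin m) (fun _ => V) inst w q z) v0 =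
        Function.update (Function.extend g w v0) (g q) z :=
          fun z => extend_update inst hg w v0 q z
      simp only [e1, hL, map_smul] }

theorem mkForm_apply [Fintype A] {f : Fm Q κ A} {μ : A → ℕ} (hf : ML f μ)
    (a : κ → ℂ) (S : Tup Q V) {m : ℕ} (g : Fin m → A) (hg : Function.Injective g)
    (hμ : ∀ q, μ (g q) = 1) (v0 : A → V) (w : Fin m → V) :
    mkForm hf a S g hg hμ v0 w = ev a S (Function.extend g w v0) f := rfl

end ev

end Pool.Agent.Helper93
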