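import Pool.Agent.Helper93.Polar

set_option autoImplicit false

namespace Pool.Agent.Helper93

open scoped BigOperators
open MvPolynomial

/-- the data for one-forms with coefficients of degree `d+1` -/
noncomputable def Q0 (d : ℕ) : Dat (d + 2) where
  ι k := {_x : Fin (nT (k.val + 1)) // k = Fin.last (d + 1)}
  fin k := by classical infer_instance
  lab k s := labT (k.val + 1) s.1

section
variable {d : ℕ} {V : Type} [AddCommGroup V] [Module ℂ V] {κ A : Type}

/-- the form assembled from its labelled pieces -/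
noncomputable def beta (S : Tup (Q0 d) V) : Form V (d + 2) :=
  ∑ τ : Fin (nT (d + 2)), act V (d + 2) (XT (d + 2) τ) (S (Fin.last (d + 1)) ⟨τ, rfl⟩)

/-- formal version of `beta` -/
noncomputable def bF (d : ℕ) (κ : Type) {A : Type} (I : Fin (d + 2) → A) : Fm (Q0 d) κ A :=
  ∑ τ : Fin (nT (d + 2)), ∑ σ : Equiv.Perm (Fin (d + 2)),
    C (C ((XT (d + 2) τ).coeff σ)) * X (⟨Fin.last (d + 1), ⟨τ, rfl⟩, I ∘ σ⟩ : Vr (Q0 d) A)

theorem ev_bF (I : Fin (d + 2) → A) (a : κ → ℂ) (S : Tup (Q0 d) V) (v : A → V) :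
    ev a S v (bF d κ I) = beta S (v ∘ I) := by
  unfold bF beta
  rw [map_sum, sum_apply]
  apply Finset.sum_congr rfl
  intro τ _
  rw [map_sum, act_apply]
  apply Finset.sum_congr rfl
  intro σ _
  rw [map_mul, ev_C, ev_X, eval_C]
  rfl

theorem WH_bF (I : Fin (d + 2) → A) (p : A) :
    IsWeightedHomogeneous (wt p) (bF d κ I) (slotc I p) := by
  classical
  unfold bF
  apply IsWeightedHomogeneous.sum
  intro τ _
  apply IsWeightedHomogeneous.sum
  intro σ _
  have h1 : IsWeightedHomogeneous (wt p) (C (C ((XT (d + 2) τ).coeff σ)) :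
    Fm (Q0 d) κ A) 0 := isWeightedHomogeneous_C _ _
  have h2 := isWeightedHomogeneous_X (MvPolynomial κ ℂ) (wt p)
      (⟨Fin.last (d + 1), ⟨τ, rfl⟩, I ∘ σ⟩ : Vr (Q0 d) A)
  have h3 : wt p (⟨Fin.last (d + 1), ⟨τ, rfl⟩, I ∘ σ⟩ : Vr (Q0 d) A) = slotc I p := by
    unfold wt slotc
    exact wt_comp_perm I σ p
  rw [h3] at h2
  have := h1.mul h2
  rwa [zero_add] at this

theorem beta_surj (β : Form V (d + 2)) : ∃ S : Tup (Q0 d) V, Cst (Q0 d) S ∧ beta S = β := by
  let S : Tup (Q0 d) V := fun k s => by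
    obtain ⟨τ, h⟩ := s
    subst h
    exact act V (d + 2) (YT (d + 2) τ) β
  refine ⟨S, ?_, ?_⟩
  · rintro k ⟨τ, h⟩
    subst h
    show act V (d + 2) (idem (d + 2) (labT (d + 2) τ)) (act V (d + 2) (YT (d + 2) τ) β) =
      act V (d + 2) (YT (d + 2) τ) β
    rw [← act_mul, (labels_spec (d + 2)).2.2.2.2.2]
  · unfold beta
    have h1 : ∀ τ, S (Fin.last (d + 1)) ⟨τ, rfl⟩ = act V (d + 2) (YT (d + 2) τ) β := fun τ => rfl
    simp only [h1]
    have h2 : ∀ τ, act V (d + 2) (XT (d + 2) τ) (act V (d + 2) (YT (d + 2) τ) β) =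
        act V (d + 2) (XT (d + 2) τ * YT (d + 2) τ) β := fun τ => (act_mul _ _ _).symm
    simp only [h2]
    have h3 := (labels_spec (d + 2)).2.2.2.2.1
    calc ∑ τ, act V (d + 2) (XT (d + 2) τ * YT (d + 2) τ) β
        = act V (d + 2) (∑ τ, XT (d + 2) τ * YT (d + 2) τ) β := by
          rw [map_sum, LinearMap.sum_apply]
      _ = β := by rw [h3, act_one]

end

/-! ### placing slots -/

theorem exists_place {X : Type} [Fintype X] (K : ℕ) (g : Fin 3 → X) (hg : Function.Injective g)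
    (hc : Fintype.card X = 3 + K) : ∃ e : X ≃ Fin 3 ⊕ Fin K, ∀ i, e (g i) = Sum.inl i := by
  classical
  have h1 : Fintype.card {x // ¬ x ∈ Set.range g} = K := by
    rw [Fintype.card_subtype_compl, hc]
    have : Fintype.card {x // x ∈ Set.range g} = 3 := by
      rw [Fintype.card_congr (Equiv.ofInjective g hg).symm, Fintype.card_fin]
    rw [this]; omega
  let e2 : {x // ¬ x ∈ Set.range g} ≃ Fin K := Fintype.equivFinOfCardEq h1
  let e1 : {x // x ∈ Set.range g} ≃ Fin 3 := (Equiv.ofInjective g hg).symm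
  let e : X ≃ Fin 3 ⊕ Fin K :=
    (Equiv.sumCompl (fun x => x ∈ Set.range g)).symm.trans (Equiv.sumCongr e1 e2)
  refine ⟨e, ?_⟩
  intro i
  simp only [e, Equiv.trans_apply]
  rw [Equiv.sumCompl_symm_apply_of_pos (p := fun x => x ∈ Set.range g) (a := g i) ⟨i, rfl⟩]
  simp only [Equiv.sumCongr_apply, Sum.map_inl, e1]
  congr 1
  exact Equiv.ofInjective_symm_apply hg i

theorem exists_pl (d : ℕ) (l : Fin (d + 1)) : ∃ e : Fin (d + 2) ⊕ Fin (d + 2) ≃
    Fin 3 ⊕ Fin (2 * d + 1), e (Sum.inl 0) = Sum.inl 0 ∧ e (Sum.inr l.succ) = Sum.inl 1 ∧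
      e (Sum.inr 0) = Sum.inl 2 := by
  obtain ⟨e, he⟩ := exists_place (X := Fin (d + 2) ⊕ Fin (d + 2)) (2 * d + 1)
    ![Sum.inl 0, Sum.inr l.succ, Sum.inr 0] (by
      intro i j
      have h0 : l.succ ≠ 0 := Fin.succ_ne_zero l
      have h0' : (0 : Fin (d + 2)) ≠ l.succ := Ne.symm h0
      fin_cases i <;> fin_cases j <;> simp [h0, h0']) (by
      rw [Fintype.card_sum, Fintype.card_fin]; omega)
  exact ⟨e, he 0, he 1, he 2⟩

/-- the placement of slots -/
noncomputable def pl (d : ℕ) (l : Fin (d + 1)) : Fin (d + 2) ⊕ Fin (d + 2) ≃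
    Fin 3 ⊕ Fin (2 * d + 1) := (exists_pl d l).choose

theorem pl_spec (d : ℕ) (l : Fin (d + 1)) : pl d l (Sum.inl 0) = Sum.inl 0 ∧
    pl d l (Sum.inr l.succ) = Sum.inl 1 ∧ pl d l (Sum.inr 0) = Sum.inl 2 :=
  (exists_pl d l).choose_spec

theorem pl_inl {V : Type} {d : ℕ} (l : Fin (d + 1)) (u : Fin 3 → V) (x : V) (s : Equiv.Perm (Fin 3)) :
    (Sum.elim u (fun _ => x) : Fin 3 ⊕ Fin (2 * d + 1) → V) ∘ (Sum.map s id ∘ pl d l ∘ Sum.inl) =
      (Fin.cons (u (s 0)) (fun _ => x) : Fin (d + 2) → V) := by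
  obtain ⟨h1, h2, h3⟩ := pl_spec d l
  funext q
  simp only [Function.comp]
  rcases h : pl d l (Sum.inl q) with r | r
  · have hq : q = 0 ∧ r = 0 := by
      fin_cases r
      · have h4 : pl d l (Sum.inl q) = pl d l (Sum.inl 0) := h.trans h1.symm
        exact ⟨Sum.inl_injective ((pl d l).injective h4), rfl⟩
      · have h4 : pl d l (Sum.inl q) = pl d l (Sum.inr l.succ) := h.trans h2.symm
        exact absurd ((pl d l).injective h4) (by simp)
      · have h4 : pl d l (Sum.inl q) = pl d l (Sum.inr 0) := h.trans h3.symm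
        exact absurd ((pl d l).injective h4) (by simp)
    obtain ⟨rfl, rfl⟩ := hq
    simp
  · have hq : q ≠ 0 := by
      rintro rfl
      rw [h1] at h
      cases h
    obtain ⟨q', rfl⟩ := Fin.exists_succ_eq.mpr hq
    simp

theorem pl_inr {V : Type} {d : ℕ} (l : Fin (d + 1)) (u : Fin 3 → V) (x : V) (s : Equiv.Perm (Fin 3)) :
    (Sum.elim u (fun _ => x) : Fin 3 ⊕ Fin (2 * d + 1) → V) ∘ (Sum.map s id ∘ pl d l ∘ Sum.inr) =
      (Fin.cons (u (s 2)) (Function.update (fun _ => x) l (u (s 1))) : Fin (d + 2) → V) := by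
  obtain ⟨h1, h2, h3⟩ := pl_spec d l
  funext q
  simp only [Function.comp]
  refine Fin.cases ?_ ?_ q
  · rw [h3]; simp
  · intro q'
    by_cases hq : q' = l
    · subst hq
      rw [h2]; simp
    · rcases h : pl d l (Sum.inr q'.succ) with r | r
      · exfalso
        fin_cases r
        · have h4 : pl d l (Sum.inr q'.succ) = pl d l (Sum.inl 0) := h.trans h1.symm
          exact absurd ((pl d l).injective h4) (by simp)
        · have h4 : pl d l (Sum.inr q'.succ) = pl d l (Sum.inr l.succ) := h.trans h2.symm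
          have h5 := Sum.inr_injective ((pl d l).injective h4)
          exact hq (Fin.succ_injective _ h5)
        · have h4 : pl d l (Sum.inr q'.succ) = pl d l (Sum.inr 0) := h.trans h3.symm
          have h5 := Sum.inr_injective ((pl d l).injective h4)
          exact Fin.succ_ne_zero _ h5
      · simp [Function.update_of_ne hq]

/-! ### the two identities -/

/-- signs -/
def sgz (z : Fin 3 × Bool) : ℂ := if z.2 then 1 else -1

/-- permutations of three letters -/
def pfz (z : Fin 3 × Bool) : Equiv.Perm (Fin 3) :=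
  if z.2 then Equiv.addLeft z.1 else Equiv.subLeft z.1

/-- integrability, before symmetrisation -/
noncomputable def fint0 (d : ℕ) (κ : Type) : Fm (Q0 d) κ (Fin 3 ⊕ Fin (2 * d + 1)) :=
  ∑ z : Fin 3 × Bool, ∑ l : Fin (d + 1), C (C (sgz z)) *
    (bF d κ (Sum.map (pfz z) id ∘ pl d l ∘ Sum.inl) * bF d κ (Sum.map (pfz z) id ∘ pl d l ∘ Sum.inr))

/-- the radial condition, before symmetrisation -/
noncomputable def frad0 (d : ℕ) (κ : Type) : Fm (Q0 d) κ (Empty ⊕ Fin (d + 2)) :=
  bF d κ Sum.inr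

theorem ML_frad0 (d : ℕ) (κ : Type) : ML (frad0 d κ) (fun _ => 1) := by
  intro p
  rcases p with p | p
  · exact p.elim
  · refine WH_of_eq (WH_bF (κ := κ) (Sum.inr : Fin (d + 2) → Empty ⊕ Fin (d + 2)) (Sum.inr p)) ?_
    apply slotc_one p
    intro q
    constructor
    · intro h; exact Sum.inr_injective h
    · rintro rfl; rfl

theorem slotc_bij {Y : Type} {n m : ℕ} (e : Fin n ⊕ Fin m → Y)
    (he : Function.Bijective e) (p : Y) :
    slotc (e ∘ Sum.inl) p + slotc (e ∘ Sum.inr) p = 1 := by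
  obtain ⟨r, hr⟩ := he.2 p
  rcases r with r | r
  · have h1 : slotc (e ∘ Sum.inl) p = 1 := by
      apply slotc_one r
      intro q
      constructor
      · intro h; exact Sum.inl_injective (he.1 (h.trans hr.symm))
      · rintro rfl; exact hr
    have h2 : slotc (e ∘ Sum.inr) p = 0 := by
      apply slotc_zero
      intro q h
      have := he.1 (h.trans hr.symm)
      cases this
    rw [h1, h2]
  · have h1 : slotc (e ∘ Sum.inr) p = 1 := by
      apply slotc_one r
      intro q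
      constructor
      · intro h; exact Sum.inr_injective (he.1 (h.trans hr.symm))
      · rintro rfl; exact hr
    have h2 : slotc (e ∘ Sum.inl) p = 0 := by
      apply slotc_zero
      intro q h
      have := he.1 (h.trans hr.symm)
      cases this
    rw [h1, h2]

theorem ML_fint0 (d : ℕ) (κ : Type) : ML (fint0 d κ) (fun _ => 1) := by
  intro p
  unfold fint0
  apply IsWeightedHomogeneous.sum
  intro z _
  apply IsWeightedHomogeneous.sum
  intro l _
  have h1 : IsWeightedHomogeneous (wt p) (C (C (sgz z)) :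
    Fm (Q0 d) κ (Fin 3 ⊕ Fin (2 * d + 1))) 0 := isWeightedHomogeneous_C _ _
  have h2 := (WH_bF (κ := κ) (Sum.map (pfz z) id ∘ pl d l ∘ Sum.inl :
    Fin (d + 2) → Fin 3 ⊕ Fin (2 * d + 1)) p).mul
    (WH_bF (κ := κ) (Sum.map (pfz z) id ∘ pl d l ∘ Sum.inr :
    Fin (d + 2) → Fin 3 ⊕ Fin (2 * d + 1)) p)
  have h3 := h1.mul h2
  refine WH_of_eq h3 ?_
  rw [zero_add]
  exact slotc_bij (Sum.map (pfz z) id ∘ pl d l)
    (((pfz z).sumCongr (Equiv.refl _)).bijective.comp (pl d l).bijective) p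

/-- the integrability expression -/
noncomputable def GG {N : ℕ} (A : Fin N → MvPolynomial (Fin N) ℂ) (i j k : Fin N) :
    MvPolynomial (Fin N) ℂ :=
  A i * (pderiv j (A k) - pderiv k (A j)) + A j * (pderiv k (A i) - pderiv i (A k)) +
    A k * (pderiv i (A j) - pderiv j (A i))

section
variable {d N : ℕ} {κ : Type}

theorem ev_fint0 (a : κ → ℂ) (S : Tup (Q0 d) (Fin N → ℂ)) (w : Fin 3 → Fin N) (x : Fin N → ℂ) :
    ev a S (Sum.elim (fun r => bv (w r)) (fun _ => x)) (fint0 d κ) =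
      eval x (GG (psi (beta S)) (w 0) (w 1) (w 2)) := by
  unfold fint0
  have h1 : ∀ z : Fin 3 × Bool, ev a S (Sum.elim (fun r => bv (w r)) (fun _ => x))
      (∑ l : Fin (d + 1), C (C (sgz z)) *
    (bF d κ (Sum.map (pfz z) id ∘ pl d l ∘ Sum.inl) * bF d κ (Sum.map (pfz z) id ∘ pl d l ∘ Sum.inr))) =
      sgz z * (eval x (psi (beta S) (w (pfz z 0))) *
        eval x (pderiv (w (pfz z 1)) (psi (beta S) (w (pfz z 2))))) := by
    intro z
    rw [map_sum, eval_pderiv_psi, Finset.mul_sum, Finset.mul_sum]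
    apply Finset.sum_congr rfl
    intro l _
    rw [map_mul, map_mul, ev_C, eval_C, ev_bF, ev_bF, eval_psi]
    have e1 := pl_inl l (fun r => bv (w r)) x (pfz z)
    have e2 := pl_inr l (fun r => bv (w r)) x (pfz z)
    rw [e1, e2]
  rw [map_sum, Finset.sum_congr rfl (fun z _ => h1 z)]
  rw [Fintype.sum_prod_type]
  simp only [Fin.sum_univ_three, Fintype.sum_bool, sgz, pfz, if_true, Bool.false_eq_true, if_false,
    Equiv.coe_addLeft, Equiv.subLeft_apply]
  unfold GG
  simp only [map_add, map_sub, map_mul]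
  have c1 : (0 : Fin 3) + 0 = 0 := rfl
  have c2 : (0 : Fin 3) + 1 = 1 := rfl
  have c3 : (0 : Fin 3) + 2 = 2 := rfl
  have c4 : (0 : Fin 3) - 0 = 0 := rfl
  have c5 : (0 : Fin 3) - 1 = 2 := rfl
  have c6 : (0 : Fin 3) - 2 = 1 := rfl
  have c7 : (1 : Fin 3) + 0 = 1 := rfl
  have c8 : (1 : Fin 3) + 1 = 2 := rfl
  have c9 : (1 : Fin 3) + 2 = 0 := rfl
  have c10 : (1 : Fin 3) - 0 = 1 := rfl
  have c11 : (1 : Fin 3) - 1 = 0 := rfl
  have c12 : (1 : Fin 3) - 2 = 2 := rfl
  have c13 : (2 : Fin 3) + 0 = 2 := rfl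
  have c14 : (2 : Fin 3) + 1 = 0 := rfl
  have c15 : (2 : Fin 3) + 2 = 1 := rfl
  have c16 : (2 : Fin 3) - 0 = 2 := rfl
  have c17 : (2 : Fin 3) - 1 = 1 := rfl
  have c18 : (2 : Fin 3) - 2 = 0 := rfl
  simp only [c1, c2, c3, c4, c5, c6, c7, c8, c9, c10, c11, c12, c13, c14, c15, c16, c17, c18]
  ring

theorem ev_frad0 (a : κ → ℂ) (S : Tup (Q0 d) (Fin N → ℂ)) (w : Empty → Fin N) (x : Fin N → ℂ) :
    ev a S (Sum.elim (fun r => bv (w r)) (fun _ => x)) (frad0 d κ) =
      eval x (∑ i, X i * psi (beta S) i) := by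
  unfold frad0
  rw [ev_bF]
  have h1 : (Sum.elim (fun r => bv (w r)) (fun _ => x) : Empty ⊕ Fin (d + 2) → Fin N → ℂ) ∘ Sum.inr =
      (Fin.cons x (fun _ => x) : Fin (d + 2) → Fin N → ℂ) := by
    funext q
    refine Fin.cases ?_ ?_ q
    · simp
    · intro q'; simp
  rw [h1, map_sum]
  have h2 : (beta S) (Fin.cons x (fun _ => x)) = (beta S).curryLeft x (fun _ => x) := rfl
  have h3 : (beta S).curryLeft x = ∑ j, x j • (beta S).curryLeft (bv j) := by
    conv_lhs => rw [sum_bv x]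
    rw [map_sum]
    simp only [map_smul]
  rw [h2, h3, sum_apply]
  apply Finset.sum_congr rfl
  intro i _
  rw [map_mul, eval_X, eval_psi, smul_apply, smul_eq_mul]
  rfl

/-- the family of identities -/
noncomputable def FF (d : ℕ) : Set (Idn (Q0 d) Empty) :=
  {mkIdn (symF (frad0 d Empty)) (ML_symF (ML_frad0 d Empty)),
    mkIdn (symF (fint0 d Empty)) (ML_symF (ML_fint0 d Empty))}

theorem mem_XSd (a : Empty → ℂ) (S : Tup (Q0 d) (Fin N → ℂ)) :
    (a, S) ∈ XS (Q0 d) Empty ∅ (FF d) (Fin N → ℂ) ↔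
      Cst (Q0 d) S ∧ (∑ i, X i * psi (beta S) i) = 0 ∧
        ∀ i j k, GG (psi (beta S)) i j k = 0 := by
  unfold XS FF
  simp only [Set.mem_ofPred_eq, Set.mem_insert_iff, Set.mem_singleton_iff, forall_eq_or_imp,
    forall_eq, Set.mem_empty_iff_false, false_imp_iff, implies_true, true_and]
  rw [mkIdn_iff, mkIdn_iff, symF_iff a S (ML_frad0 d Empty), symF_iff a S (ML_fint0 d Empty)]
  refine and_congr Iff.rfl (and_congr ?_ ?_)
  · constructor
    · intro h
      apply MvPolynomial.funext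
      intro x
      rw [← ev_frad0 a S (fun e => e.elim) x, h, map_zero]
    · intro h w x
      rw [ev_frad0, h, map_zero]
  · constructor
    · intro h i j k
      apply MvPolynomial.funext
      intro x
      have := h ![i, j, k] x
      rw [ev_fint0] at this
      rw [map_zero]
      exact this
    · intro h w x
      rw [ev_fint0, h, map_zero]

end

end Pool.Agent.Helper93
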