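import Pool.Agent.Helper93.Geo

set_option autoImplicit false

namespace Pool.Agent.Helper93

open scoped BigOperators
open MvPolynomial

/-- polynomial one-forms in `N` variables -/
abbrev OF (N : ℕ) : Type := Fin N → MvPolynomial (Fin N) ℂ

/-- coefficient functions -/
noncomputable def RE (N : ℕ) : Subalgebra ℂ (OF N → ℂ) :=
  Algebra.adjoin ℂ {f | ∃ (i : Fin N) (μ : Fin N →₀ ℕ), f = fun A => (A i).coeff μ}

/-- homogeneous of degree `d+1` -/
def HomS (N d : ℕ) : Set (OF N) := {A | ∀ i, (A i).IsHomogeneous (d + 1)}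

/-- homogeneous, radial, integrable -/
def IntS (N d : ℕ) : Set (OF N) :=
  {A | (∀ i, (A i).IsHomogeneous (d + 1)) ∧ (∑ i, X i * A i) = 0 ∧ ∀ i j k, GG A i j k = 0}

/-- coprime coefficients -/
def Cop {N : ℕ} (A : OF N) : Prop := ∀ p, (∀ i, p ∣ A i) → IsUnit p

/-- the cone over the space of foliations -/
def FolS (N d : ℕ) : Set (OF N) := {A | A ∈ IntS N d ∧ Cop A}

section
variable {N d : ℕ}

/-- ordering of a monomial -/
theorem exists_order (k : ℕ) : ∀ μ : Fin N →₀ ℕ, μ.degree = k →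
    ∃ J : Fin k → Fin N, ∑ q, Finsupp.single (J q) 1 = μ := by
  induction k with
  | zero =>
    intro μ hμ
    refine ⟨fun q => q.elim0, ?_⟩
    rw [Finset.univ_eq_empty, Finset.sum_empty]
    exact ((Finsupp.degree_eq_zero_iff μ).mp hμ).symm
  | succ k ih =>
    intro μ hμ
    have hne : μ ≠ 0 := by
      rintro rfl
      simp at hμ
    obtain ⟨i, hi⟩ := Finsupp.ne_iff.mp hne
    have hle : Finsupp.single i 1 ≤ μ := by
      rw [Finsupp.single_le_iff]
      exact Nat.one_le_iff_ne_zero.mpr hi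
    have h1 : Finsupp.single i 1 + (μ - Finsupp.single i 1) = μ := add_tsub_cancel_of_le hle
    have h2 : (μ - Finsupp.single i 1).degree = k := by
      have := congrArg Finsupp.degree h1
      rw [map_add, Finsupp.degree_single] at this
      omega
    obtain ⟨J, hJ⟩ := ih _ h2
    refine ⟨Fin.cons i J, ?_⟩
    rw [Fin.sum_univ_succ]
    simp only [Fin.cons_zero, Fin.cons_succ]
    rw [hJ, h1]

theorem exists_form {m : ℕ} (c : (Fin m → Fin N) → ℂ) :
    ∃ M : Form (Fin N → ℂ) m, ∀ K, M (fun q => bv (K q)) = c K := by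
  classical
  refine ⟨∑ K : Fin m → Fin N, c K • (MultilinearMap.mkPiAlgebra ℂ (Fin m) ℂ).compLinearMap
    (fun q => LinearMap.proj (K q)), ?_⟩
  intro K
  rw [sum_apply, Finset.sum_eq_single K]
  · rw [smul_apply, MultilinearMap.compLinearMap_apply, MultilinearMap.mkPiAlgebra_apply]
    simp [bv]
  · intro K' _ hK'
    rw [smul_apply, MultilinearMap.compLinearMap_apply, MultilinearMap.mkPiAlgebra_apply]
    obtain ⟨q, hq⟩ := Function.ne_iff.mp hK'
    rw [Finset.prod_eq_zero (Finset.mem_univ q), smul_zero]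
    simp [bv, hq]
  · intro h; exact absurd (Finset.mem_univ _) h

theorem prodX (m : ℕ) (J : Fin m → Fin N) : (∏ q, X (J q) : MvPolynomial (Fin N) ℂ) =
    monomial (∑ q, Finsupp.single (J q) 1) 1 := by
  rw [monomial_sum_one]
  rfl

open Classical in
theorem coeff_psi (β : Form (Fin N → ℂ) (d + 2)) (i : Fin N) (μ : Fin N →₀ ℕ) :
    coeff μ (psi β i) = ∑ J : Fin (d + 1) → Fin N,
      if (∑ q, Finsupp.single (J q) 1 : Fin N →₀ ℕ) = μ then
        β (Fin.cons (bv i) (fun q => bv (J q))) else 0 := by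
  unfold psi
  rw [coeff_sum]
  apply Finset.sum_congr rfl
  intro J _
  rw [coeff_C_mul, prodX, coeff_monomial]
  split_ifs <;> simp

theorem degree_sum_single (m : ℕ) (J : Fin m → Fin N) :
    (∑ q, Finsupp.single (J q) 1 : Fin N →₀ ℕ).degree = m := by
  rw [map_sum]
  simp

theorem psi_hom (β : Form (Fin N → ℂ) (d + 2)) (i : Fin N) :
    (psi β i).IsHomogeneous (d + 1) := by
  unfold psi
  apply IsHomogeneous.sum
  intro J _
  apply IsHomogeneous.C_mul
  rw [prodX]
  exact isHomogeneous_monomial _ (degree_sum_single _ J)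

theorem psi_surj (A : OF N) (hA : ∀ i, (A i).IsHomogeneous (d + 1)) :
    ∃ β : Form (Fin N → ℂ) (d + 2), psi β = A := by
  classical
  let mu : (Fin (d + 1) → Fin N) → (Fin N →₀ ℕ) := fun J => ∑ q, Finsupp.single (J q) 1
  let cntm : (Fin N →₀ ℕ) → ℕ := fun μ => (Finset.univ.filter (fun J => mu J = μ)).card
  obtain ⟨β, hβ⟩ := exists_form (m := d + 2) (fun K : Fin (d + 2) → Fin N =>
    coeff (mu (Fin.tail K)) (A (K 0)) / (cntm (mu (Fin.tail K)) : ℂ))
  refine ⟨β, ?_⟩
  funext i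
  ext μ
  rw [coeff_psi]
  have h1 : ∀ J : Fin (d + 1) → Fin N, β (Fin.cons (bv i) (fun q => bv (J q))) =
      coeff (mu J) (A i) / (cntm (mu J) : ℂ) := by
    intro J
    have h2 : (Fin.cons (bv i) (fun q => bv (J q)) : Fin (d + 2) → Fin N → ℂ) =
        fun q => bv ((Fin.cons i J : Fin (d + 2) → Fin N) q) := by
      funext q
      refine Fin.cases ?_ ?_ q
      · simp
      · intro q'; simp
    rw [h2, hβ]
    simp
  simp only [h1]
  rw [← Finset.sum_filter]
  have h3 : ∀ J ∈ Finset.univ.filter (fun J : Fin (d + 1) → Fin N =>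
      (∑ q, Finsupp.single (J q) 1 : Fin N →₀ ℕ) = μ),
      coeff (mu J) (A i) / (cntm (mu J) : ℂ) = coeff μ (A i) / (cntm μ : ℂ) := by
    intro J hJ
    have h4 : mu J = μ := (Finset.mem_filter.mp hJ).2
    rw [h4]
  rw [Finset.sum_congr rfl h3, Finset.sum_const, nsmul_eq_mul]
  have h5 : (Finset.univ.filter (fun J : Fin (d + 1) → Fin N =>
      (∑ q, Finsupp.single (J q) 1 : Fin N →₀ ℕ) = μ)).card = cntm μ := rfl
  rw [h5]
  by_cases h0 : cntm μ = 0
  · have hdeg : μ.degree ≠ d + 1 := by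
      intro hdeg
      obtain ⟨J, hJ⟩ := exists_order (d + 1) μ hdeg
      have h6 : J ∈ Finset.univ.filter (fun J => mu J = μ) :=
        Finset.mem_filter.mpr ⟨Finset.mem_univ _, hJ⟩
      exact (Finset.card_ne_zero_of_mem h6) h0
    rw [(hA i).coeff_eq_zero hdeg, h0]
    simp
  · have : (cntm μ : ℂ) ≠ 0 := Nat.cast_ne_zero.mpr h0
    field_simp

theorem psi_reg {κ : Type} {f : OF N → ℂ} (hf : f ∈ RE N) :
    (fun p : Pt (Q0 d) κ (Fin N → ℂ) => f (psi (beta p.2))) ∈ Reg (Q0 d) κ (Fin N → ℂ) := by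
  classical
  unfold RE at hf
  induction hf using Algebra.adjoin_induction with
  | mem f hf =>
    obtain ⟨i, μ, rfl⟩ := hf
    simp only [coeff_psi]
    have h1 : ∀ J : Fin (d + 1) → Fin N, (fun p : Pt (Q0 d) κ (Fin N → ℂ) =>
        if (∑ q, Finsupp.single (J q) 1 : Fin N →₀ ℕ) = μ then
        (beta p.2) (Fin.cons (bv i) (fun q => bv (J q))) else 0) ∈ Reg (Q0 d) κ (Fin N → ℂ) := by
      intro J
      split_ifs
      · have h2 := ev_mem_Reg (Q := Q0 d) (κ := κ)
          (Fin.cons (bv i) (fun q => bv (J q)) : Fin (d + 2) → Fin N → ℂ) (bF d κ id)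
        simp only [ev_bF, Function.comp_id] at h2
        exact h2
      · exact (Reg (Q0 d) κ (Fin N → ℂ)).zero_mem
    have h3 := (Reg (Q0 d) κ (Fin N → ℂ)).sum_mem (fun J (_ : J ∈ Finset.univ) => h1 J)
    convert h3 using 1
    funext p
    rw [Finset.sum_apply]
  | algebraMap c => exact (Reg (Q0 d) κ (Fin N → ℂ)).algebraMap_mem c
  | add f g _ _ hf hg => exact (Reg (Q0 d) κ (Fin N → ℂ)).add_mem hf hg
  | mul f g _ _ hf hg => exact (Reg (Q0 d) κ (Fin N → ℂ)).mul_mem hf hg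

/-- the integrable forms are a union of boundedly many preirreducible sets -/
theorem int_bound (d : ℕ) : ∃ J : ℕ, ∀ N : ℕ, ∃ Z : Fin J → Set (OF N),
    (∀ j, PreIrr (RE N : Set (OF N → ℂ)) (Z j)) ∧ IntS N d = ⋃ j, Z j := by
  obtain ⟨J, hJ⟩ := bdd_XS (Q0 d) Empty ∅ (FF d)
  refine ⟨J, ?_⟩
  intro N
  obtain ⟨Z, hZ1, hZ2⟩ := hJ (Fin N → ℂ)
  simp only at hZ2
  refine ⟨fun j => (fun p : Pt (Q0 d) Empty (Fin N → ℂ) => psi (beta p.2)) '' Z j, ?_, ?_⟩
  · intro j f hf g hg hfg
    rcases hZ1 j _ (psi_reg hf) _ (psi_reg hg)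
      (fun p hp => hfg _ (Set.mem_image_of_mem _ hp)) with h | h
    · left; rintro _ ⟨p, hp, rfl⟩; exact h p hp
    · right; rintro _ ⟨p, hp, rfl⟩; exact h p hp
  · rw [← Set.image_iUnion, ← hZ2]
    ext A
    constructor
    · rintro ⟨h1, h2, h3⟩
      obtain ⟨β, hβ⟩ := psi_surj A h1
      obtain ⟨S, hS1, hS2⟩ := beta_surj β
      refine ⟨(fun e => e.elim, S), ?_, ?_⟩
      · rw [mem_XSd, hS2, hβ]
        exact ⟨hS1, h2, h3⟩
      · show psi (beta S) = A
        rw [hS2, hβ]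
    · rintro ⟨⟨a, S⟩, hp, rfl⟩
      rw [mem_XSd] at hp
      exact ⟨fun i => psi_hom _ i, hp.2.1, hp.2.2⟩

/-! ### linear functionals -/

theorem hom_sum {k : ℕ} {p : MvPolynomial (Fin N) ℂ} (hp : p.IsHomogeneous k) :
    p = ∑ μ ∈ Finset.finsuppAntidiag (Finset.univ : Finset (Fin N)) k, coeff μ p • monomial μ 1 := by
  classical
  ext ν
  rw [coeff_sum]
  simp only [coeff_smul, coeff_monomial, smul_eq_mul, mul_ite, mul_one, mul_zero]
  by_cases h : ν.degree = k
  · rw [Finset.sum_eq_single ν]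
    · simp
    · intro μ _ hμ; rw [if_neg hμ]
    · intro hν
      exfalso
      apply hν
      rw [Finset.mem_finsuppAntidiag]
      refine ⟨?_, Finset.subset_univ _⟩
      rw [← h, Finsupp.degree_eq_sum]
  · rw [hp.coeff_eq_zero h]
    symm
    apply Finset.sum_eq_zero
    intro μ hμ
    split_ifs with h1
    · subst h1
      exact hp.coeff_eq_zero h
    · rfl

/-- functions agreeing with a regular one on homogeneous forms -/
noncomputable def RH (N d : ℕ) : Subalgebra ℂ (OF N → ℂ) where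
  carrier := {f | ∃ g ∈ RE N, ∀ A ∈ HomS N d, f A = g A}
  mul_mem' := by
    rintro f f' ⟨g, hg, h⟩ ⟨g', hg', h'⟩
    exact ⟨g * g', (RE N).mul_mem hg hg', fun A hA => by
      simp only [Pi.mul_apply, h A hA, h' A hA]⟩
  add_mem' := by
    rintro f f' ⟨g, hg, h⟩ ⟨g', hg', h'⟩
    exact ⟨g + g', (RE N).add_mem hg hg', fun A hA => by
      simp only [Pi.add_apply, h A hA, h' A hA]⟩
  algebraMap_mem' := by
    intro c
    exact ⟨_, (RE N).algebraMap_mem c, fun A _ => rfl⟩

theorem RE_le_RH {f : OF N → ℂ} (hf : f ∈ RE N) : f ∈ RH N d := ⟨f, hf, fun _ _ => rfl⟩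

theorem linear_RH (ℓ : OF N →ₗ[ℂ] ℂ) : (fun A => ℓ A) ∈ RH N d := by
  classical
  refine ⟨fun A => ∑ i, ∑ μ ∈ Finset.finsuppAntidiag (Finset.univ : Finset (Fin N)) (d + 1),
    coeff μ (A i) * ℓ (Pi.single i (monomial μ 1)), ?_, ?_⟩
  · have h1 : ∀ i μ, (fun A : OF N => coeff μ (A i) * ℓ (Pi.single i (monomial μ 1))) ∈ RE N := by
      intro i μ
      have h2 : (fun A : OF N => coeff μ (A i)) ∈ RE N := Algebra.subset_adjoin ⟨i, μ, rfl⟩
      have h3 := (RE N).smul_mem h2 (ℓ (Pi.single i (monomial μ 1)))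
      convert h3 using 1
      funext A
      simp [mul_comm]
    have h4 := (RE N).sum_mem (fun i (_ : i ∈ Finset.univ) => (RE N).sum_mem
      (fun μ (_ : μ ∈ Finset.finsuppAntidiag (Finset.univ : Finset (Fin N)) (d + 1)) => h1 i μ))
    convert h4 using 1
    funext A
    simp
  · intro A hA
    have h1 : A = ∑ i, ∑ μ ∈ Finset.finsuppAntidiag (Finset.univ : Finset (Fin N)) (d + 1),
        coeff μ (A i) • (Pi.single i (monomial μ 1) : OF N) := by
      funext j
      rw [Finset.sum_apply, Finset.sum_eq_single j]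
      · rw [Finset.sum_apply]
        simp only [Pi.smul_apply, Pi.single_eq_same]
        exact hom_sum (hA j)
      · intro i _ hij
        rw [Finset.sum_apply]
        apply Finset.sum_eq_zero
        intro μ _
        rw [Pi.smul_apply, Pi.single_eq_of_ne (Ne.symm hij), smul_zero]
      · intro h; exact absurd (Finset.mem_univ _) h
    conv_lhs => rw [h1]
    simp only [map_sum, map_smul, smul_eq_mul]

end

end Pool.Agent.Helper93
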