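import Pool.Agent.Helper93.Alpha

set_option autoImplicit false

namespace Pool.Agent.Helper93

open scoped BigOperators
open MvPolynomial

variable {D : ℕ}

/-! ### the product of an irreducible variety with a space of tuples -/

theorem Reg_line {Q : Dat D} {κ : Type} {V : Type} [AddCommGroup V] [Module ℂ V]
    (S1 S2 : Tup Q V) {f : Pt Q κ V → ℂ} (hf : f ∈ Reg Q κ V) :
    ∃ F : Polynomial (MvPolynomial κ ℂ), ∀ (a : κ → ℂ) (t : ℂ),
      f (a, fun k s => S1 k s + t • (S2 k s - S1 k s)) =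
        (F.map (MvPolynomial.eval a)).eval t := by
  unfold Reg at hf
  induction hf using Algebra.adjoin_induction with
  | mem f hf =>
    rcases hf with ⟨j, rfl⟩ | ⟨k, s, v, rfl⟩
    · exact ⟨Polynomial.C (X j), by intro a t; simp⟩
    · refine ⟨Polynomial.C (C (S1 k s v)) + Polynomial.X * Polynomial.C (C (S2 k s v - S1 k s v)),
        ?_⟩
      intro a t
      simp
  | algebraMap c =>
    refine ⟨Polynomial.C (C c), ?_⟩
    intro a t
    simp
  | add f g _ _ hf hg =>
    obtain ⟨F, hF⟩ := hf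
    obtain ⟨G, hG⟩ := hg
    refine ⟨F + G, ?_⟩
    intro a t
    simp only [Pi.add_apply, hF, hG, Polynomial.map_add, Polynomial.eval_add]
  | mul f g _ _ hf hg =>
    obtain ⟨F, hF⟩ := hf
    obtain ⟨G, hG⟩ := hg
    refine ⟨F * G, ?_⟩
    intro a t
    simp only [Pi.mul_apply, hF, hG, Polynomial.map_mul, Polynomial.eval_mul]

theorem Cst_line {Q : Dat D} {V : Type} [AddCommGroup V] [Module ℂ V]
    {S1 S2 : Tup Q V} (h1 : Cst Q S1) (h2 : Cst Q S2) (t : ℂ) :
    Cst Q (fun k s => S1 k s + t • (S2 k s - S1 k s)) := by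
  intro k s
  simp only [map_add, map_smul, map_sub]
  rw [h1 k s, h2 k s]

/-- vanishing on the zero locus -/
def VanI {κ : Type} (I : Set (MvPolynomial κ ℂ)) (g : MvPolynomial κ ℂ) : Prop :=
  ∀ a : κ → ℂ, (∀ g' ∈ I, MvPolynomial.eval a g' = 0) → MvPolynomial.eval a g = 0

theorem PreIrr_prod {Q : Dat D} {κ : Type} (I : Set (MvPolynomial κ ℂ))
    (hI : ∀ g1 g2 : MvPolynomial κ ℂ, VanI I (g1 * g2) → VanI I g1 ∨ VanI I g2)
    (V : Type) [AddCommGroup V] [Module ℂ V] :
    PreIrr (Reg Q κ V : Set (Pt Q κ V → ℂ))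
      {p | (∀ g ∈ I, MvPolynomial.eval p.1 g = 0) ∧ Cst Q p.2} := by
  intro f hf g hg hfg
  by_contra hcon
  push Not at hcon
  obtain ⟨⟨⟨a1, S1⟩, ⟨ha1, hS1⟩, hf1⟩, ⟨⟨a2, S2⟩, ⟨ha2, hS2⟩, hg2⟩⟩ := hcon
  simp only at ha1 hS1 ha2 hS2
  obtain ⟨F, hF⟩ := Reg_line S1 S2 hf
  obtain ⟨G, hG⟩ := Reg_line S1 S2 hg
  have key : ∀ i j, VanI I (F.coeff i * G.coeff j) := by
    intro i j a ha
    have h0 : F.map (MvPolynomial.eval a) * G.map (MvPolynomial.eval a) = 0 := by
      apply Polynomial.funext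
      intro t
      rw [Polynomial.eval_mul, ← hF, ← hG, Polynomial.eval_zero]
      exact hfg _ ⟨ha, Cst_line hS1 hS2 t⟩
    rw [map_mul]
    rcases mul_eq_zero.mp h0 with h | h
    · have := congrArg (fun P => Polynomial.coeff P i) h
      simp only [Polynomial.coeff_map, Polynomial.coeff_zero] at this
      rw [this, zero_mul]
    · have := congrArg (fun P => Polynomial.coeff P j) h
      simp only [Polynomial.coeff_map, Polynomial.coeff_zero] at this
      rw [this, mul_zero]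
  have hFi : ∃ i, ¬ VanI I (F.coeff i) := by
    by_contra hcon
    push Not at hcon
    apply hf1
    have h0 := hF a1 0
    have h1 : F.map (MvPolynomial.eval a1) = 0 := by
      ext i
      rw [Polynomial.coeff_map, Polynomial.coeff_zero]
      exact hcon i a1 ha1
    rw [h1, Polynomial.eval_zero] at h0
    rw [← h0]
    congr 1
    simp
  have hGj : ∃ j, ¬ VanI I (G.coeff j) := by
    by_contra hcon
    push Not at hcon
    apply hg2
    have h0 := hG a2 1
    have h1 : G.map (MvPolynomial.eval a2) = 0 := by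
      ext i
      rw [Polynomial.coeff_map, Polynomial.coeff_zero]
      exact hcon i a2 ha2
    rw [h1, Polynomial.eval_zero] at h0
    rw [← h0]
    congr 1
    simp
  obtain ⟨i, hi⟩ := hFi
  obtain ⟨j, hj⟩ := hGj
  rcases hI _ _ (key i j) with h | h
  · exact hi h
  · exact hj h

/-! ### elementary facts on the closed families -/

theorem trunc_zero {Q : Dat D} {κ A : Type} (f : Fm Q κ A) :
    trunc 0 f = C (constantCoeff f) := by
  have h : (trunc 0 : Fm Q κ A →+* Fm Q κ A) = (C.comp constantCoeff) := by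
    apply MvPolynomial.ringHom_ext
    · intro r
      unfold trunc
      rw [eval₂Hom_C]; simp
    · intro x
      unfold trunc
      rw [eval₂Hom_X']
      simp
  rw [h]; rfl

theorem ML_hh {Q : Dat D} {κ A : Type} {f : Fm Q κ A} {μ : A → ℕ} (hf : ML f μ)
    (k : Fin D) (s0 : Q.ι k) (e : Fin (k.val + 1) → A) (ν : A → ℕ)
    (hν : ∀ ρ : Equiv.Perm (Fin (k.val + 1)), ∀ p,
      ν p + wt p (⟨k, s0, e ∘ ⇑ρ⁻¹⟩ : Vr Q A) = μ p) : ML (hh k s0 e f) ν := by
  intro p
  unfold hh
  apply IsWeightedHomogeneous.sum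
  intro ρ _
  have h1 : IsWeightedHomogeneous (wt p)
    (C (C ((idem (k.val + 1) (Q.lab k s0)).coeff ρ)) : Fm Q κ A) 0 := isWeightedHomogeneous_C _ _
  have h2 := h1.mul (ML_pderiv hf (⟨k, s0, e ∘ ⇑ρ⁻¹⟩ : Vr Q A) ν (hν ρ) p)
  rwa [zero_add] at h2

open Classical in
/-- if the derivative in the direction of a block does not vanish then the block is injective
with image in `U` -/
theorem hh_ne_zero {Q : Dat D} {κ : Type} {m : ℕ} {U : Finset (Fin m)}
    {f : Fm Q κ (Fin m)} (hf : ML f (fun p => if p ∈ U then 1 else 0))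
    (k : Fin D) (s0 : Q.ι k) (e : Fin (k.val + 1) → Fin m) (hne : hh k s0 e f ≠ 0) :
    Function.Injective e ∧ ∀ q, e q ∈ U := by
  have h1 : ∃ ρ : Equiv.Perm (Fin (k.val + 1)),
      pderiv (⟨k, s0, e ∘ ⇑ρ⁻¹⟩ : Vr Q (Fin m)) f ≠ 0 := by
    by_contra hcon
    push Not at hcon
    apply hne
    unfold hh
    apply Finset.sum_eq_zero
    intro ρ _
    rw [hcon ρ, mul_zero]
  obtain ⟨ρ, hρ⟩ := h1
  have hle : ∀ r, wt r (⟨k, s0, e ∘ ⇑ρ⁻¹⟩ : Vr Q (Fin m)) ≤ if r ∈ U then 1 else 0 := by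
    intro r
    by_contra hcon
    exact hρ (pderiv_eq_zero_of_lt (hf r) (by push Not at hcon; exact hcon))
  have hinj : Function.Injective (e ∘ ⇑ρ⁻¹) := by
    apply inj_of_wt (x := (⟨k, s0, e ∘ ⇑ρ⁻¹⟩ : Vr Q (Fin m)))
    intro p
    refine le_trans (hle p) ?_
    split_ifs <;> omega
  have hmem : ∀ q, (e ∘ ⇑ρ⁻¹) q ∈ U := by
    intro q
    by_contra hq
    have h2 := hle ((e ∘ ⇑ρ⁻¹) q)
    rw [if_neg hq] at h2
    have h3 := wt_self_pos (⟨k, s0, e ∘ ⇑ρ⁻¹⟩ : Vr Q (Fin m)) q
    simp only at h3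
    omega
  constructor
  · intro x y hxy
    have : (e ∘ ⇑ρ⁻¹) (ρ x) = (e ∘ ⇑ρ⁻¹) (ρ y) := by simp [hxy]
    exact ρ.injective (hinj this)
  · intro q
    have := hmem (ρ q)
    simpa using this

theorem wt_block {Q : Dat D} {A : Type} [DecidableEq A] (k : Fin D) (s0 : Q.ι k)
    (e : Fin (k.val + 1) → A)
    (he : Function.Injective e) (ρ : Equiv.Perm (Fin (k.val + 1))) (p : A) :
    wt p (⟨k, s0, e ∘ ⇑ρ⁻¹⟩ : Vr Q A) = if p ∈ Finset.univ.image e then 1 else 0 := by
  classical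
  by_cases hp : p ∈ Finset.univ.image e
  · rw [if_pos hp]
    obtain ⟨q, _, rfl⟩ := Finset.mem_image.mp hp
    have h1 : 0 < wt (e q) (⟨k, s0, e ∘ ⇑ρ⁻¹⟩ : Vr Q A) := wt_pos_iff.mpr ⟨ρ q, by simp⟩
    have h2 : wt (e q) (⟨k, s0, e ∘ ⇑ρ⁻¹⟩ : Vr Q A) ≤ 1 := by
      unfold wt
      rw [Finset.card_le_one]
      intro r hr r' hr'
      simp only [Finset.mem_filter, Finset.mem_univ, true_and] at hr hr'
      exact (he.comp (ρ⁻¹).injective) (hr.trans hr'.symm)
    omega
  · rw [if_neg hp]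
    apply wt_eq_zero
    intro q hq
    apply hp
    rw [Finset.mem_image]
    exact ⟨_, Finset.mem_univ _, hq⟩

/-! ### the measure -/

/-- the number of symbols in each degree -/
noncomputable def cnt (Q : Dat D) : Fin D → ℕ := fun k => Fintype.card (Q.ι k)

theorem cnt_eDat_lt (Q : Dat D) (k : Fin D) (s0 : Q.ι k) (T : Type) [Fintype T] :
    cnt (eDat Q k s0 T) k < cnt Q k := by
  classical
  unfold cnt
  have hside : ∀ z : (Th k × T) × Bool, side z < k := by
    intro z
    have hcard : ∀ θ : Th k, θ.1.val + 1 + (θ.2.1.val + 1) = k.val + 1 := by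
      intro θ
      have := Fintype.card_congr θ.2.2
      simpa using this
    obtain ⟨⟨θ, i⟩, b⟩ := z
    have := hcard θ
    cases b
    · show θ.2.1 < k
      rw [Fin.lt_def]; omega
    · show θ.1 < k
      rw [Fin.lt_def]; omega
  let φ : (eDat Q k s0 T).ι k → Q.ι k := Sum.elim (fun s => s.1) (fun _ => s0)
  have hφinj : Function.Injective φ := by
    intro x y hxy
    rcases x with x | x
    · rcases y with y | y
      · have : x.1 = y.1 := hxy
        rw [Subtype.ext this]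
      · exact absurd y.1.2 (ne_of_lt (hside y.1.1))
    · exact absurd x.1.2 (ne_of_lt (hside x.1.1))
  apply Fintype.card_lt_of_injective_of_notMem φ hφinj (b := s0)
  rintro ⟨x, hx⟩
  rcases x with x | x
  · apply x.2
    have : x.1 = s0 := hx
    rw [this]
  · exact absurd x.1.2 (ne_of_lt (hside x.1.1))

theorem cnt_eDat_eq (Q : Dat D) (k : Fin D) (s0 : Q.ι k) (T : Type) [Fintype T] (j : Fin D)
    (hj : k < j) : cnt (eDat Q k s0 T) j = cnt Q j := by
  classical
  unfold cnt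
  have hside : ∀ z : (Th k × T) × Bool, side z < k := by
    intro z
    have hcard : ∀ θ : Th k, θ.1.val + 1 + (θ.2.1.val + 1) = k.val + 1 := by
      intro θ
      have := Fintype.card_congr θ.2.2
      simpa using this
    obtain ⟨⟨θ, i⟩, b⟩ := z
    have := hcard θ
    cases b
    · show θ.2.1 < k
      rw [Fin.lt_def]; omega
    · show θ.1 < k
      rw [Fin.lt_def]; omega
  have hne : ∀ s : Q.ι j, (⟨j, s⟩ : Σ j, Q.ι j) ≠ ⟨k, s0⟩ := by
    intro s h
    exact absurd (Sigma.mk.inj_iff.mp h).1 (ne_of_gt hj)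
  apply Fintype.card_congr
  exact
  { toFun := Sum.elim (fun s => s.1) (fun u => absurd (u.1.2) (ne_of_lt ((hside u.1.1).trans hj)))
    invFun := fun s => Sum.inl ⟨s, hne s⟩
    left_inv := by
      intro x
      rcases x with x | x
      · rfl
      · exact absurd x.1.2 (ne_of_lt ((hside x.1.1).trans hj))
    right_inv := by intro s; rfl }

/-! ### the main induction -/

open Classical in
theorem inner_step (Q : Dat D) (κ : Type) [Finite κ]
    (hmain : ∀ (k : Fin D) (s0 : Q.ι k) (T : Type) [Fintype T] (κ' : Type) [Finite κ']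
      (I' : Set (MvPolynomial κ' ℂ)) (F' : Set (Idn (eDat Q k s0 T) κ')),
      Bdd (fun V _ _ => XS (eDat Q k s0 T) κ' I' F' V))
    (I : Ideal (MvPolynomial κ ℂ))
    (hI : ∀ I' : Ideal (MvPolynomial κ ℂ), I < I' → ∀ F : Set (Idn Q κ),
      Bdd (fun V _ _ => XS Q κ (I' : Set (MvPolynomial κ ℂ)) F V))
    (n : ℕ) : ∀ (F : Set (Idn Q κ)) (i : Idn Q κ), i ∈ F → i.U.card = n →
      NZ (I : Set (MvPolynomial κ ℂ)) i.f →
      Bdd (fun V _ _ => XS Q κ (I : Set (MvPolynomial κ ℂ)) F V) := by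
  induction n using Nat.strong_induction_on with
  | _ n ih =>
  intro F i hi hn hNZ
  -- the least truncation
  let Pc : ℕ → Prop := fun c => ∀ (V : Type) [AddCommGroup V] [Module ℂ V] (p : Pt Q κ V)
    (v : Fin i.m → V), (∀ g ∈ (I : Set (MvPolynomial κ ℂ)), MvPolynomial.eval p.1 g = 0) →
      Cst Q p.2 → ev p.1 p.2 v (trunc c i.f) = ev p.1 p.2 v i.f
  have hex : ∃ c, Pc c := ⟨D, fun V _ _ p v _ _ => by rw [trunc_top]⟩
  obtain ⟨c, hc, hmin⟩ : ∃ c, Pc c ∧ ∀ c' < c, ¬ Pc c' :=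
    ⟨Nat.find hex, Nat.find_spec hex, fun c' h => Nat.find_min hex h⟩
  have hcD : c ≤ D := by
    by_contra hcon
    exact hmin D (by omega) (fun V _ _ p v _ _ => by rw [trunc_top])
  rcases Nat.eq_zero_or_pos c with h0 | hpos
  · -- the identity is a condition on the scalars
    subst h0
    have hval : ∀ (V : Type) [AddCommGroup V] [Module ℂ V] (p : Pt Q κ V) (v : Fin i.m → V),
        (∀ g ∈ (I : Set (MvPolynomial κ ℂ)), MvPolynomial.eval p.1 g = 0) →
        Cst Q p.2 → MvPolynomial.eval p.1 (constantCoeff i.f) = ev p.1 p.2 v i.f := by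
      intro V _ _ p v h1 h2
      rw [← hc V p v h1 h2, trunc_zero, ev_C]
    obtain ⟨V0, _, _, p0, v0, h01, h02, h03⟩ := hNZ
    have hg : constantCoeff i.f ∉ I := by
      intro hmem
      apply h03
      rw [← hval V0 p0 v0 h01 h02]
      exact h01 _ hmem
    have hlt : I < I ⊔ Ideal.span {constantCoeff i.f} := by
      refine lt_of_le_of_ne le_sup_left ?_
      intro heq
      apply hg
      rw [heq]
      exact Ideal.mem_sup_right (Ideal.subset_span rfl)
    have hB := hI _ hlt F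
    have hXS : ∀ (V : Type) [AddCommGroup V] [Module ℂ V],
        XS Q κ (I : Set (MvPolynomial κ ℂ)) F V =
        XS Q κ ((I ⊔ Ideal.span {constantCoeff i.f} : Ideal (MvPolynomial κ ℂ)) :
          Set (MvPolynomial κ ℂ)) F V := by
      intro V _ _
      ext p
      constructor
      · rintro ⟨h1, h2, h3⟩
        refine ⟨?_, h2, h3⟩
        intro g hgm
        have hle : (I ⊔ Ideal.span {constantCoeff i.f} : Ideal (MvPolynomial κ ℂ)) ≤
            RingHom.ker (MvPolynomial.eval p.1) := by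
          rw [sup_le_iff]
          refine ⟨fun g hg => h1 g hg, ?_⟩
          rw [Ideal.span_le, Set.singleton_subset_iff]
          show MvPolynomial.eval p.1 (constantCoeff i.f) = 0
          rw [hval V p 0 h1 h2]
          exact h3 i hi 0
        exact hle hgm
      · rintro ⟨h1, h2, h3⟩
        exact ⟨fun g hg => h1 g (Ideal.mem_sup_left hg), h2, h3⟩
    obtain ⟨J, hJ⟩ := hB
    refine ⟨J, ?_⟩
    intro V _ _
    obtain ⟨Z, hZ1, hZ2⟩ := hJ V
    exact ⟨Z, hZ1, (hXS V).trans hZ2⟩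
  · -- elimination
    obtain ⟨k0, rfl⟩ : ∃ k0, c = k0 + 1 := ⟨c - 1, by omega⟩
    let k : Fin D := ⟨k0, by omega⟩
    have hne : ¬ ∀ (V : Type) [AddCommGroup V] [Module ℂ V] (p : Pt Q κ V) (v : Fin i.m → V),
        (∀ g ∈ (I : Set (MvPolynomial κ ℂ)), MvPolynomial.eval p.1 g = 0) → Cst Q p.2 →
        ev p.1 p.2 v (trunc (k.val + 1) i.f) = ev p.1 p.2 v (trunc k.val i.f) := by
      intro hcon
      apply hmin k0 (by omega)
      intro V _ _ p v h1 h2
      rw [← hc V p v h1 h2]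
      exact (hcon V p v h1 h2).symm
    obtain ⟨s0, e, hhNZ⟩ := exists_hh (I : Set (MvPolynomial κ ℂ)) i.f k hne
    set f' := trunc (k.val + 1) i.f with hf'
    have hMLf' : ML f' (fun p => if p ∈ i.U then 1 else 0) := by
      have := ML_trunc (k.val + 1) i.ml
      intro p
      convert this p
    have hhne : hh k s0 e f' ≠ 0 := by
      intro h0
      obtain ⟨V0, _, _, p0, v0, h01, h02, h03⟩ := hhNZ
      apply h03
      rw [h0, map_zero]
    obtain ⟨he, heU⟩ := hh_ne_zero hMLf' k s0 e hhne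
    let U' : Finset (Fin i.m) := i.U \ Finset.univ.image e
    have hMLh : ML (hh k s0 e f') (fun p => if p ∈ U' then 1 else 0) := by
      apply ML_hh hMLf'
      intro ρ p
      rw [wt_block k s0 e he ρ p]
      by_cases hp : p ∈ Finset.univ.image e
      · obtain ⟨q, _, rfl⟩ := Finset.mem_image.mp hp
        have hpU := heU q
        simp [U', hpU]
      · by_cases hpU : p ∈ i.U
        · simp only [U', Finset.mem_sdiff, hpU, hp, not_false_eq_true, and_self, if_true, if_false]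
        · simp only [U', Finset.mem_sdiff, hpU, hp, false_and, if_false]
    let j : Idn Q κ := ⟨i.m, U', hh k s0 e f', by
      intro p
      convert hMLh p⟩
    have hcard : j.U.card < n := by
      rw [← hn]
      apply Finset.card_lt_card
      refine ⟨Finset.sdiff_subset, ?_⟩
      intro hsub
      have h1 := hsub (heU 0)
      have h2 := (Finset.mem_sdiff.mp h1).2
      exact h2 (Finset.mem_image_of_mem _ (Finset.mem_univ _))
    have hB1 : Bdd (fun V _ _ => XS Q κ (I : Set (MvPolynomial κ ℂ)) (F ∪ {j}) V) :=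
      ih j.U.card hcard (F ∪ {j}) j (Or.inr rfl) rfl hhNZ
    let α := ePM Q κ k s0 (Tt Q (Fin i.m) k)
    have hB2 : Bdd (fun V _ _ => α.app V '' XS (eDat Q k s0 (Tt Q (Fin i.m) k)) (κ ⊕ Q.ι k)
        (α.scalHom '' (I : Set (MvPolynomial κ ℂ))) (α.pull '' F) V) :=
      Bdd.image α (hmain k s0 (Tt Q (Fin i.m) k) (κ ⊕ Q.ι k) _ _)
    refine Bdd.union hB1 hB2 ?_
    intro V _ _
    have hpull := XS_pull α (fun V _ _ p hp => ePM_Cst p hp) (I : Set (MvPolynomial κ ℂ)) F V
    ext p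
    constructor
    · rintro ⟨h1, h2, h3⟩
      by_cases hcase : ∀ v : Fin i.m → V, ev p.1 p.2 v (hh k s0 e f') = 0
      · left
        refine ⟨h1, h2, ?_⟩
        intro i' hi' v
        rcases hi' with hi' | hi'
        · exact h3 i' hi' v
        · have hi'' : i' = j := hi'
          subst hi''
          exact hcase v
      · right
        push Not at hcase
        obtain ⟨v0, hv0⟩ := hcase
        have hvan : ∀ v, ev p.1 p.2 v f' = 0 := by
          intro v
          rw [hf']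
          have := hc V p v h1 h2
          exact this.trans (h3 i hi v)
        obtain ⟨P, R, y, hPR⟩ := elim_point hMLf' (fun p => by split_ifs <;> omega) k
          (fun x hx => pderiv_trunc (k.val + 1) i.f x (by
            have : k.val < x.1.val := hx
            omega)) e he
          (fun q => if_pos (heU q)) s0 p.1 p.2 h2 hvan v0 hv0
        obtain ⟨p', hp'1, hp'2⟩ := ePM_surj p.1 p.2 h2 P R y hPR
        refine ⟨p', ?_, hp'2⟩
        rw [hpull]
        refine ⟨hp'1, ?_⟩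
        show α.app V p' ∈ _
        have : α.app V p' = p := hp'2
        rw [this]
        exact ⟨h1, h2, h3⟩
    · rintro (h | h)
      · obtain ⟨h1, h2, h3⟩ := h
        exact ⟨h1, h2, fun i' hi' v => h3 i' (Or.inl hi') v⟩
      · obtain ⟨p', hp', rfl⟩ := h
        exact ((hpull p').mp hp').2

open Classical in
theorem outer_step (Q : Dat D) 
    (hmain : ∀ (k : Fin D) (s0 : Q.ι k) (T : Type) [Fintype T] (κ' : Type) [Finite κ']
      (I' : Set (MvPolynomial κ' ℂ)) (F' : Set (Idn (eDat Q k s0 T) κ')),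
      Bdd (fun V _ _ => XS (eDat Q k s0 T) κ' I' F' V)) (κ : Type) [Finite κ]
    (I : Ideal (MvPolynomial κ ℂ)) : ∀ F : Set (Idn Q κ),
      Bdd (fun V _ _ => XS Q κ (I : Set (MvPolynomial κ ℂ)) F V) := by
  have hwf : WellFounded ((· > ·) : Ideal (MvPolynomial κ ℂ) → Ideal (MvPolynomial κ ℂ) → Prop) :=
    (inferInstance : WellFoundedGT (Ideal (MvPolynomial κ ℂ))).wf
  induction I using hwf.induction with
  | _ I ih =>
  intro F
  by_cases hD : ∃ i ∈ F, NZ (I : Set (MvPolynomial κ ℂ)) i.f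
  · obtain ⟨i, hi, hNZ⟩ := hD
    exact inner_step Q κ hmain I (fun I' h => ih I' h) _ F i hi rfl hNZ
  push Not at hD
  have hXS : ∀ (V : Type) [AddCommGroup V] [Module ℂ V],
      XS Q κ (I : Set (MvPolynomial κ ℂ)) F V =
        {p | (∀ g ∈ (I : Set (MvPolynomial κ ℂ)), MvPolynomial.eval p.1 g = 0) ∧ Cst Q p.2} := by
    intro V _ _
    ext p
    constructor
    · rintro ⟨h1, h2, h3⟩
      exact ⟨h1, h2⟩
    · rintro ⟨h1, h2⟩
      exact ⟨h1, h2, fun i hi v => not_NZ (hD i hi) p v h1 h2⟩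
  by_cases hA : ∀ g1 g2 : MvPolynomial κ ℂ, VanI (I : Set (MvPolynomial κ ℂ)) (g1 * g2) →
      VanI (I : Set (MvPolynomial κ ℂ)) g1 ∨ VanI (I : Set (MvPolynomial κ ℂ)) g2
  · refine ⟨1, ?_⟩
    intro V _ _
    refine ⟨fun _ => XS Q κ (I : Set (MvPolynomial κ ℂ)) F V, ?_, ?_⟩
    · intro _
      rw [hXS V]
      exact PreIrr_prod _ hA V
    · rw [Set.iUnion_const]
  · push Not at hA
    obtain ⟨g1, g2, h12, h1, h2⟩ := hA
    have hlt : ∀ g : MvPolynomial κ ℂ, ¬ VanI (I : Set (MvPolynomial κ ℂ)) g →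
        I < I ⊔ Ideal.span {g} := by
      intro g hg
      refine lt_of_le_of_ne le_sup_left ?_
      intro heq
      apply hg
      intro a ha
      apply ha
      show g ∈ I
      rw [heq]
      exact Ideal.mem_sup_right (Ideal.subset_span rfl)
    refine Bdd.union (ih _ (hlt g1 h1) F) (ih _ (hlt g2 h2) F) ?_
    intro V _ _
    have hsup : ∀ (p : Pt Q κ V) (g : MvPolynomial κ ℂ),
        (∀ g' ∈ (I : Set (MvPolynomial κ ℂ)), MvPolynomial.eval p.1 g' = 0) →
        MvPolynomial.eval p.1 g = 0 →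
        ∀ g' ∈ ((I ⊔ Ideal.span {g} : Ideal (MvPolynomial κ ℂ)) : Set (MvPolynomial κ ℂ)),
          MvPolynomial.eval p.1 g' = 0 := by
      intro p g hp hg g' hg'
      have hle : (I ⊔ Ideal.span {g} : Ideal (MvPolynomial κ ℂ)) ≤
          RingHom.ker (MvPolynomial.eval p.1) := by
        rw [sup_le_iff]
        refine ⟨fun g hg => hp g hg, ?_⟩
        rw [Ideal.span_le, Set.singleton_subset_iff]
        exact hg
      exact hle hg'
    ext p
    constructor
    · rintro ⟨q1, q2, q3⟩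
      have h0 := h12 p.1 q1
      rw [map_mul] at h0
      rcases mul_eq_zero.mp h0 with h | h
      · left
        exact ⟨hsup p g1 q1 h, q2, q3⟩
      · right
        exact ⟨hsup p g2 q1 h, q2, q3⟩
    · rintro (⟨q1, q2, q3⟩ | ⟨q1, q2, q3⟩)
      · exact ⟨fun g hg => q1 g (Ideal.mem_sup_left hg), q2, q3⟩
      · exact ⟨fun g hg => q1 g (Ideal.mem_sup_left hg), q2, q3⟩

theorem bdd_ideal (Q : Dat D) : ∀ (κ : Type) [Finite κ] (I : Ideal (MvPolynomial κ ℂ))
    (F : Set (Idn Q κ)), Bdd (fun V _ _ => XS Q κ (I : Set (MvPolynomial κ ℂ)) F V) := by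
  have hwf : WellFounded (Pi.Lex (fun i j : Fin D => i > j) (fun {_} => ((· < ·) : ℕ → ℕ → Prop))) :=
    Pi.Lex.wellFounded _ (fun _ => wellFounded_lt)
  have key : ∀ c : Fin D → ℕ, ∀ Q : Dat D, cnt Q = c → ∀ (κ : Type) [Finite κ]
      (I : Ideal (MvPolynomial κ ℂ))
      (F : Set (Idn Q κ)), Bdd (fun V _ _ => XS Q κ (I : Set (MvPolynomial κ ℂ)) F V) := by
    intro c
    induction c using hwf.induction with
    | _ c ih =>
    intro Q hQ κ _ I F
    apply outer_step
    intro k s0 T _ κ' _ I' F'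
    have h1 := ih (cnt (eDat Q k s0 T)) ⟨k, fun j hj => by rw [← hQ]; exact cnt_eDat_eq Q k s0 T j hj,
      by rw [← hQ]; exact cnt_eDat_lt Q k s0 T⟩ (eDat Q k s0 T) rfl κ' (Ideal.span I') F'
    obtain ⟨J, hJ⟩ := h1
    refine ⟨J, ?_⟩
    intro V _ _
    obtain ⟨Z, hZ1, hZ2⟩ := hJ V
    refine ⟨Z, hZ1, ?_⟩
    rw [← hZ2]
    ext p
    constructor
    · rintro ⟨q1, q2, q3⟩
      refine ⟨?_, q2, q3⟩
      have hle : Ideal.span I' ≤ RingHom.ker (MvPolynomial.eval p.1) := by
        rw [Ideal.span_le]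
        exact q1
      intro g hg
      exact hle hg
    · rintro ⟨q1, q2, q3⟩
      exact ⟨fun g hg => q1 g (Ideal.subset_span hg), q2, q3⟩
  exact key (cnt Q) Q rfl

/-- every closed family is a union of a bounded number of preirreducible sets -/
theorem bdd_XS (Q : Dat D) (κ : Type) [Finite κ] (I : Set (MvPolynomial κ ℂ))
    (F : Set (Idn Q κ)) : Bdd (fun V _ _ => XS Q κ I F V) := by
  obtain ⟨J, hJ⟩ := bdd_ideal Q κ (Ideal.span I) F
  refine ⟨J, ?_⟩
  intro V _ _
  obtain ⟨Z, hZ1, hZ2⟩ := hJ V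
  refine ⟨Z, hZ1, ?_⟩
  rw [← hZ2]
  ext p
  constructor
  · rintro ⟨q1, q2, q3⟩
    refine ⟨?_, q2, q3⟩
    have hle : Ideal.span I ≤ RingHom.ker (MvPolynomial.eval p.1) := by
      rw [Ideal.span_le]
      exact q1
    intro g hg
    exact hle hg
  · rintro ⟨q1, q2, q3⟩
    exact ⟨fun g hg => q1 g (Ideal.subset_span hg), q2, q3⟩

end Pool.Agent.Helper93
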