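import Pool.Agent.Helper93.Top

set_option autoImplicit false

namespace Pool.Agent.Helper93

open scoped BigOperators
open MvPolynomial

/-! ### polarisation -/

theorem polar {V : Type} [AddCommGroup V] [Module ℂ V] {m : ℕ}
    (M : MultilinearMap ℂ (fun _ : Fin m => V) ℂ) (h : ∀ x : V, M (fun _ => x) = 0)
    (v : Fin m → V) : ∑ σ : Equiv.Perm (Fin m), M (v ∘ σ) = 0 := by
  classical
  -- the polynomial in the parameters
  let p : MvPolynomial (Fin m) ℂ :=
    ∑ J : Fin m → Fin m, monomial (∑ q, Finsupp.single (J q) 1) (M (v ∘ J))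
  have hp : p = 0 := by
    apply MvPolynomial.funext
    intro t
    rw [map_zero]
    have h1 := h (∑ j, t j • v j)
    have h2 : M (fun _ : Fin m => ∑ j, t j • v j) =
        ∑ J : Fin m → Fin m, M (fun q => t (J q) • v (J q)) := by
      rw [M.map_sum (fun _ j => t j • v j)]
    rw [h2] at h1
    rw [← h1]
    simp only [p, map_sum]
    apply Finset.sum_congr rfl
    intro J _
    rw [eval_monomial, M.map_smul_univ (fun q => t (J q)) (fun q => v (J q)), smul_eq_mul, mul_comm]
    congr 1
    rw [Finsupp.prod_fintype _ _ (by intro i; simp)]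
    have h3 : ∀ i, t i ^ (∑ q, Finsupp.single (J q) 1 : Fin m →₀ ℕ) i =
        ∏ q, if J q = i then t i else 1 := by
      intro i
      rw [Finsupp.finsetSum_apply, ← Finset.prod_pow_eq_pow_sum]
      apply Finset.prod_congr rfl
      intro q _
      rw [Finsupp.single_apply]
      split_ifs <;> simp
    rw [Finset.prod_congr rfl (fun i _ => h3 i), Finset.prod_comm]
    apply Finset.prod_congr rfl
    intro q _
    simp
  have hc := congrArg (coeff (∑ j : Fin m, Finsupp.single j 1)) hp
  rw [coeff_zero] at hc
  rw [← hc]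
  simp only [p, coeff_sum, coeff_monomial]
  rw [← Finset.sum_filter]
  have himg : (Finset.univ.filter (fun J : Fin m → Fin m =>
      (∑ q, Finsupp.single (J q) 1 : Fin m →₀ ℕ) = ∑ j : Fin m, Finsupp.single j 1)) =
      Finset.univ.image (fun σ : Equiv.Perm (Fin m) => (σ : Fin m → Fin m)) := by
    ext J
    simp only [Finset.mem_filter, Finset.mem_univ, true_and, Finset.mem_image]
    constructor
    · intro hJ
      have hsurj : Function.Surjective J := by
        intro i
        by_contra hcon
        push Not at hcon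
        have h4 := DFunLike.congr_fun hJ i
        rw [Finsupp.finsetSum_apply, Finsupp.finsetSum_apply] at h4
        simp only [Finsupp.single_apply] at h4
        rw [Finset.sum_eq_zero (fun q _ => by rw [if_neg (hcon q)])] at h4
        simp at h4
      exact ⟨Equiv.ofBijective J (Finite.injective_iff_bijective.mp
        (Finite.injective_iff_surjective.mpr hsurj)), rfl⟩
    · rintro ⟨σ, rfl⟩
      exact Equiv.sum_comp σ (fun j => (Finsupp.single j 1 : Fin m →₀ ℕ))
  rw [himg, Finset.sum_image]
  intro σ _ τ _ hst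
  exact DFunLike.coe_injective hst

/-! ### expansion of multilinear forms in coordinates -/

section coord
variable {N d : ℕ}

/-- standard basis vectors -/
def bv (i : Fin N) : Fin N → ℂ := Pi.single i 1

theorem sum_bv (x : Fin N → ℂ) : x = ∑ j, x j • bv j := by
  funext i
  rw [Finset.sum_apply, Finset.sum_eq_single i]
  · simp [bv]
  · intro j _ hj
    simp [bv, Ne.symm hj]
  · intro h; exact absurd (Finset.mem_univ _) h

theorem expand {m : ℕ} (M : Form (Fin N → ℂ) m) (y : Fin m → Fin N → ℂ) :
    M y = ∑ J : Fin m → Fin N, (∏ q, y q (J q)) * M (fun q => bv (J q)) := by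
  have h1 : M y = M (fun q => ∑ j, y q j • bv j) := by
    congr 1
    funext q
    exact sum_bv (y q)
  rw [h1, M.map_sum (fun q j => y q j • bv j)]
  apply Finset.sum_congr rfl
  intro J _
  rw [M.map_smul_univ (fun q => y q (J q)) (fun q => bv (J q)), smul_eq_mul]

/-- the 1-form attached to a multilinear form -/
noncomputable def psi (β : Form (Fin N → ℂ) (d + 2)) : Fin N → MvPolynomial (Fin N) ℂ :=
  fun i => ∑ J : Fin (d + 1) → Fin N,
    C (β (Fin.cons (bv i) (fun q => bv (J q)))) * ∏ q, X (J q)

theorem expand_cons (β : Form (Fin N → ℂ) (d + 2)) (u : Fin N → ℂ) (y : Fin (d + 1) → Fin N → ℂ) :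
    β (Fin.cons u y) = ∑ J : Fin (d + 1) → Fin N, (∏ q, y q (J q)) *
      β (Fin.cons u (fun q => bv (J q))) :=
  expand (β.curryLeft u) y

theorem eval_psi (β : Form (Fin N → ℂ) (d + 2)) (i : Fin N) (x : Fin N → ℂ) :
    eval x (psi β i) = β (Fin.cons (bv i) (fun _ => x)) := by
  rw [expand_cons]
  unfold psi
  rw [map_sum]
  apply Finset.sum_congr rfl
  intro J _
  rw [map_mul, eval_C, map_prod, mul_comm]
  simp only [eval_X]

theorem pderiv_prodX {R : Type} [CommRing R] {m : ℕ} (j : Fin N) (J : Fin m → Fin N) :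
    pderiv j (∏ q, X (J q) : MvPolynomial (Fin N) R) =
      ∑ l, ∏ q, (if q = l then (if J l = j then 1 else 0) else X (J q)) := by
  classical
  have gen : ∀ s : Finset (Fin m), pderiv j (∏ q ∈ s, X (J q) : MvPolynomial (Fin N) R) =
      ∑ l ∈ s, ∏ q ∈ s, (if q = l then (if J l = j then 1 else 0) else X (J q)) := by
    intro s
    induction s using Finset.induction_on with
    | empty => simp
    | insert a s ha ih =>
      rw [Finset.prod_insert ha, Derivation.leibniz, ih, Finset.sum_insert ha,
        Finset.prod_insert ha, if_pos rfl]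
      rw [add_comm]
      congr 1
      · rw [smul_eq_mul, mul_comm, pderiv_X, Pi.single_apply]
        congr 1
        apply Finset.prod_congr rfl
        intro q hq
        have hqa : ¬ q = a := by rintro rfl; exact ha hq
        rw [if_neg hqa]
      · rw [smul_eq_mul, Finset.mul_sum]
        apply Finset.sum_congr rfl
        intro l hl
        have hal : ¬ a = l := by rintro rfl; exact ha hl
        rw [Finset.prod_insert ha, if_neg hal]
  exact gen Finset.univ

theorem eval_pderiv_psi (β : Form (Fin N → ℂ) (d + 2)) (i j : Fin N) (x : Fin N → ℂ) :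
    eval x (pderiv j (psi β i)) =
      ∑ l : Fin (d + 1), β (Fin.cons (bv i) (Function.update (fun _ => x) l (bv j))) := by
  classical
  unfold psi
  rw [map_sum, map_sum]
  have h1 : ∀ J : Fin (d + 1) → Fin N,
      eval x (pderiv j (C (β (Fin.cons (bv i) (fun q => bv (J q)))) * ∏ q, X (J q))) =
      ∑ l : Fin (d + 1), (∏ q, (Function.update (fun _ => x) l (bv j) : Fin (d + 1) → Fin N → ℂ) q (J q)) *
        β (Fin.cons (bv i) (fun q => bv (J q))) := by
    intro J
    rw [Derivation.leibniz, pderiv_C, smul_zero, add_zero, smul_eq_mul, map_mul, eval_C,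
      pderiv_prodX, map_sum, Finset.mul_sum]
    apply Finset.sum_congr rfl
    intro l _
    rw [mul_comm, map_prod]
    congr 1
    apply Finset.prod_congr rfl
    intro q _
    by_cases hq : q = l
    · subst hq
      rw [if_pos rfl, Function.update_self]
      unfold bv
      rw [Pi.single_apply]
      split_ifs <;> simp
    · rw [if_neg hq, Function.update_of_ne hq, eval_X]
  rw [Finset.sum_congr rfl (fun J _ => h1 J), Finset.sum_comm]
  apply Finset.sum_congr rfl
  intro l _
  rw [expand_cons]

end coord

/-! ### symmetrised identities -/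

section sym
variable {D : ℕ} {Q : Dat D} {κ : Type} {U : Type} {m : ℕ}

/-- symmetrisation -/
noncomputable def symF (f : Fm Q κ (U ⊕ Fin m)) : Fm Q κ (U ⊕ Fin m) :=
  ∑ ρ : Equiv.Perm (Fin m), rename (PM.relab (Sum.map id ρ)) f

theorem ev_symF {V : Type} [AddCommGroup V] [Module ℂ V] (a : κ → ℂ) (S : Tup Q V)
    (v : U ⊕ Fin m → V) (f : Fm Q κ (U ⊕ Fin m)) :
    ev a S v (symF f) = ∑ ρ : Equiv.Perm (Fin m), ev a S (v ∘ Sum.map id ρ) f := by
  unfold symF
  rw [map_sum]
  apply Finset.sum_congr rfl
  intro ρ _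
  rw [PM.ev_rename]

theorem ML_rename_bij {A B : Type} [Fintype B] (I : B → A) (hI : Function.Bijective I)
    {f : Fm Q κ B} (hf : ML f (fun _ => 1)) : ML (rename (PM.relab I) f) (fun _ => 1) := by
  classical
  intro p
  have h1 := PM.ML_rename I hf p
  refine WH_of_eq h1 ?_
  rw [Finset.card_eq_one]
  obtain ⟨r, hr⟩ := hI.2 p
  refine ⟨r, ?_⟩
  ext q
  simp only [Finset.mem_filter, Finset.mem_univ, true_and, Finset.mem_singleton]
  constructor
  · intro h; exact hI.1 (h.trans hr.symm)
  · rintro rfl; exact hr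

theorem ML_symF [Fintype U] {f : Fm Q κ (U ⊕ Fin m)} (hf : ML f (fun _ => 1)) :
    ML (symF f) (fun _ => 1) := by
  intro p
  unfold symF
  apply IsWeightedHomogeneous.sum
  intro ρ _
  apply ML_rename_bij _ _ hf
  exact ((Equiv.refl U).sumCongr ρ).bijective

theorem sym_zero [Fintype U] {V : Type} [AddCommGroup V] [Module ℂ V] (a : κ → ℂ)
    (S : Tup Q V) {f : Fm Q κ (U ⊕ Fin m)} (hf : ML f (fun _ => 1)) (u : U → V)
    (h : ∀ x : V, ev a S (Sum.elim u (fun _ => x)) f = 0) (y : Fin m → V) :
    ev a S (Sum.elim u y) (symF f) = 0 := by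
  rw [ev_symF]
  have hM := polar (mkForm hf a S (Sum.inr : Fin m → U ⊕ Fin m) Sum.inr_injective
    (fun _ => rfl) (Sum.elim u 0))
  have hext : ∀ y : Fin m → V, Function.extend (Sum.inr : Fin m → U ⊕ Fin m) y (Sum.elim u 0) =
      Sum.elim u y := by
    intro y
    funext r
    rcases r with r | r
    · rw [Function.extend_apply']
      · rfl
      · rintro ⟨q, hq⟩
        cases hq
    · rw [Sum.inr_injective.extend_apply]
      rfl
  simp only [mkForm_apply, hext] at hM
  have := hM h y
  rw [← this]
  apply Finset.sum_congr rfl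
  intro ρ _
  congr 2
  funext r
  rcases r with r | r <;> rfl

/-- vanishing of a multilinear formal polynomial can be tested on a basis -/
theorem ev_basis {A : Type} [Fintype A] {N : ℕ} (a : κ → ℂ) (S : Tup Q (Fin N → ℂ))
    {f : Fm Q κ A} (hf : ML f (fun _ => 1))
    (h : ∀ w : A → Fin N, ev a S (fun r => bv (w r)) f = 0) (v : A → Fin N → ℂ) :
    ev a S v f = 0 := by
  classical
  let e := Fintype.equivFin A
  let M := mkForm hf a S e.symm e.symm.injective (fun _ => rfl) (0 : A → Fin N → ℂ)
  have hext : ∀ w : Fin (Fintype.card A) → Fin N → ℂ,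
      Function.extend e.symm w (0 : A → Fin N → ℂ) = w ∘ e := by
    intro w
    funext r
    have : r = e.symm (e r) := by simp
    rw [this, e.symm.injective.extend_apply]
    simp
  have hM : ∀ w, M w = ev a S (w ∘ e) f := by
    intro w
    show mkForm hf a S e.symm e.symm.injective (fun _ => rfl) (0 : A → Fin N → ℂ) w = _
    rw [mkForm_apply, hext]
  have h1 : ev a S v f = M (v ∘ e.symm) := by
    rw [hM]
    congr 2
    funext r
    simp
  rw [h1, expand M]
  apply Finset.sum_eq_zero
  intro J _
  rw [hM]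
  have := h (J ∘ e)
  have h2 : ((fun q => bv (J q)) ∘ e : A → Fin N → ℂ) = fun r => bv ((J ∘ e) r) := rfl
  rw [h2, this, mul_zero]

theorem symF_iff [Fintype U] {N : ℕ} (a : κ → ℂ) (S : Tup Q (Fin N → ℂ))
    {f : Fm Q κ (U ⊕ Fin m)} (hf : ML f (fun _ => 1)) :
    (∀ v, ev a S v (symF f) = 0) ↔
      ∀ (w : U → Fin N) (x : Fin N → ℂ), ev a S (Sum.elim (fun r => bv (w r)) (fun _ => x)) f = 0 := by
  constructor
  · intro h w x
    have h1 := h (Sum.elim (fun r => bv (w r)) (fun _ => x))
    rw [ev_symF] at h1
    have h2 : ∀ ρ : Equiv.Perm (Fin m), (Sum.elim (fun r => bv (w r)) (fun _ => x) :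
        U ⊕ Fin m → Fin N → ℂ) ∘ Sum.map id ρ = Sum.elim (fun r => bv (w r)) (fun _ => x) := by
      intro ρ
      funext r
      rcases r with r | r <;> rfl
    simp only [h2] at h1
    rw [Finset.sum_const, nsmul_eq_mul] at h1
    rcases mul_eq_zero.mp h1 with h3 | h3
    · exfalso
      rw [Nat.cast_eq_zero] at h3
      exact (Finset.card_ne_zero_of_mem (Finset.mem_univ 1)) h3
    · exact h3
  · intro h
    apply ev_basis a S (ML_symF hf)
    intro w
    have h1 := sym_zero a S hf (fun r => bv (w (Sum.inl r))) (h (w ∘ Sum.inl))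
      (fun r => bv (w (Sum.inr r)))
    have h2 : (fun r => bv (w r) : U ⊕ Fin m → Fin N → ℂ) =
      Sum.elim (fun r => bv (w (Sum.inl r))) (fun r => bv (w (Sum.inr r))) := by
      funext r
      rcases r with r | r <;> rfl
    rw [h2]
    exact h1

/-- the identity attached to a formal polynomial with slots in an arbitrary finite type -/
noncomputable def mkIdn {A : Type} [Fintype A] (f : Fm Q κ A) (hf : ML f (fun _ => 1)) :
    Idn Q κ where
  m := Fintype.card A
  U := Finset.univ
  f := rename (PM.relab (Fintype.equivFin A)) f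
  ml := by
    have := ML_rename_bij (Fintype.equivFin A) (Fintype.equivFin A).bijective hf
    intro p
    simpa using this p

theorem mkIdn_iff {A : Type} [Fintype A] (f : Fm Q κ A) (hf : ML f (fun _ => 1))
    {V : Type} [AddCommGroup V] [Module ℂ V] (a : κ → ℂ) (S : Tup Q V) :
    (∀ v : Fin (mkIdn f hf).m → V, ev a S v (mkIdn f hf).f = 0) ↔
      ∀ v : A → V, ev a S v f = 0 := by
  constructor
  · intro h v
    have h1 := h (v ∘ (Fintype.equivFin A).symm)
    unfold mkIdn at h1
    simp only [PM.ev_rename] at h1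
    rw [← h1]
    congr 2
    funext r
    simp
  · intro h v
    have h1 := h (v ∘ (Fintype.equivFin A))
    have h2 := PM.ev_rename (Fintype.equivFin A) a S v f
    exact h2.trans h1

end sym

end Pool.Agent.Helper93
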