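import Mathlib

set_option autoImplicit false

namespace Pool.Agent.Helper93

open scoped BigOperators

/-- Group algebra of the symmetric group on `Fin e`. -/
abbrev GA (e : ℕ) : Type := MonoidAlgebra ℂ (Equiv.Perm (Fin e))

/-- Abstract statement: a product of matrix algebras has a nice family of primitive idempotents. -/
theorem labels_of_matrix (k : ℕ) (n : Fin k → ℕ) (hn : ∀ i, NeZero (n i)) :
    ∃ (idem : ℕ → (∀ i : Fin k, Matrix (Fin (n i)) (Fin (n i)) ℂ)) (t : ℕ) (lab : Fin t → ℕ)
      (X Y : Fin t → (∀ i : Fin k, Matrix (Fin (n i)) (Fin (n i)) ℂ)),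
      (∀ i, idem i * idem i = idem i) ∧
      (∀ i y, ∃ c : ℂ, idem i * y * idem i = c • idem i) ∧
      (∀ i j, i ≠ j → ∀ y, idem i * y * idem j = 0) ∧
      (∀ i x, x * idem i ≠ 0 → ∃ b, idem i * b * (x * idem i) = idem i) ∧
      (∑ s, X s * Y s = 1) ∧ (∀ s, idem (lab s) * Y s = Y s) := by
  classical
  let z : ∀ i : Fin k, Fin (n i) := fun i => ⟨0, Nat.pos_of_ne_zero (hn i).out⟩
  -- E i a b : matrix unit
  let E : ∀ i : Fin k, Fin (n i) → Fin (n i) → (∀ i : Fin k, Matrix (Fin (n i)) (Fin (n i)) ℂ) :=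
    fun i a b => Pi.single i (Matrix.single a b (1:ℂ))
  let idem : ℕ → (∀ i : Fin k, Matrix (Fin (n i)) (Fin (n i)) ℂ) :=
    fun i => if h : i < k then E ⟨i, h⟩ (z ⟨i, h⟩) (z ⟨i, h⟩) else 0
  let T := Σ i : Fin k, Fin (n i)
  let eT : T ≃ Fin (Fintype.card T) := Fintype.equivFin T
  refine ⟨idem, Fintype.card T, fun s => ((eT.symm s).1 : ℕ),
    fun s => E (eT.symm s).1 (eT.symm s).2 (z _), fun s => E (eT.symm s).1 (z _) (eT.symm s).2,
    ?_, ?_, ?_, ?_, ?_, ?_⟩
  · intro i
    by_cases h : i < k
    · simp only [idem, h, dif_pos, E]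
      funext j
      by_cases hj : j = ⟨i, h⟩
      · subst hj; simp
      · simp [Pi.single_eq_of_ne hj]
    · simp [idem, h]
  · intro i y
    by_cases h : i < k
    · refine ⟨y ⟨i, h⟩ (z ⟨i, h⟩) (z ⟨i, h⟩), ?_⟩
      simp only [idem, h, dif_pos, E]
      funext j
      by_cases hj : j = ⟨i, h⟩
      · subst hj
        simp only [Pi.mul_apply, Pi.single_eq_same, Pi.smul_apply]
        rw [Matrix.single_mul_mul_single, Matrix.smul_single]
        simp
      · simp [Pi.single_eq_of_ne hj]
    · exact ⟨0, by simp [idem, h]⟩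
  · intro i j hij y
    by_cases h : i < k
    · by_cases h' : j < k
      · simp only [idem, h, h', dif_pos, E]
        funext l
        by_cases hl : l = ⟨i, h⟩
        · have : l ≠ ⟨j, h'⟩ := by
            rintro rfl
            simp at hl
            exact hij hl.symm
          simp [Pi.single_eq_of_ne this]
        · simp [Pi.single_eq_of_ne hl]
      · simp [idem, h']
    · simp [idem, h]
  · intro i x hx
    by_cases h : i < k
    · have : ∃ a, x ⟨i, h⟩ a (z ⟨i, h⟩) ≠ 0 := by
        by_contra hcon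
        push Not at hcon
        apply hx
        simp only [idem, h, dif_pos, E]
        funext j
        by_cases hj : j = ⟨i, h⟩
        · subst hj
          ext a b
          simp only [Pi.mul_apply, Pi.single_eq_same, Matrix.mul_apply, Matrix.single, Matrix.of_apply]
          simp only [Pi.zero_apply, Matrix.zero_apply]
          apply Finset.sum_eq_zero
          intro c _
          by_cases hc : z ⟨i, h⟩ = c
          · subst hc; simp [hcon a]
          · simp [hc]
        · simp [Pi.single_eq_of_ne hj]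
      obtain ⟨a, ha⟩ := this
      refine ⟨(x ⟨i, h⟩ a (z ⟨i, h⟩))⁻¹ • E ⟨i, h⟩ (z ⟨i, h⟩) a, ?_⟩
      simp only [idem, h, dif_pos, E]
      funext j
      by_cases hj : j = ⟨i, h⟩
      · subst hj
        simp only [Pi.mul_apply, Pi.single_eq_same, Pi.smul_apply]
        rw [Matrix.mul_smul, Matrix.single_mul_single_same, Matrix.smul_mul, ← mul_assoc,
          Matrix.single_mul_mul_single]
        rw [Matrix.smul_single]
        simp [inv_mul_cancel₀ ha]
      · simp [Pi.single_eq_of_ne hj]
    · exact absurd (by simp [idem, h]) hx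
  · have : ∑ s, E (eT.symm s).1 (eT.symm s).2 (z _) * E (eT.symm s).1 (z _) (eT.symm s).2
        = ∑ s : T, E s.1 s.2 (z _) * E s.1 (z _) s.2 := by
      exact Fintype.sum_equiv eT.symm _ _ (fun s => rfl)
    rw [this, Fintype.sum_sigma]
    funext i
    simp only [E]
    rw [Finset.sum_apply, Finset.sum_eq_single i]
    · rw [Finset.sum_apply]
      simp only [Pi.mul_apply, Pi.single_eq_same, Matrix.single_mul_single_same, mul_one,
        Pi.one_apply]
      ext a b
      rw [Matrix.sum_apply]
      by_cases hab : a = b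
      · subst hab
        rw [Finset.sum_eq_single a]
        · simp
        · intro c _ hc
          simp [Matrix.single, hc]
        · intro h; exact absurd (Finset.mem_univ a) h
      · rw [Matrix.one_apply_ne hab]
        apply Finset.sum_eq_zero
        intro c _
        simp only [Matrix.single, Matrix.of_apply, ite_eq_right_iff]
        rintro ⟨h1, h2⟩
        exact absurd (h1.symm.trans h2) hab
    · intro j _ hj
      rw [Finset.sum_apply]
      apply Finset.sum_eq_zero
      intro a _
      simp [Pi.single_eq_of_ne (Ne.symm hj)]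
    · intro h; exact absurd (Finset.mem_univ i) h
  · intro s
    have hlt : ((eT.symm s).1 : ℕ) < k := (eT.symm s).1.2
    simp only [idem, hlt, dif_pos, E]
    funext j
    by_cases hj : j = (eT.symm s).1
    · subst hj; simp
    · simp [Pi.single_eq_of_ne hj]

theorem labels_exist (e : ℕ) :
    ∃ (idem : ℕ → GA e) (t : ℕ) (lab : Fin t → ℕ) (X Y : Fin t → GA e),
      (∀ i, idem i * idem i = idem i) ∧
      (∀ i y, ∃ c : ℂ, idem i * y * idem i = c • idem i) ∧
      (∀ i j, i ≠ j → ∀ y, idem i * y * idem j = 0) ∧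
      (∀ i x, x * idem i ≠ 0 → ∃ b, idem i * b * (x * idem i) = idem i) ∧
      (∑ s, X s * Y s = 1) ∧ (∀ s, idem (lab s) * Y s = Y s) := by
  have : FiniteDimensional ℂ (GA e) := inferInstance
  have : IsSemisimpleRing (GA e) := inferInstance
  obtain ⟨k, n, hn, ⟨φ⟩⟩ := IsSemisimpleRing.exists_algEquiv_pi_matrix_of_isAlgClosed ℂ (GA e)
  obtain ⟨idem, t, lab, X, Y, h1, h2, h3, h4, h5, h6⟩ := labels_of_matrix k n hn
  refine ⟨fun i => φ.symm (idem i), t, lab, fun s => φ.symm (X s), fun s => φ.symm (Y s),
    ?_, ?_, ?_, ?_, ?_, ?_⟩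
  · intro i; rw [← map_mul, h1]
  · intro i y
    obtain ⟨c, hc⟩ := h2 i (φ y)
    refine ⟨c, ?_⟩
    rw [← map_smul, ← hc, map_mul, map_mul, AlgEquiv.symm_apply_apply]
  · intro i j hij y
    have := h3 i j hij (φ y)
    have h := congrArg φ.symm this
    rwa [map_mul, map_mul, AlgEquiv.symm_apply_apply, map_zero] at h
  · intro i x hx
    have hx' : φ x * idem i ≠ 0 := by
      intro h
      apply hx
      have := congrArg φ.symm h
      rwa [map_mul, AlgEquiv.symm_apply_apply, map_zero] at this
    obtain ⟨b, hb⟩ := h4 i (φ x) hx'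
    refine ⟨φ.symm b, ?_⟩
    have := congrArg φ.symm hb
    rwa [map_mul, map_mul, map_mul, AlgEquiv.symm_apply_apply] at this
  · simp_rw [← map_mul]
    rw [← map_sum, h5, map_one]
  · intro s
    rw [← map_mul, h6]

end Pool.Agent.Helper93
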