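import Pool.Agent.Helper93.Form

set_option autoImplicit false

namespace Pool.Agent.Helper93

open scoped BigOperators
open MvPolynomial

variable {D : ℕ}

/-! ### global choice of idempotents -/

noncomputable def idem (e : ℕ) : ℕ → GA e := (labels_exist e).choose
noncomputable def nT (e : ℕ) : ℕ := (labels_exist e).choose_spec.choose
noncomputable def labT (e : ℕ) : Fin (nT e) → ℕ := (labels_exist e).choose_spec.choose_spec.choose
noncomputable def XT (e : ℕ) : Fin (nT e) → GA e :=
  (labels_exist e).choose_spec.choose_spec.choose_spec.choose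
noncomputable def YT (e : ℕ) : Fin (nT e) → GA e :=
  (labels_exist e).choose_spec.choose_spec.choose_spec.choose_spec.choose

theorem labels_spec (e : ℕ) :
      (∀ i, idem e i * idem e i = idem e i) ∧
      (∀ i y, ∃ c : ℂ, idem e i * y * idem e i = c • idem e i) ∧
      (∀ i j, i ≠ j → ∀ y, idem e i * y * idem e j = 0) ∧
      (∀ i x, x * idem e i ≠ 0 → ∃ b, idem e i * b * (x * idem e i) = idem e i) ∧
      (∑ s, XT e s * YT e s = 1) ∧ (∀ s, idem e (labT e s) * YT e s = YT e s) :=
  (labels_exist e).choose_spec.choose_spec.choose_spec.choose_spec.choose_spec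

/-! ### weighted homogeneity lemmas -/

theorem IsWH_rename {σ τ R : Type} [CommSemiring R] {ρ : σ → τ} {w : τ → ℕ}
    {f : MvPolynomial σ R} {n : ℕ} (h : IsWeightedHomogeneous (w ∘ ρ) f n) :
    IsWeightedHomogeneous w (rename ρ f) n := by
  classical
  rw [f.as_sum, map_sum]
  apply IsWeightedHomogeneous.sum
  intro d hd
  rw [rename_monomial]
  apply isWeightedHomogeneous_monomial
  have := h (mem_support_iff.mp hd)
  rw [← this, Finsupp.weight_apply, Finsupp.weight_apply]
  rw [Finsupp.sum_mapDomain_index]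
  · rfl
  · intro b; simp
  · intro b m1 m2; simp [add_mul]

theorem IsWH_sumw {σ R ι : Type} [CommSemiring R] (s : Finset ι) {w : ι → σ → ℕ} {n : ι → ℕ}
    {f : MvPolynomial σ R} (h : ∀ i ∈ s, IsWeightedHomogeneous (w i) f (n i)) :
    IsWeightedHomogeneous (fun x => ∑ i ∈ s, w i x) f (∑ i ∈ s, n i) := by
  intro d hd
  rw [Finsupp.weight_apply, Finsupp.sum]
  have : ∀ i ∈ s, n i = ∑ x ∈ d.support, d x • w i x := by
    intro i hi
    have := h i hi hd
    rw [Finsupp.weight_apply, Finsupp.sum] at this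
    exact this.symm
  rw [Finset.sum_congr rfl this, Finset.sum_comm]
  apply Finset.sum_congr rfl
  intro x _
  rw [Finset.smul_sum]

theorem IsWH_subst {σ τ R R' : Type} [CommSemiring R] [CommSemiring R'] (φ : R →+* R')
    {w : σ → ℕ} {w' : τ → ℕ} (g : σ → MvPolynomial τ R')
    (hg : ∀ x, IsWeightedHomogeneous w' (g x) (w x))
    {f : MvPolynomial σ R} {n : ℕ} (h : IsWeightedHomogeneous w f n) :
    IsWeightedHomogeneous w' (eval₂Hom (C.comp φ) g f) n := by
  classical
  rw [coe_eval₂Hom, eval₂_eq]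
  apply IsWeightedHomogeneous.sum
  intro d hd
  have hdn := h (mem_support_iff.mp hd)
  have h1 : IsWeightedHomogeneous w' ((C.comp φ) (coeff d f)) 0 := by
    rw [RingHom.comp_apply]
    exact isWeightedHomogeneous_C w' _
  have h2 : IsWeightedHomogeneous w' (∏ i ∈ d.support, g i ^ d i) (∑ i ∈ d.support, d i • w i) := by
    apply IsWeightedHomogeneous.prod
    intro i _
    exact (hg i).pow (d i)
  have h3 := h1.mul h2
  rw [zero_add] at h3
  rw [Finsupp.weight_apply, Finsupp.sum] at hdn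
  rw [hdn] at h3
  exact h3

/-! ### points, regular functions, preirreducible sets -/

/-- points -/
abbrev Pt (Q : Dat D) (κ : Type) (V : Type) [AddCommGroup V] [Module ℂ V] : Type :=
  (κ → ℂ) × Tup Q V

/-- regular functions on the space of points -/
noncomputable def Reg (Q : Dat D) (κ : Type) (V : Type) [AddCommGroup V] [Module ℂ V] :
    Subalgebra ℂ (Pt Q κ V → ℂ) :=
  Algebra.adjoin ℂ ({f | ∃ j : κ, f = fun p => p.1 j} ∪
    {f | ∃ (k : Fin D) (s : Q.ι k) (v : Fin (k.val + 1) → V), f = fun p => p.2 k s v})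

/-- A set is preirreducible with respect to an algebra of functions. -/
def PreIrr {P : Type} (R : Set (P → ℂ)) (Z : Set P) : Prop :=
  ∀ f ∈ R, ∀ g ∈ R, (∀ p ∈ Z, f p * g p = 0) → (∀ p ∈ Z, f p = 0) ∨ (∀ p ∈ Z, g p = 0)

section reg
variable {Q : Dat D} {κ A : Type} {V : Type} [AddCommGroup V] [Module ℂ V]

theorem eval_mem_Reg (g : MvPolynomial κ ℂ) :
    (fun p : Pt Q κ V => MvPolynomial.eval p.1 g) ∈ Reg Q κ V := by
  induction g using MvPolynomial.induction_on with
  | C c =>
    simp only [eval_C]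
    exact (Reg Q κ V).algebraMap_mem c
  | add f g hf hg =>
    simp only [map_add]
    exact (Reg Q κ V).add_mem hf hg
  | mul_X f j hf =>
    simp only [map_mul, eval_X]
    exact (Reg Q κ V).mul_mem hf (Algebra.subset_adjoin (Or.inl ⟨j, rfl⟩))

theorem ev_mem_Reg (v : A → V) (f : Fm Q κ A) :
    (fun p : Pt Q κ V => ev p.1 p.2 v f) ∈ Reg Q κ V := by
  induction f using MvPolynomial.induction_on with
  | C c =>
    simp only [ev_C]
    exact eval_mem_Reg c
  | add f g hf hg =>
    simp only [map_add]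
    exact (Reg Q κ V).add_mem hf hg
  | mul_X f x hf =>
    simp only [map_mul, ev_X]
    exact (Reg Q κ V).mul_mem hf (Algebra.subset_adjoin (Or.inr ⟨x.1, x.2.1, _, rfl⟩))

end reg

/-! ### polynomial maps -/

/-- natural polynomial maps between spaces of points -/
structure PM (Q' : Dat D) (κ' : Type) (Q : Dat D) (κ : Type) where
  scal : κ → MvPolynomial κ' ℂ
  form : ∀ k : Fin D, Q.ι k → Fm Q' κ' (Fin (k.val + 1))
  ml : ∀ k s, ML (form k s) (fun _ => 1)

namespace PM
variable {Q' : Dat D} {κ' : Type} {Q : Dat D} {κ : Type}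

/-- apply a polynomial map -/
noncomputable def app (α : PM Q' κ' Q κ) (V : Type) [AddCommGroup V] [Module ℂ V]
    (p : Pt Q' κ' V) : Pt Q κ V :=
  (fun j => MvPolynomial.eval p.1 (α.scal j),
   fun k s => mkForm (α.ml k s) p.1 p.2 id Function.injective_id (fun _ => rfl) 0)

theorem app_fst (α : PM Q' κ' Q κ) (V : Type) [AddCommGroup V] [Module ℂ V]
    (p : Pt Q' κ' V) (j : κ) : (α.app V p).1 j = MvPolynomial.eval p.1 (α.scal j) := rfl

theorem app_snd (α : PM Q' κ' Q κ) (V : Type) [AddCommGroup V] [Module ℂ V]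
    (p : Pt Q' κ' V) (k : Fin D) (s : Q.ι k) (w : Fin (k.val + 1) → V) :
    (α.app V p).2 k s w = ev p.1 p.2 w (α.form k s) := by
  show mkForm (α.ml k s) p.1 p.2 id Function.injective_id (fun _ => rfl) 0 w = _
  rw [mkForm_apply]
  congr 1
  have : Function.extend id w (0 : Fin (k.val + 1) → V) = w := by
    funext q
    exact Function.injective_id.extend_apply w 0 q
  rw [this]

/-- the homomorphism on scalars -/
noncomputable def scalHom (α : PM Q' κ' Q κ) : MvPolynomial κ ℂ →+* MvPolynomial κ' ℂ :=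
  (MvPolynomial.aeval α.scal : MvPolynomial κ ℂ →ₐ[ℂ] MvPolynomial κ' ℂ).toRingHom

theorem eval_scalHom (α : PM Q' κ' Q κ) (V : Type) [AddCommGroup V] [Module ℂ V]
    (p : Pt Q' κ' V) (g : MvPolynomial κ ℂ) :
    MvPolynomial.eval p.1 (α.scalHom g) = MvPolynomial.eval (α.app V p).1 g := by
  unfold scalHom
  induction g using MvPolynomial.induction_on with
  | C c => simp
  | add f g hf hg => simp only [map_add, hf, hg]
  | mul_X f j hf => simp only [map_mul, hf, eval_X]; congr 1; simp [app_fst]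

/-- relabelling of slots -/
def relab {Q : Dat D} {B A : Type} (I : B → A) (y : Vr Q B) : Vr Q A :=
  ⟨y.1, y.2.1, I ∘ y.2.2⟩

/-- pull back of a formal polynomial -/
noncomputable def comp (α : PM Q' κ' Q κ) {A : Type} : Fm Q κ A →+* Fm Q' κ' A :=
  eval₂Hom (C.comp α.scalHom) (fun x => rename (relab x.2.2) (α.form x.1 x.2.1))

theorem ev_rename {B A : Type} {V : Type} [AddCommGroup V] [Module ℂ V] (I : B → A)
    (a : κ → ℂ) (S : Tup Q V) (v : A → V) (f : Fm Q κ B) :
    ev a S v (rename (relab I) f) = ev a S (v ∘ I) f := by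
  unfold ev
  rw [coe_eval₂Hom, coe_eval₂Hom, eval₂_rename]
  rfl

theorem ev_comp (α : PM Q' κ' Q κ) {A : Type} {V : Type} [AddCommGroup V] [Module ℂ V]
    (p : Pt Q' κ' V) (v : A → V) (f : Fm Q κ A) :
    ev p.1 p.2 v (α.comp f) = ev (α.app V p).1 (α.app V p).2 v f := by
  have h : (ev p.1 p.2 v).comp (α.comp (A := A)) = ev (α.app V p).1 (α.app V p).2 v := by
    apply MvPolynomial.ringHom_ext
    · intro c
      rw [RingHom.comp_apply, ev_C, ← eval_scalHom]
      unfold comp
      rw [eval₂Hom_C, RingHom.comp_apply, ev_C]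
    · intro x
      rw [RingHom.comp_apply, ev_X, app_snd]
      unfold comp
      rw [eval₂Hom_X', ev_rename]
  exact RingHom.congr_fun h f

open Classical in
theorem wt_relab {B A : Type} [Fintype B] (I : B → A) (p : A) (y : Vr Q B) :
    wt p (relab I y) = ∑ r ∈ Finset.univ.filter (fun r => I r = p), wt r y := by
  classical
  unfold wt relab
  simp only [Function.comp]
  rw [← Finset.card_biUnion]
  · congr 1
    ext q
    simp
  · intro r _ r' _ hrr'
    rw [Function.onFun, Finset.disjoint_left]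
    intro q hq hq'
    simp only [Finset.mem_filter, Finset.mem_univ, true_and] at hq hq'
    exact hrr' (hq.symm.trans hq')

open Classical in
theorem ML_rename {B A : Type} [Fintype B] (I : B → A) {f : Fm Q κ B} (hf : ML f (fun _ => 1))
    (p : A) :
    IsWeightedHomogeneous (wt p) (rename (relab I) f)
      (Finset.univ.filter (fun r => I r = p)).card := by
  classical
  apply IsWH_rename
  have h1 := IsWH_sumw (Finset.univ.filter (fun r => I r = p)) (w := fun r => wt (Q := Q) r)
    (n := fun _ => 1) (f := f) (fun r _ => hf r)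
  rw [Finset.sum_const, smul_eq_mul, mul_one] at h1
  have h2 : (wt p ∘ relab I : Vr Q B → ℕ) =
      fun x => ∑ i ∈ Finset.univ.filter (fun r => I r = p), wt i x := by
    funext y
    exact wt_relab I p y
  rw [h2]
  exact h1

theorem ML_comp (α : PM Q' κ' Q κ) {A : Type} {f : Fm Q κ A} {m : A → ℕ} (hf : ML f m) :
    ML (α.comp f) m := by
  intro p
  unfold comp
  apply IsWH_subst _ _ _ (hf p)
  intro x
  exact ML_rename x.2.2 (α.ml x.1 x.2.1) p

theorem Reg_comp (α : PM Q' κ' Q κ) {V : Type} [AddCommGroup V] [Module ℂ V]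
    {f : Pt Q κ V → ℂ} (hf : f ∈ Reg Q κ V) : (fun p => f (α.app V p)) ∈ Reg Q' κ' V := by
  unfold Reg at hf
  induction hf using Algebra.adjoin_induction with
  | mem f hf =>
    rcases hf with ⟨j, rfl⟩ | ⟨k, s, v, rfl⟩
    · exact eval_mem_Reg (α.scal j)
    · have := ev_mem_Reg (Q := Q') (κ := κ') v (α.form k s)
      convert this using 2 with p
      exact app_snd α V p k s v
  | algebraMap c => exact (Reg Q' κ' V).algebraMap_mem c
  | add f g _ _ hf hg => exact (Reg Q' κ' V).add_mem hf hg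
  | mul f g _ _ hf hg => exact (Reg Q' κ' V).mul_mem hf hg

theorem PreIrr_image (α : PM Q' κ' Q κ) {V : Type} [AddCommGroup V] [Module ℂ V]
    {Z : Set (Pt Q' κ' V)} (hZ : PreIrr (Reg Q' κ' V : Set (Pt Q' κ' V → ℂ)) Z) :
    PreIrr (Reg Q κ V : Set (Pt Q κ V → ℂ)) (α.app V '' Z) := by
  intro f hf g hg hfg
  have := hZ _ (α.Reg_comp hf) _ (α.Reg_comp hg)
    (fun p hp => hfg _ (Set.mem_image_of_mem _ hp))
  rcases this with h | h
  · left
    rintro _ ⟨p, hp, rfl⟩
    exact h p hp
  · right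
    rintro _ ⟨p, hp, rfl⟩
    exact h p hp

end PM

/-! ### identities and closed families -/

/-- A multilinear identity -/
structure Idn (Q : Dat D) (κ : Type) where
  m : ℕ
  U : Finset (Fin m)
  f : Fm Q κ (Fin m)
  ml : ML f (fun p => if p ∈ U then 1 else 0)

/-- the label constraint -/
def Cst (Q : Dat D) {V : Type} [AddCommGroup V] [Module ℂ V] (S : Tup Q V) : Prop :=
  ∀ k s, act V (k.val + 1) (idem (k.val + 1) (Q.lab k s)) (S k s) = S k s

/-- a closed family -/
def XS (Q : Dat D) (κ : Type) (I : Set (MvPolynomial κ ℂ)) (F : Set (Idn Q κ))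
    (V : Type) [AddCommGroup V] [Module ℂ V] : Set (Pt Q κ V) :=
  {p | (∀ g ∈ I, MvPolynomial.eval p.1 g = 0) ∧ Cst Q p.2 ∧
    ∀ i ∈ F, ∀ v : Fin i.m → V, ev p.1 p.2 v i.f = 0}

/-- families of sets of points -/
abbrev Fam (Q : Dat D) (κ : Type) : Type 1 :=
  ∀ (V : Type) [AddCommGroup V] [Module ℂ V], Set (Pt Q κ V)

/-- bounded families: unions of a bounded number of preirreducible sets -/
def Bdd {Q : Dat D} {κ : Type} (X : Fam Q κ) : Prop :=
  ∃ J : ℕ, ∀ (V : Type) [AddCommGroup V] [Module ℂ V], ∃ Z : Fin J → Set (Pt Q κ V),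
    (∀ j, PreIrr (Reg Q κ V : Set (Pt Q κ V → ℂ)) (Z j)) ∧ X V = ⋃ j, Z j

theorem Bdd.union {Q : Dat D} {κ : Type} {X Y W : Fam Q κ} (hX : Bdd X) (hY : Bdd Y)
    (h : ∀ (V : Type) [AddCommGroup V] [Module ℂ V], W V = X V ∪ Y V) : Bdd W := by
  obtain ⟨J, hJ⟩ := hX
  obtain ⟨K, hK⟩ := hY
  refine ⟨J + K, ?_⟩
  intro V _ _
  obtain ⟨Z, hZ, hXV⟩ := hJ V
  obtain ⟨Z', hZ', hYV⟩ := hK V
  refine ⟨Fin.addCases Z Z', ?_, ?_⟩
  · intro j
    induction j using Fin.addCases with
    | left j => simpa using hZ j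
    | right j => simpa using hZ' j
  · rw [h V, hXV, hYV]
    ext p
    simp only [Set.mem_union, Set.mem_iUnion]
    constructor
    · rintro (⟨j, hj⟩ | ⟨j, hj⟩)
      · exact ⟨Fin.castAdd K j, by simpa using hj⟩
      · exact ⟨Fin.natAdd J j, by simpa using hj⟩
    · rintro ⟨j, hj⟩
      induction j using Fin.addCases with
      | left j => left; exact ⟨j, by simpa using hj⟩
      | right j => right; exact ⟨j, by simpa using hj⟩

theorem Bdd.image {Q' : Dat D} {κ' : Type} {Q : Dat D} {κ : Type} (α : PM Q' κ' Q κ)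
    {X : Fam Q' κ'} (hX : Bdd X) : Bdd (fun V _ _ => α.app V '' X V) := by
  obtain ⟨J, hJ⟩ := hX
  refine ⟨J, ?_⟩
  intro V _ _
  obtain ⟨Z, hZ, hXV⟩ := hJ V
  refine ⟨fun j => α.app V '' Z j, fun j => α.PreIrr_image (hZ j), ?_⟩
  show α.app V '' X V = _
  rw [hXV, Set.image_iUnion]

/-- pulled back identity -/
noncomputable def PM.pull {Q' : Dat D} {κ' : Type} {Q : Dat D} {κ : Type} (α : PM Q' κ' Q κ)
    (i : Idn Q κ) : Idn Q' κ' where
  m := i.m
  U := i.U
  f := α.comp i.f
  ml := α.ML_comp i.ml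

theorem XS_pull {Q' : Dat D} {κ' : Type} {Q : Dat D} {κ : Type} (α : PM Q' κ' Q κ)
    (hα : ∀ (V : Type) [AddCommGroup V] [Module ℂ V] (p : Pt Q' κ' V), Cst Q' p.2 →
      Cst Q (α.app V p).2)
    (I : Set (MvPolynomial κ ℂ)) (F : Set (Idn Q κ)) (V : Type) [AddCommGroup V] [Module ℂ V]
    (p : Pt Q' κ' V) :
    p ∈ XS Q' κ' (α.scalHom '' I) (α.pull '' F) V ↔
      Cst Q' p.2 ∧ α.app V p ∈ XS Q κ I F V := by
  unfold XS
  simp only [Set.mem_ofPred_eq, Set.forall_mem_image]
  constructor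
  · rintro ⟨h1, h2, h3⟩
    refine ⟨h2, ?_, hα V p h2, ?_⟩
    · intro g hg
      rw [← PM.eval_scalHom]; exact h1 hg
    · intro i hi v
      rw [← PM.ev_comp]; exact h3 hi v
  · rintro ⟨h2, h1, h4, h3⟩
    refine ⟨?_, h2, ?_⟩
    · intro g hg
      rw [PM.eval_scalHom]; exact h1 g hg
    · intro i hi v
      have := PM.ev_comp α p v i.f
      exact this.trans (h3 i hi v)

end Pool.Agent.Helper93
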