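import Pool.Agent.Helper93.Main

set_option autoImplicit false

namespace Pool.Agent.Helper93

open scoped BigOperators

section top
variable {P : Type} (R : Subalgebra ℂ (P → ℂ))

/-- the Zariski topology defined by an algebra of functions -/
def zar : TopologicalSpace P :=
  TopologicalSpace.generateFrom {U : Set P | ∃ f ∈ R, U = {p | f p ≠ 0}}

/-- irreducible sets -/
def Irr (t : Set P) : Prop := t.Nonempty ∧ PreIrr (R : Set (P → ℂ)) t

theorem zar_basis (U : Set P) (hU : @IsOpen P (zar R) U) (p : P) (hp : p ∈ U) :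
    ∃ f ∈ R, f p ≠ 0 ∧ ∀ q, f q ≠ 0 → q ∈ U := by
  unfold zar at hU
  induction hU with
  | basic s hs =>
    obtain ⟨f, hf, rfl⟩ := hs
    exact ⟨f, hf, hp, fun q hq => hq⟩
  | univ => exact ⟨1, R.one_mem, by simp, fun q _ => Set.mem_univ q⟩
  | inter s t _ _ ihs iht =>
    obtain ⟨f, hf, hfp, hfs⟩ := ihs hp.1
    obtain ⟨g, hg, hgp, hgt⟩ := iht hp.2
    refine ⟨f * g, R.mul_mem hf hg, mul_ne_zero hfp hgp, ?_⟩
    intro q hq
    exact ⟨hfs q (left_ne_zero_of_mul hq), hgt q (right_ne_zero_of_mul hq)⟩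
  | sUnion S _ ih =>
    obtain ⟨s, hs, hps⟩ := hp
    obtain ⟨f, hf, hfp, hfs⟩ := ih s hs hps
    exact ⟨f, hf, hfp, fun q hq => ⟨s, hs, hfs q hq⟩⟩

theorem isPreirreducible_iff (t : Set P) :
    @IsPreirreducible P (zar R) t ↔ PreIrr (R : Set (P → ℂ)) t := by
  constructor
  · intro h f hf g hg hfg
    by_contra hcon
    push Not at hcon
    obtain ⟨⟨p, hp, hfp⟩, ⟨q, hq, hgq⟩⟩ := hcon
    have hU : @IsOpen P (zar R) {p | f p ≠ 0} :=
      TopologicalSpace.isOpen_generateFrom_of_mem ⟨f, hf, rfl⟩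
    have hV : @IsOpen P (zar R) {p | g p ≠ 0} :=
      TopologicalSpace.isOpen_generateFrom_of_mem ⟨g, hg, rfl⟩
    obtain ⟨r, hr, hr1, hr2⟩ := h _ _ hU hV ⟨p, hp, hfp⟩ ⟨q, hq, hgq⟩
    exact (mul_ne_zero hr1 hr2) (hfg r hr)
  · intro h U V hU hV ⟨p, hp, hpU⟩ ⟨q, hq, hqV⟩
    obtain ⟨f, hf, hfp, hfU⟩ := zar_basis R U hU p hpU
    obtain ⟨g, hg, hgq, hgV⟩ := zar_basis R V hV q hqV
    by_contra hcon
    rcases h f hf g hg (by
      intro r hr
      by_contra hne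
      apply hcon
      exact ⟨r, hr, hfU r (left_ne_zero_of_mul hne), hgV r (right_ne_zero_of_mul hne)⟩) with h1 | h1
    · exact hfp (h1 p hp)
    · exact hgq (h1 q hq)

theorem isIrreducible_iff (t : Set P) :
    @IsIrreducible P (zar R) t ↔ Irr R t := by
  unfold IsIrreducible Irr
  rw [isPreirreducible_iff]

/-- relative closure -/
def cl (X Z : Set P) : Set P := {p ∈ X | ∀ f ∈ R, (∀ z ∈ Z, f z = 0) → f p = 0}

theorem subset_cl {X Z : Set P} (h : Z ⊆ X) : Z ⊆ cl R X Z :=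
  fun p hp => ⟨h hp, fun _ _ hf => hf p hp⟩

theorem PreIrr_cl {X Z : Set P} (h : Z ⊆ X) (hZ : PreIrr (R : Set (P → ℂ)) Z) :
    PreIrr (R : Set (P → ℂ)) (cl R X Z) := by
  intro f hf g hg hfg
  rcases hZ f hf g hg (fun p hp => hfg p (subset_cl R h hp)) with h1 | h1
  · left; intro p hp; exact hp.2 f hf h1
  · right; intro p hp; exact hp.2 g hg h1

theorem PreIrr_prod_zero {t : Set P} (ht : Irr R t) {ι : Type} (s : Finset ι) (f : ι → P → ℂ)
    (hf : ∀ i ∈ s, f i ∈ R) (h0 : ∀ p ∈ t, ∏ i ∈ s, f i p = 0) :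
    ∃ i ∈ s, ∀ p ∈ t, f i p = 0 := by
  classical
  induction s using Finset.induction_on with
  | empty =>
    obtain ⟨p, hp⟩ := ht.1
    have := h0 p hp
    simp at this
  | insert a s ha ih =>
    have hmem : (fun p => ∏ i ∈ s, f i p) ∈ R := by
      have h1 : (∏ i ∈ s, f i) ∈ R := R.prod_mem (fun i hi => hf i (Finset.mem_insert_of_mem hi))
      convert h1 using 1
      funext p
      rw [Finset.prod_apply]
    rcases ht.2 (f a) (hf a (Finset.mem_insert_self a s)) _ hmem (by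
      intro p hp
      have := h0 p hp
      rwa [Finset.prod_insert ha] at this) with h1 | h1
    · exact ⟨a, Finset.mem_insert_self a s, h1⟩
    · obtain ⟨i, hi, hi2⟩ := ih (fun i hi => hf i (Finset.mem_insert_of_mem hi)) h1
      exact ⟨i, Finset.mem_insert_of_mem hi, hi2⟩

theorem exists_cl {X : Set P} {J : ℕ} {Z : Fin J → Set P} (hX : X = ⋃ j, Z j)
    {t : Set P} (ht : Irr R t) (htX : t ⊆ X) : ∃ j, t ⊆ cl R X (Z j) := by
  by_contra hcon
  push Not at hcon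
  have h1 : ∀ j, ∃ f ∈ R, (∀ z ∈ Z j, f z = 0) ∧ ∃ p ∈ t, f p ≠ 0 := by
    intro j
    obtain ⟨p, hp, hpc⟩ := Set.not_subset.mp (hcon j)
    unfold cl at hpc
    simp only [Set.mem_ofPred_eq, not_and, not_forall] at hpc
    obtain ⟨f, hf, hfz, hfp⟩ := hpc (htX hp)
    exact ⟨f, hf, hfz, p, hp, hfp⟩
  choose f hf hfz p hp hfp using h1
  obtain ⟨j, _, hj⟩ := PreIrr_prod_zero R ht Finset.univ f (fun j _ => hf j) (by
    intro q hq
    have hqX := htX hq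
    rw [hX] at hqX
    obtain ⟨j, hj⟩ := Set.mem_iUnion.mp hqX
    exact Finset.prod_eq_zero (Finset.mem_univ j) (hfz j q hj))
  exact hfp j (hj (p j) (hp j))

/-- the set of components -/
def Comp (X : Set P) : Set (Set P) := {S | Maximal (fun t => t ⊆ X ∧ Irr R t) S}

theorem Comp_subset {X : Set P} {J : ℕ} {Z : Fin J → Set P} (hX : X = ⋃ j, Z j)
    (hZ : ∀ j, PreIrr (R : Set (P → ℂ)) (Z j)) :
    Comp R X ⊆ Set.range (fun j => cl R X (Z j)) := by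
  intro S hS
  obtain ⟨⟨h1, h2⟩, h3⟩ := hS
  obtain ⟨j, hj⟩ := exists_cl R hX h2 h1
  refine ⟨j, ?_⟩
  have hsub : Z j ⊆ X := by rw [hX]; exact Set.subset_iUnion Z j
  have h4 : (fun t => t ⊆ X ∧ Irr R t) (cl R X (Z j)) :=
    ⟨fun p hp => hp.1, h2.1.mono hj, PreIrr_cl R hsub (hZ j)⟩
  exact (h3 h4 hj).antisymm hj

theorem Comp_finite {X : Set P} {J : ℕ} {Z : Fin J → Set P} (hX : X = ⋃ j, Z j)
    (hZ : ∀ j, PreIrr (R : Set (P → ℂ)) (Z j)) :
    (Comp R X).Finite ∧ (Comp R X).ncard ≤ J := by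
  have h1 := Comp_subset R hX hZ
  have h2 : (Set.range (fun j => cl R X (Z j))).Finite := Set.finite_range _
  refine ⟨h2.subset h1, ?_⟩
  refine (Set.ncard_le_ncard h1 h2).trans ?_
  rw [← Set.image_univ]
  refine (Set.ncard_image_le (Set.finite_univ)).trans ?_
  rw [Set.ncard_univ, Nat.card_eq_fintype_card, Fintype.card_fin]

theorem exists_Comp {X : Set P} {J : ℕ} {Z : Fin J → Set P} (hX : X = ⋃ j, Z j)
    (hZ : ∀ j, PreIrr (R : Set (P → ℂ)) (Z j)) {t : Set P} (ht : Irr R t) (htX : t ⊆ X) :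
    ∃ S ∈ Comp R X, t ⊆ S := by
  have hfin : {S : Set P | S ∈ Set.range (fun j => cl R X (Z j)) ∧ Irr R S ∧ t ⊆ S}.Finite :=
    (Set.finite_range (fun j => cl R X (Z j))).subset (fun S hS => hS.1)
  have hsub : ∀ j, Z j ⊆ X := fun j => by rw [hX]; exact Set.subset_iUnion Z j
  have hne : {S : Set P | S ∈ Set.range (fun j => cl R X (Z j)) ∧ Irr R S ∧ t ⊆ S}.Nonempty := by
    obtain ⟨j, hj⟩ := exists_cl R hX ht htX
    exact ⟨_, ⟨j, rfl⟩, ⟨ht.1.mono hj, PreIrr_cl R (hsub j) (hZ j)⟩, hj⟩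
  obtain ⟨S, hS⟩ := hfin.exists_maximal hne
  obtain ⟨⟨⟨j, hj⟩, hS2, hS3⟩, hS4⟩ := hS
  refine ⟨S, ⟨⟨?_, hS2⟩, ?_⟩, hS3⟩
  · rw [← hj]; exact fun p hp => hp.1
  · rintro t' ⟨ht'1, ht'2⟩ hle
    obtain ⟨j', hj'⟩ := exists_cl R hX ht'2 ht'1
    have h5 := hS4 (y := cl R X (Z j')) ⟨⟨j', rfl⟩,
      ⟨ht'2.1.mono hj', PreIrr_cl R (hsub j') (hZ j')⟩, (hS3.trans hle).trans hj'⟩
      (hle.trans hj')
    exact hj'.trans h5

theorem PreIrr_inter {Z U : Set P} (hZ : PreIrr (R : Set (P → ℂ)) Z)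
    (hU : ∀ p ∈ Z ∩ U, ∃ f ∈ R, f p ≠ 0 ∧ ∀ q ∈ Z, f q ≠ 0 → q ∈ U) :
    PreIrr (R : Set (P → ℂ)) (Z ∩ U) := by
  intro f hf g hg hfg
  by_contra hcon
  push Not at hcon
  obtain ⟨⟨p, hp, hfp⟩, ⟨q, hq, hgq⟩⟩ := hcon
  obtain ⟨u, hu, hup, huU⟩ := hU p hp
  rcases hZ (f * u) (R.mul_mem hf hu) g hg (by
    intro r hr
    by_cases h : u r = 0
    · simp [h]
    · have := hfg r ⟨hr, huU r hr h⟩
      simp only [Pi.mul_apply]
      calc f r * u r * g r = (f r * g r) * u r := by ring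
        _ = 0 := by rw [this, zero_mul]) with h1 | h1
  · have := h1 p hp.1
    exact (mul_ne_zero hfp hup) this
  · exact hgq (h1 q hq.1)

end top

end Pool.Agent.Helper93
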